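import Pool.Agent.Helper79.DipDefs

set_option autoImplicit false

namespace Pool.Agent.Helper79.Dip

/-- partially edge-coloured structures: `F v w c` says that the edge `v w` has colour `c` -/
structure Gr where
  V : Type
  Y : Type
  F : V → V → Y → Prop
  symm : ∀ {v w c}, F v w c → F w v c
  func : ∀ {v w c d}, F v w c → F v w d → c = d
  inj : ∀ {v w w' c}, F v w c → F v w' c → w = w'

inductive Car (G : Gr) : Type
  | one : Car G
  | hi : Option G.V → Car G
  | lo : Option G.Y → Car G
  | zero : Car G

namespace Car

variable {G : Gr}

open Classical in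
/-- product of two high elements -/
noncomputable def prod (p q : Option G.V) : Option G.Y :=
  match p, q with
  | some v, some w => if h : ∃ c, G.F v w c then some h.choose else none
  | _, _ => none

lemma prod_some {v w : G.V} {c : G.Y} (h : G.F v w c) : prod (some v) (some w) = some c := by
  have h' : ∃ c, G.F v w c := ⟨c, h⟩
  simp only [prod, dif_pos h']
  exact congrArg some (G.func h'.choose_spec h)

lemma prod_eq_some {p q : Option G.V} {c : G.Y} :
    prod p q = some c ↔ ∃ v w, p = some v ∧ q = some w ∧ G.F v w c := by
  constructor
  · intro h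
    rcases p with _ | v
    · simp [prod] at h
    · rcases q with _ | w
      · simp [prod] at h
      · by_cases h' : ∃ c, G.F v w c
        · refine ⟨v, w, rfl, rfl, ?_⟩
          simp only [prod, dif_pos h', Option.some.injEq] at h
          rw [← h]; exact h'.choose_spec
        · simp [prod, dif_neg h'] at h
  · rintro ⟨v, w, rfl, rfl, h⟩
    exact prod_some h

lemma prod_none_left (q : Option G.V) : prod none q = (none : Option G.Y) := by
  simp [prod]

lemma prod_none_right (p : Option G.V) : prod p none = (none : Option G.Y) := by
  cases p <;> simp [prod]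

lemma prod_comm (p q : Option G.V) : prod p q = prod q p := by
  rcases h : prod p q with _ | c
  · rcases h' : prod q p with _ | c
    · rfl
    · exfalso
      obtain ⟨v, w, rfl, rfl, hF⟩ := prod_eq_some.mp h'
      rw [prod_some (G.symm hF)] at h
      simp at h
  · obtain ⟨v, w, rfl, rfl, hF⟩ := prod_eq_some.mp h
    rw [prod_some (G.symm hF)]

def le : Car G → Car G → Prop
  | zero, zero => True
  | zero, lo _ => True
  | zero, hi _ => True
  | zero, one => True
  | lo _, zero => False
  | lo p, lo q => p = q ∨ q = none
  | lo _, hi _ => True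
  | lo _, one => True
  | hi _, zero => False
  | hi _, lo _ => False
  | hi p, hi q => p = q ∨ q = none
  | hi _, one => True
  | one, zero => False
  | one, lo _ => False
  | one, hi _ => False
  | one, one => True

@[simp] lemma le_zero_zero : le zero (zero : Car G) ↔ True := Iff.rfl
@[simp] lemma le_zero_lo (q : Option G.Y) : le zero (lo q : Car G) ↔ True := Iff.rfl
@[simp] lemma le_zero_hi (q : Option G.V) : le zero (hi q : Car G) ↔ True := Iff.rfl
@[simp] lemma le_zero_one : le zero (one : Car G) ↔ True := Iff.rfl
@[simp] lemma le_lo_zero (p : Option G.Y) : le (lo p) (zero : Car G) ↔ False := Iff.rfl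
@[simp] lemma le_lo_lo (p : Option G.Y) (q : Option G.Y) : le (lo p) (lo q : Car G) ↔ p = q ∨ q = none := Iff.rfl
@[simp] lemma le_lo_hi (p : Option G.Y) (q : Option G.V) : le (lo p) (hi q : Car G) ↔ True := Iff.rfl
@[simp] lemma le_lo_one (p : Option G.Y) : le (lo p) (one : Car G) ↔ True := Iff.rfl
@[simp] lemma le_hi_zero (p : Option G.V) : le (hi p) (zero : Car G) ↔ False := Iff.rfl
@[simp] lemma le_hi_lo (p : Option G.V) (q : Option G.Y) : le (hi p) (lo q : Car G) ↔ False := Iff.rfl
@[simp] lemma le_hi_hi (p : Option G.V) (q : Option G.V) : le (hi p) (hi q : Car G) ↔ p = q ∨ q = none := Iff.rfl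
@[simp] lemma le_hi_one (p : Option G.V) : le (hi p) (one : Car G) ↔ True := Iff.rfl
@[simp] lemma le_one_zero : le one (zero : Car G) ↔ False := Iff.rfl
@[simp] lemma le_one_lo (q : Option G.Y) : le one (lo q : Car G) ↔ False := Iff.rfl
@[simp] lemma le_one_hi (q : Option G.V) : le one (hi q : Car G) ↔ False := Iff.rfl
@[simp] lemma le_one_one : le one (one : Car G) ↔ True := Iff.rfl

open Classical in
noncomputable def sup : Car G → Car G → Car G
  | zero, zero => zero
  | zero, lo q => lo q
  | zero, hi q => hi q
  | zero, one => one
  | lo p, zero => lo p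
  | lo p, lo q => lo (if p = q then p else none)
  | lo _, hi q => hi q
  | lo _, one => one
  | hi p, zero => hi p
  | hi p, lo _ => hi p
  | hi p, hi q => hi (if p = q then p else none)
  | hi _, one => one
  | one, zero => one
  | one, lo _ => one
  | one, hi _ => one
  | one, one => one

@[simp] lemma sup_zero_zero : sup zero (zero : Car G) = zero := rfl
@[simp] lemma sup_zero_lo (q : Option G.Y) : sup zero (lo q : Car G) = lo q := rfl
@[simp] lemma sup_zero_hi (q : Option G.V) : sup zero (hi q : Car G) = hi q := rfl
@[simp] lemma sup_zero_one : sup zero (one : Car G) = one := rfl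
@[simp] lemma sup_lo_zero (p : Option G.Y) : sup (lo p) (zero : Car G) = lo p := rfl
open Classical in
@[simp] lemma sup_lo_lo (p : Option G.Y) (q : Option G.Y) : sup (lo p) (lo q : Car G) = lo (if p = q then p else none) := rfl
@[simp] lemma sup_lo_hi (p : Option G.Y) (q : Option G.V) : sup (lo p) (hi q : Car G) = hi q := rfl
@[simp] lemma sup_lo_one (p : Option G.Y) : sup (lo p) (one : Car G) = one := rfl
@[simp] lemma sup_hi_zero (p : Option G.V) : sup (hi p) (zero : Car G) = hi p := rfl
@[simp] lemma sup_hi_lo (p : Option G.V) (q : Option G.Y) : sup (hi p) (lo q : Car G) = hi p := rfl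
open Classical in
@[simp] lemma sup_hi_hi (p : Option G.V) (q : Option G.V) : sup (hi p) (hi q : Car G) = hi (if p = q then p else none) := rfl
@[simp] lemma sup_hi_one (p : Option G.V) : sup (hi p) (one : Car G) = one := rfl
@[simp] lemma sup_one_zero : sup one (zero : Car G) = one := rfl
@[simp] lemma sup_one_lo (q : Option G.Y) : sup one (lo q : Car G) = one := rfl
@[simp] lemma sup_one_hi (q : Option G.V) : sup one (hi q : Car G) = one := rfl
@[simp] lemma sup_one_one : sup one (one : Car G) = one := rfl

open Classical in
noncomputable def inf : Car G → Car G → Car G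
  | zero, zero => zero
  | zero, lo _ => zero
  | zero, hi _ => zero
  | zero, one => zero
  | lo _, zero => zero
  | lo p, lo q => if p = q then lo p else if p = none then lo q else if q = none then lo p else zero
  | lo p, hi _ => lo p
  | lo p, one => lo p
  | hi _, zero => zero
  | hi _, lo q => lo q
  | hi p, hi q => if p = q then hi p else if p = none then hi q else if q = none then hi p else lo none
  | hi p, one => hi p
  | one, zero => zero
  | one, lo q => lo q
  | one, hi q => hi q
  | one, one => one

@[simp] lemma inf_zero_zero : inf zero (zero : Car G) = zero := rfl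
@[simp] lemma inf_zero_lo (q : Option G.Y) : inf zero (lo q : Car G) = zero := rfl
@[simp] lemma inf_zero_hi (q : Option G.V) : inf zero (hi q : Car G) = zero := rfl
@[simp] lemma inf_zero_one : inf zero (one : Car G) = zero := rfl
@[simp] lemma inf_lo_zero (p : Option G.Y) : inf (lo p) (zero : Car G) = zero := rfl
open Classical in
@[simp] lemma inf_lo_lo (p : Option G.Y) (q : Option G.Y) : inf (lo p) (lo q : Car G) = if p = q then lo p else if p = none then lo q else if q = none then lo p else zero := rfl
@[simp] lemma inf_lo_hi (p : Option G.Y) (q : Option G.V) : inf (lo p) (hi q : Car G) = lo p := rfl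
@[simp] lemma inf_lo_one (p : Option G.Y) : inf (lo p) (one : Car G) = lo p := rfl
@[simp] lemma inf_hi_zero (p : Option G.V) : inf (hi p) (zero : Car G) = zero := rfl
@[simp] lemma inf_hi_lo (p : Option G.V) (q : Option G.Y) : inf (hi p) (lo q : Car G) = lo q := rfl
open Classical in
@[simp] lemma inf_hi_hi (p : Option G.V) (q : Option G.V) : inf (hi p) (hi q : Car G) = if p = q then hi p else if p = none then hi q else if q = none then hi p else lo none := rfl
@[simp] lemma inf_hi_one (p : Option G.V) : inf (hi p) (one : Car G) = hi p := rfl
@[simp] lemma inf_one_zero : inf one (zero : Car G) = zero := rfl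
@[simp] lemma inf_one_lo (q : Option G.Y) : inf one (lo q : Car G) = lo q := rfl
@[simp] lemma inf_one_hi (q : Option G.V) : inf one (hi q : Car G) = hi q := rfl
@[simp] lemma inf_one_one : inf one (one : Car G) = one := rfl

noncomputable def mul : Car G → Car G → Car G
  | zero, zero => zero
  | zero, lo _ => zero
  | zero, hi _ => zero
  | zero, one => zero
  | lo _, zero => zero
  | lo _, lo _ => zero
  | lo _, hi _ => zero
  | lo p, one => lo p
  | hi _, zero => zero
  | hi _, lo _ => zero
  | hi p, hi q => lo (prod p q)
  | hi p, one => hi p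
  | one, zero => zero
  | one, lo q => lo q
  | one, hi q => hi q
  | one, one => one

@[simp] lemma mul_zero_zero : mul zero (zero : Car G) = zero := rfl
@[simp] lemma mul_zero_lo (q : Option G.Y) : mul zero (lo q : Car G) = zero := rfl
@[simp] lemma mul_zero_hi (q : Option G.V) : mul zero (hi q : Car G) = zero := rfl
@[simp] lemma mul_zero_one : mul zero (one : Car G) = zero := rfl
@[simp] lemma mul_lo_zero (p : Option G.Y) : mul (lo p) (zero : Car G) = zero := rfl
@[simp] lemma mul_lo_lo (p : Option G.Y) (q : Option G.Y) : mul (lo p) (lo q : Car G) = zero := rfl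
@[simp] lemma mul_lo_hi (p : Option G.Y) (q : Option G.V) : mul (lo p) (hi q : Car G) = zero := rfl
@[simp] lemma mul_lo_one (p : Option G.Y) : mul (lo p) (one : Car G) = lo p := rfl
@[simp] lemma mul_hi_zero (p : Option G.V) : mul (hi p) (zero : Car G) = zero := rfl
@[simp] lemma mul_hi_lo (p : Option G.V) (q : Option G.Y) : mul (hi p) (lo q : Car G) = zero := rfl
@[simp] lemma mul_hi_hi (p : Option G.V) (q : Option G.V) : mul (hi p) (hi q : Car G) = lo (prod p q) := rfl
@[simp] lemma mul_hi_one (p : Option G.V) : mul (hi p) (one : Car G) = hi p := rfl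
@[simp] lemma mul_one_zero : mul one (zero : Car G) = zero := rfl
@[simp] lemma mul_one_lo (q : Option G.Y) : mul one (lo q : Car G) = lo q := rfl
@[simp] lemma mul_one_hi (q : Option G.V) : mul one (hi q : Car G) = hi q := rfl
@[simp] lemma mul_one_one : mul one (one : Car G) = one := rfl

open Classical in
noncomputable def dv (p : Option G.V) (c : Option G.Y) : Car G :=
  if c = none then hi none
  else if h : ∃ w : G.V, prod p (some w) = c then hi (some h.choose) else lo none

open Classical in
noncomputable def res : Car G → Car G → Car G
  | zero, zero => one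
  | zero, lo _ => one
  | zero, hi _ => one
  | zero, one => one
  | lo _, zero => hi none
  | lo p, lo q => if p = q ∨ q = none then one else hi none
  | lo _, hi _ => one
  | lo _, one => one
  | hi _, zero => lo none
  | hi p, lo q => dv p q
  | hi p, hi q => if p = q ∨ q = none then one else hi none
  | hi _, one => one
  | one, zero => zero
  | one, lo q => lo q
  | one, hi q => hi q
  | one, one => one

@[simp] lemma res_zero_zero : res zero (zero : Car G) = one := rfl
@[simp] lemma res_zero_lo (q : Option G.Y) : res zero (lo q : Car G) = one := rfl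
@[simp] lemma res_zero_hi (q : Option G.V) : res zero (hi q : Car G) = one := rfl
@[simp] lemma res_zero_one : res zero (one : Car G) = one := rfl
@[simp] lemma res_lo_zero (p : Option G.Y) : res (lo p) (zero : Car G) = hi none := rfl
open Classical in
@[simp] lemma res_lo_lo (p : Option G.Y) (q : Option G.Y) : res (lo p) (lo q : Car G) = if p = q ∨ q = none then one else hi none := rfl
@[simp] lemma res_lo_hi (p : Option G.Y) (q : Option G.V) : res (lo p) (hi q : Car G) = one := rfl
@[simp] lemma res_lo_one (p : Option G.Y) : res (lo p) (one : Car G) = one := rfl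
@[simp] lemma res_hi_zero (p : Option G.V) : res (hi p) (zero : Car G) = lo none := rfl
@[simp] lemma res_hi_lo (p : Option G.V) (q : Option G.Y) : res (hi p) (lo q : Car G) = dv p q := rfl
open Classical in
@[simp] lemma res_hi_hi (p : Option G.V) (q : Option G.V) : res (hi p) (hi q : Car G) = if p = q ∨ q = none then one else hi none := rfl
@[simp] lemma res_hi_one (p : Option G.V) : res (hi p) (one : Car G) = one := rfl
@[simp] lemma res_one_zero : res one (zero : Car G) = zero := rfl
@[simp] lemma res_one_lo (q : Option G.Y) : res one (lo q : Car G) = lo q := rfl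
@[simp] lemma res_one_hi (q : Option G.V) : res one (hi q : Car G) = hi q := rfl
@[simp] lemma res_one_one : res one (one : Car G) = one := rfl

lemma le_trans' {a b c : Car G} (h1 : le a b) (h2 : le b c) : le a c := by
  cases a <;> cases b <;> cases c <;> simp_all <;>
  · rcases h1 with rfl | rfl
    · exact h2
    · rcases h2 with h | h
      · exact Or.inr h.symm
      · exact Or.inr h

lemma le_antisymm' {a b : Car G} (h1 : le a b) (h2 : le b a) : a = b := by
  cases a <;> cases b <;> simp_all <;>
  · rcases h1 with rfl | rfl
    · rfl
    · rcases h2 with h | h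
      · exact h.symm
      · exact h

instance : PartialOrder (Car G) where
  le := le
  le_refl a := by show le a a; cases a <;> simp
  le_trans a b c h1 h2 := le_trans' h1 h2
  le_antisymm a b h1 h2 := le_antisymm' h1 h2

lemma le_def (a b : Car G) : a ≤ b ↔ le a b := Iff.rfl

lemma flat_left {X : Type} (p q : Option X) [Decidable (p = q)] :
    p = (if p = q then p else none) ∨ (if p = q then p else none) = none := by
  split_ifs <;> simp

lemma flat_right {X : Type} (p q : Option X) [Decidable (p = q)] :
    q = (if p = q then p else none) ∨ (if p = q then p else none) = none := by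
  split_ifs with h <;> simp [h]

lemma flat_lub {X : Type} (p q r : Option X) {_ : Decidable (p = q)} (h1 : p = r ∨ r = none)
    (h2 : q = r ∨ r = none) : (if p = q then p else none) = r ∨ r = none := by
  rcases h1 with rfl | h1
  · rcases h2 with rfl | h2
    · simp
    · exact Or.inr h2
  · exact Or.inr h1

noncomputable instance : Lattice (Car G) where
  sup := sup
  inf := inf
  le_sup_left a b := by
    show le a (sup a b)
    cases a <;> cases b <;> simp only [le_zero_zero, le_zero_lo, le_zero_hi, le_zero_one, le_lo_hi,
      le_lo_one, le_hi_one, le_one_one, sup_zero_zero, sup_zero_lo, sup_zero_hi, sup_zero_one,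
      sup_lo_zero, sup_lo_lo, sup_lo_hi, sup_lo_one, sup_hi_zero, sup_hi_lo, sup_hi_hi, sup_hi_one,
      sup_one_zero, sup_one_lo, sup_one_hi, sup_one_one, le_lo_lo, le_hi_hi, true_or, flat_left]
  le_sup_right a b := by
    show le b (sup a b)
    cases a <;> cases b <;> simp only [le_zero_zero, le_zero_lo, le_zero_hi, le_zero_one, le_lo_hi,
      le_lo_one, le_hi_one, le_one_one, sup_zero_zero, sup_zero_lo, sup_zero_hi, sup_zero_one,
      sup_lo_zero, sup_lo_lo, sup_lo_hi, sup_lo_one, sup_hi_zero, sup_hi_lo, sup_hi_hi, sup_hi_one,
      sup_one_zero, sup_one_lo, sup_one_hi, sup_one_one, le_lo_lo, le_hi_hi, true_or, flat_right]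
  sup_le a b c h1 h2 := by
    have h1 : le a c := h1
    have h2 : le b c := h2
    show le (sup a b) c
    cases a <;> cases b <;> cases c <;>
      first
      | trivial
      | exact h1
      | exact h2
      | (rw [sup_hi_hi, le_hi_hi]; exact flat_lub _ _ _ h1 h2)
      | (rw [sup_lo_lo, le_lo_lo]; exact flat_lub _ _ _ h1 h2)
      | (simp only [sup_lo_lo, le_lo_lo]; exact flat_lub _ _ _ h1 h2)
      | exact h1.elim
      | exact h2.elim
  inf_le_left a b := by
    show le (inf a b) a
    cases a <;> cases b <;> simp <;> split_ifs <;> simp_all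
  inf_le_right a b := by
    show le (inf a b) b
    cases a <;> cases b <;> simp <;> split_ifs <;> simp_all
  le_inf a b c h1 h2 := by
    have h1 : le a b := h1
    have h2 : le a c := h2
    show le a (inf b c)
    cases a <;> cases b <;> cases c <;>
      first
      | trivial
      | exact h1
      | exact h2
      | exact h1.elim
      | exact h2.elim
      | (simp only [le_lo_lo, le_hi_hi, inf_lo_lo, inf_hi_hi] at *
         split_ifs <;> simp_all)

lemma sup_def (a b : Car G) : a ⊔ b = sup a b := rfl
lemma inf_def (a b : Car G) : a ⊓ b = inf a b := rfl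

noncomputable instance : CommMonoid (Car G) where
  mul := mul
  one := one
  mul_assoc a b c := by
    show mul (mul a b) c = mul a (mul b c)
    cases a <;> cases b <;> cases c <;> simp
  one_mul a := by
    show mul one a = a
    cases a <;> simp
  mul_one a := by
    show mul a one = a
    cases a <;> simp
  mul_comm a b := by
    show mul a b = mul b a
    cases a <;> cases b <;> simp [prod_comm]

lemma mul_def (a b : Car G) : a * b = mul a b := rfl
lemma one_def : (1 : Car G) = one := rfl

lemma dv_none (p : Option G.V) : dv p (none : Option G.Y) = hi none := by simp [dv]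

lemma dv_pos {v w : G.V} {c : G.Y} (h : G.F v w c) : dv (some v) (some c) = hi (some w) := by
  have h' : ∃ w : G.V, prod (some v) (some w) = some c := ⟨w, prod_some h⟩
  rw [dv, if_neg (by simp), dif_pos h']
  have := h'.choose_spec
  obtain ⟨v', w', e1, e2, hF⟩ := prod_eq_some.mp this
  simp only [Option.some.injEq] at e1 e2
  subst e1
  have e3 := G.inj hF h
  rw [← e3, ← e2]

lemma dv_neg {p : Option G.V} {c : G.Y} (h : ∀ w, prod p (some w) ≠ some c) :
    dv p (some c) = lo none := by
  have h' : ¬ ∃ w : G.V, prod p (some w) = some c := by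
    rintro ⟨w, hw⟩; exact h w hw
  rw [dv, if_neg (by simp), dif_neg h']

lemma dv_spec (p q : Option G.V) (c : Option G.Y) :
    le (hi q) (dv p c) ↔ (prod p q = c ∨ c = none) := by
  rcases c with _ | c
  · simp [dv_none]
  · by_cases h : ∃ w : G.V, prod p (some w) = some c
    · obtain ⟨w, hw⟩ := h
      obtain ⟨v, w', rfl, e2, hF⟩ := prod_eq_some.mp hw
      simp only [Option.some.injEq] at e2
      subst e2
      rw [dv_pos hF]
      simp only [le_hi_hi, reduceCtorEq, or_false]
      constructor
      · rintro rfl; exact hw
      · intro h
        obtain ⟨v', w', e1, rfl, hF'⟩ := prod_eq_some.mp h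
        simp only [Option.some.injEq] at e1
        subst e1
        rw [G.inj hF' hF]
    · push Not at h
      rw [dv_neg h]
      simp only [le_hi_lo, reduceCtorEq, or_false, false_iff]
      intro h'
      obtain ⟨v', w', rfl, rfl, hF'⟩ := prod_eq_some.mp h'
      exact h w' h'

lemma dv_ne_one (p : Option G.V) (c : Option G.Y) : ¬ le one (dv p c) := by
  unfold dv; split_ifs <;> simp

lemma dv_lo (p : Option G.V) (c : Option G.Y) (q : Option G.Y) : le (lo q) (dv p c) := by
  unfold dv; split_ifs <;> simp

lemma dv_zero (p : Option G.V) (c : Option G.Y) : le zero (dv p c) := by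
  unfold dv; split_ifs <;> simp

noncomputable instance : FLewAlgebra (Car G) where
  res := res
  zero := zero
  le_one a := by show le a one; cases a <;> simp
  zero_le a := by show le zero a; cases a <;> simp
  residuation a b c := by
    show le (mul a b) c ↔ le b (res a c)
    cases a <;> cases b <;> cases c <;>
      simp only [mul_zero_zero, mul_zero_lo, mul_zero_hi, mul_zero_one, mul_lo_zero, mul_lo_lo,
        mul_lo_hi, mul_lo_one, mul_hi_zero, mul_hi_lo, mul_hi_hi, mul_hi_one, mul_one_zero,
        mul_one_lo, mul_one_hi, mul_one_one, res_zero_zero, res_zero_lo, res_zero_hi, res_zero_one,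
        res_lo_zero, res_lo_lo, res_lo_hi, res_lo_one, res_hi_zero, res_hi_lo, res_hi_hi,
        res_hi_one, res_one_zero, res_one_lo, res_one_hi, res_one_one, dv_spec, dv_ne_one, dv_lo,
        dv_zero, le_zero_zero, le_zero_lo, le_zero_hi, le_zero_one, le_lo_zero, le_lo_lo, le_lo_hi,
        le_lo_one, le_hi_zero, le_hi_lo, le_hi_hi, le_hi_one, le_one_zero, le_one_lo, le_one_hi,
        le_one_one, or_true] <;>
      split_ifs <;> simp_all

lemma res_def (a b : Car G) : FLewAlgebra.res a b = res a b := rfl
lemma zero_def : (FLewAlgebra.zero : Car G) = zero := rfl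

end Car

end Pool.Agent.Helper79.Dip
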