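import Pool.Agent.Helper79.DipRep2

set_option autoImplicit false

namespace Pool.Agent.Helper79.Dip

/-- closed embeddings of coloured structures -/
structure Emb (G D : Gr) where
  V : G.V → D.V
  Y : G.Y → D.Y
  injV : Function.Injective V
  injY : Function.Injective Y
  F_vv : ∀ {v w s}, D.F (V v) (V w) s → ∃ c, s = Y c ∧ G.F v w c
  F_vy : ∀ {v r c}, D.F (V v) r (Y c) → ∃ w, r = V w ∧ G.F v w c
  F_map : ∀ {v w c}, G.F v w c → D.F (V v) (V w) (Y c)

namespace Emb

variable {G D : Gr} (m : Emb G D)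

def car : Car G → Car D
  | .one => .one
  | .hi p => .hi (p.map m.V)
  | .lo p => .lo (p.map m.Y)
  | .zero => .zero

lemma map_inj {X Z : Type} {g : X → Z} (hg : Function.Injective g) (p q : Option X) :
    p.map g = q.map g ↔ p = q := (Option.map_injective hg).eq_iff

lemma map_none {X Z : Type} {g : X → Z} (p : Option X) : p.map g = none ↔ p = none := by
  cases p <;> simp

lemma car_inj : Function.Injective m.car := by
  intro a b hab
  rcases a with _ | p | p | _ <;> rcases b with _ | q | q | _ <;> simp_all [car]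
  · exact Option.map_injective m.injV hab
  · exact Option.map_injective m.injY hab

lemma prod_map (p q : Option G.V) :
    Car.prod (p.map m.V) (q.map m.V) = (Car.prod p q).map m.Y := by
  rcases h : Car.prod p q with _ | c
  · simp only [Option.map_none]
    rw [Option.eq_none_iff_forall_not_mem]
    intro s hs
    obtain ⟨x, y, e1, e2, hF⟩ := Car.prod_eq_some.mp hs
    rcases p with _ | v
    · simp at e1
    rcases q with _ | w
    · simp at e2
    simp only [Option.map_some, Option.some.injEq] at e1 e2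
    subst e1 e2
    obtain ⟨c, -, hc⟩ := m.F_vv hF
    rw [Car.prod_some hc] at h
    simp at h
  · obtain ⟨v, w, rfl, rfl, hF⟩ := Car.prod_eq_some.mp h
    simp only [Option.map_some]
    exact Car.prod_some (m.F_map hF)

lemma dv_map (p : Option G.V) (c : Option G.Y) :
    Car.dv (p.map m.V) (c.map m.Y) = m.car (Car.dv p c) := by
  rcases c with _ | c
  · simp [Car.dv_none, car]
  · by_cases h : ∃ w, Car.prod p (some w) = some c
    · obtain ⟨w, hw⟩ := h
      obtain ⟨v, w', rfl, e, hF⟩ := Car.prod_eq_some.mp hw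
      simp only [Option.some.injEq] at e
      subst e
      rw [Car.dv_pos hF]
      simp only [Option.map_some, car]
      exact Car.dv_pos (m.F_map hF)
    · push Not at h
      rw [Car.dv_neg h]
      simp only [Option.map_some, car, Option.map_none]
      apply Car.dv_neg
      intro r hr
      obtain ⟨x, y, e1, e2, hF⟩ := Car.prod_eq_some.mp hr
      rcases p with _ | v
      · simp at e1
      simp only [Option.map_some, Option.some.injEq] at e1 e2
      subst e1 e2
      obtain ⟨w, -, hw⟩ := m.F_vy hF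
      exact h w (Car.prod_some hw)

lemma mapV_ne {p q : Option G.V} (h : p ≠ q) : p.map m.V ≠ q.map m.V :=
  fun e => h ((map_inj m.injV p q).mp e)

lemma mapY_ne {p q : Option G.Y} (h : p ≠ q) : p.map m.Y ≠ q.map m.Y :=
  fun e => h ((map_inj m.injY p q).mp e)

lemma car_sup (a b : Car G) : m.car (Car.sup a b) = Car.sup (m.car a) (m.car b) := by
  rcases a with _ | p | p | _ <;> rcases b with _ | q | q | _ <;> try rfl
  · simp only [car, Car.sup_hi_hi]
    by_cases h : p = q
    · subst h; simp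
    · have h' := m.mapV_ne h
      rw [if_neg h, if_neg h']; rfl
  · simp only [car, Car.sup_lo_lo]
    by_cases h : p = q
    · subst h; simp
    · have h' := m.mapY_ne h
      rw [if_neg h, if_neg h']; rfl

lemma car_inf (a b : Car G) : m.car (Car.inf a b) = Car.inf (m.car a) (m.car b) := by
  rcases a with _ | p | p | _ <;> rcases b with _ | q | q | _ <;> try rfl
  · rw [Car.inf_hi_hi]
    show _ = Car.inf (Car.hi (p.map m.V)) (Car.hi (q.map m.V))
    rw [Car.inf_hi_hi]
    by_cases h1 : p = q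
    · subst h1; rw [if_pos rfl, if_pos rfl]; rfl
    · have h1' := m.mapV_ne h1
      rw [if_neg h1, if_neg h1']
      by_cases h2 : p = none
      · rw [if_pos h2, if_pos ((map_none p).mpr h2)]; rfl
      · rw [if_neg h2, if_neg (fun e => h2 ((map_none p).mp e))]
        by_cases h3 : q = none
        · rw [if_pos h3, if_pos ((map_none q).mpr h3)]; rfl
        · rw [if_neg h3, if_neg (fun e => h3 ((map_none q).mp e))]; rfl
  · rw [Car.inf_lo_lo]
    show _ = Car.inf (Car.lo (p.map m.Y)) (Car.lo (q.map m.Y))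
    rw [Car.inf_lo_lo]
    by_cases h1 : p = q
    · subst h1; rw [if_pos rfl, if_pos rfl]; rfl
    · have h1' := m.mapY_ne h1
      rw [if_neg h1, if_neg h1']
      by_cases h2 : p = none
      · rw [if_pos h2, if_pos ((map_none p).mpr h2)]; rfl
      · rw [if_neg h2, if_neg (fun e => h2 ((map_none p).mp e))]
        by_cases h3 : q = none
        · rw [if_pos h3, if_pos ((map_none q).mpr h3)]; rfl
        · rw [if_neg h3, if_neg (fun e => h3 ((map_none q).mp e))]; rfl

lemma car_mul (a b : Car G) : m.car (Car.mul a b) = Car.mul (m.car a) (m.car b) := by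
  rcases a with _ | p | p | _ <;> rcases b with _ | q | q | _ <;> try rfl
  simp only [car, Car.mul_hi_hi, prod_map]

lemma car_res (a b : Car G) : m.car (Car.res a b) = Car.res (m.car a) (m.car b) := by
  rcases a with _ | p | p | _ <;> rcases b with _ | q | q | _ <;> try rfl
  · rw [Car.res_hi_hi]
    show _ = Car.res (Car.hi (p.map m.V)) (Car.hi (q.map m.V))
    rw [Car.res_hi_hi]
    by_cases h1 : p = q ∨ q = none
    · have h1' : p.map m.V = q.map m.V ∨ q.map m.V = none := by
        rcases h1 with rfl | h1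
        · exact Or.inl rfl
        · exact Or.inr ((map_none q).mpr h1)
      rw [if_pos h1, if_pos h1']; rfl
    · have h1' : ¬ (p.map m.V = q.map m.V ∨ q.map m.V = none) := by
        rintro (e | e)
        · exact h1 (Or.inl ((map_inj m.injV p q).mp e))
        · exact h1 (Or.inr ((map_none q).mp e))
      rw [if_neg h1, if_neg h1']; rfl
  · show m.car (Car.dv p q) = Car.dv (p.map m.V) (q.map m.Y)
    rw [dv_map]
  · rw [Car.res_lo_lo]
    show _ = Car.res (Car.lo (p.map m.Y)) (Car.lo (q.map m.Y))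
    rw [Car.res_lo_lo]
    by_cases h1 : p = q ∨ q = none
    · have h1' : p.map m.Y = q.map m.Y ∨ q.map m.Y = none := by
        rcases h1 with rfl | h1
        · exact Or.inl rfl
        · exact Or.inr ((map_none q).mpr h1)
      rw [if_pos h1, if_pos h1']; rfl
    · have h1' : ¬ (p.map m.Y = q.map m.Y ∨ q.map m.Y = none) := by
        rintro (e | e)
        · exact h1 (Or.inl ((map_inj m.injY p q).mp e))
        · exact h1 (Or.inr ((map_none q).mp e))
      rw [if_neg h1, if_neg h1']; rfl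

lemma eval_map (v : ℕ → Car G) (a : Fm) : a.eval (fun n => m.car (v n)) = m.car (a.eval v) := by
  induction a with
  | var n => rfl
  | inf a b iha ihb =>
    show a.eval _ ⊓ b.eval _ = m.car (a.eval v ⊓ b.eval v)
    rw [iha, ihb]; exact (m.car_inf _ _).symm
  | sup a b iha ihb =>
    show a.eval _ ⊔ b.eval _ = m.car (a.eval v ⊔ b.eval v)
    rw [iha, ihb]; exact (m.car_sup _ _).symm
  | mul a b iha ihb =>
    show a.eval _ * b.eval _ = m.car (a.eval v * b.eval v)
    rw [iha, ihb]; exact (m.car_mul _ _).symm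
  | imp a b iha ihb =>
    show FLewAlgebra.res (a.eval _) (b.eval _) = m.car (FLewAlgebra.res (a.eval v) (b.eval v))
    rw [iha, ihb]; exact (m.car_res _ _).symm
  | e => rfl
  | f => rfl

end Emb

/-- a pushout of sets along a partial bijection -/
structure PB {A B : Type} (R : A → B → Prop) : Prop where
  l : ∀ {a b b'}, R a b → R a b' → b = b'
  r : ∀ {a a' b}, R a b → R a' b → a = a'

def PB.rel {A B : Type} (R : A → B → Prop) : A ⊕ B → A ⊕ B → Prop
  | .inl a, .inl a' => a = a'
  | .inl a, .inr b => R a b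
  | .inr b, .inl a => R a b
  | .inr b, .inr b' => b = b'

def PB.std {A B : Type} {R : A → B → Prop} (h : PB R) : Setoid (A ⊕ B) :=
  ⟨PB.rel R, by
    constructor
    · rintro (a | b) <;> simp [PB.rel]
    · rintro (a | b) (a' | b') <;> simp [PB.rel, eq_comm]
    · rintro (a | b) (a' | b') (a'' | b'') h1 h2 <;> simp only [PB.rel] at *
      · exact h1.trans h2
      · subst h1; exact h2
      · exact h.r h1 h2
      · subst h2; exact h1
      · subst h2; exact h1
      · exact h.l h1 h2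
      · subst h1; exact h2
      · exact h1.trans h2⟩

def PB.Q {A B : Type} {R : A → B → Prop} (h : PB R) : Type := Quotient h.std

def PB.inl {A B : Type} {R : A → B → Prop} (h : PB R) (a : A) : h.Q :=
  Quotient.mk h.std (Sum.inl a)
def PB.inr {A B : Type} {R : A → B → Prop} (h : PB R) (b : B) : h.Q :=
  Quotient.mk h.std (Sum.inr b)

section
variable {A B : Type} {R : A → B → Prop} (h : PB R)

lemma PB.inl_inl {a a' : A} : h.inl a = h.inl a' ↔ a = a' := Quotient.eq
lemma PB.inr_inr {b b' : B} : h.inr b = h.inr b' ↔ b = b' := Quotient.eq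
lemma PB.inl_inr {a : A} {b : B} : h.inl a = h.inr b ↔ R a b := Quotient.eq
lemma PB.inr_inl {a : A} {b : B} : h.inr b = h.inl a ↔ R a b := Quotient.eq

end

/-- gluing data -/
structure Glue (G1 G2 : Gr) where
  RV : G1.V → G2.V → Prop
  RY : G1.Y → G2.Y → Prop
  hV : PB RV
  hY : PB RY
  c2 : ∀ {v w v' w' c}, RV v w → RV v' w' → G1.F v v' c → ∃ d, RY c d ∧ G2.F w w' d
  c2' : ∀ {v w v' w' d}, RV v w → RV v' w' → G2.F w w' d → ∃ c, RY c d ∧ G1.F v v' c
  c3 : ∀ {v w c d v'}, RV v w → RY c d → G1.F v v' c → ∃ w', RV v' w' ∧ G2.F w w' d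
  c3' : ∀ {v w c d w'}, RV v w → RY c d → G2.F w w' d → ∃ v', RV v' w' ∧ G1.F v v' c

namespace Glue

variable {G1 G2 : Gr} (g : Glue G1 G2)

/-- the amalgam -/
def D : Gr where
  V := g.hV.Q
  Y := g.hY.Q
  F q r s := (∃ v v' c, q = g.hV.inl v ∧ r = g.hV.inl v' ∧ s = g.hY.inl c ∧ G1.F v v' c) ∨
    (∃ w w' d, q = g.hV.inr w ∧ r = g.hV.inr w' ∧ s = g.hY.inr d ∧ G2.F w w' d)
  symm := by
    rintro q r s (⟨v, v', c, h1, h2, h3, h4⟩ | ⟨v, v', c, h1, h2, h3, h4⟩)
    · exact Or.inl ⟨v', v, c, h2, h1, h3, G1.symm h4⟩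
    · exact Or.inr ⟨v', v, c, h2, h1, h3, G2.symm h4⟩
  func := by
    rintro q r s t (⟨v, v', c, rfl, rfl, rfl, h4⟩ | ⟨w, w', d, rfl, rfl, rfl, h4⟩)
      (⟨x, x', c', h1, h2, rfl, h5⟩ | ⟨y, y', d', h1, h2, rfl, h5⟩)
    · rw [PB.inl_inl] at h1 h2
      subst h1 h2
      rw [G1.func h4 h5]
    · rw [PB.inl_inr] at h1 h2
      obtain ⟨d, hd, hF⟩ := g.c2 h1 h2 h4
      rw [PB.inl_inr, ← G2.func hF h5]
      exact hd
    · rw [PB.inr_inl] at h1 h2
      obtain ⟨d2, hd, hF⟩ := g.c2 h1 h2 h5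
      rw [PB.inr_inl, G2.func h4 hF]
      exact hd
    · rw [PB.inr_inr] at h1 h2
      subst h1 h2
      rw [G2.func h4 h5]
  inj := by
    rintro q r r' s (⟨v, v', c, rfl, rfl, rfl, h4⟩ | ⟨w, w', d, rfl, rfl, rfl, h4⟩)
      (⟨x, x', c', h1, rfl, h2, h5⟩ | ⟨y, y', d', h1, rfl, h2, h5⟩)
    · rw [PB.inl_inl] at h1 h2
      subst h1 h2
      rw [G1.inj h4 h5]
    · rw [PB.inl_inr] at h1 h2
      obtain ⟨d, hd, hF⟩ := g.c3 h1 h2 h4
      rw [PB.inl_inr, ← G2.inj hF h5]
      exact hd
    · rw [PB.inr_inl] at h1 h2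
      obtain ⟨d2, hd, hF⟩ := g.c3 h1 h2 h5
      rw [PB.inr_inl, G2.inj h4 hF]
      exact hd
    · rw [PB.inr_inr] at h1 h2
      subst h1 h2
      rw [G2.inj h4 h5]

def e1 : Emb G1 g.D where
  V := g.hV.inl
  Y := g.hY.inl
  injV := fun _ _ h => (PB.inl_inl _).mp h
  injY := fun _ _ h => (PB.inl_inl _).mp h
  F_vv := by
    rintro v w s (⟨x, x', c, h1, h2, rfl, h4⟩ | ⟨y, y', d, h1, h2, rfl, h4⟩)
    · rw [PB.inl_inl] at h1 h2
      subst h1 h2
      exact ⟨c, rfl, h4⟩
    · rw [PB.inl_inr] at h1 h2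
      obtain ⟨c, hc, hF⟩ := g.c2' h1 h2 h4
      exact ⟨c, ((PB.inr_inl _).mpr hc), hF⟩
  F_vy := by
    rintro v r c (⟨x, x', c', h1, rfl, h3, h4⟩ | ⟨y, y', d, h1, rfl, h3, h4⟩)
    · rw [PB.inl_inl] at h1 h3
      subst h1 h3
      exact ⟨x', rfl, h4⟩
    · rw [PB.inl_inr] at h1 h3
      obtain ⟨v', hv', hF⟩ := g.c3' h1 h3 h4
      exact ⟨v', ((PB.inr_inl _).mpr hv'), hF⟩
  F_map := fun h => Or.inl ⟨_, _, _, rfl, rfl, rfl, h⟩

def e2 : Emb G2 g.D where
  V := g.hV.inr
  Y := g.hY.inr
  injV := fun _ _ h => (PB.inr_inr _).mp h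
  injY := fun _ _ h => (PB.inr_inr _).mp h
  F_vv := by
    rintro v w s (⟨x, x', c, h1, h2, rfl, h4⟩ | ⟨y, y', d, h1, h2, rfl, h4⟩)
    · rw [PB.inr_inl] at h1 h2
      obtain ⟨c, hc, hF⟩ := g.c2 h1 h2 h4
      exact ⟨c, ((PB.inl_inr _).mpr hc), hF⟩
    · rw [PB.inr_inr] at h1 h2
      subst h1 h2
      exact ⟨d, rfl, h4⟩
  F_vy := by
    rintro v r c (⟨x, x', c', h1, rfl, h3, h4⟩ | ⟨y, y', d, h1, rfl, h3, h4⟩)
    · rw [PB.inr_inl] at h1 h3
      obtain ⟨v', hv', hF⟩ := g.c3 h1 h3 h4
      exact ⟨v', ((PB.inl_inr _).mpr hv'), hF⟩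
    · rw [PB.inr_inr] at h1 h3
      subst h1 h3
      exact ⟨y', rfl, h4⟩
  F_map := fun h => Or.inr ⟨_, _, _, rfl, rfl, rfl, h⟩

lemma has_of_range {G D : Gr} (m : Emb G D) {p : ℕ} (i : ZMod p → D.V) (k : ZMod p → D.Y)
    (hi : Function.Injective i) (hk : Function.Injective k)
    (hF : ∀ x y, D.F (i x) (i y) (k (x + y))) (hr : ∀ x, ∃ v, i x = m.V v) : G.Has p := by
  choose v hv using hr
  have hc : ∀ x, ∃ c, k x = m.Y c := by
    intro x
    have := hF 0 x
    rw [hv, hv] at this
    obtain ⟨c, hc, -⟩ := m.F_vv this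
    rw [zero_add] at hc
    exact ⟨c, hc⟩
  choose c hc using hc
  refine ⟨v, c, ?_, ?_, ?_⟩
  · intro x y hxy
    apply hi
    rw [hv, hv, hxy]
  · intro x y hxy
    apply hk
    rw [hc, hc, hxy]
  · intro x y
    have := hF x y
    rw [hv, hv] at this
    obtain ⟨c', h1, h2⟩ := m.F_vv this
    rw [hc] at h1
    rw [m.injY h1]
    exact h2

lemma good {S : Set Nat.Primes} (h1 : Good S G1) (h2 : Good S G2) : Good S g.D := by
  rintro p hp ⟨i, k, hi, hk, hF⟩
  by_cases hall : ∀ x, ∃ v, i x = g.e1.V v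
  · exact h1 p hp (has_of_range g.e1 i k hi hk hF hall)
  · push Not at hall
    obtain ⟨x, hx⟩ := hall
    have hall2 : ∀ y, ∃ v, i y = g.e2.V v := by
      intro y
      rcases hF x y with ⟨v, v', c, e1, e2, e3, e4⟩ | ⟨v, v', c, e1, e2, e3, e4⟩
      · exact absurd e1 (hx v)
      · exact ⟨v', e2⟩
    exact h2 p hp (has_of_range g.e2 i k hi hk hF hall2)

end Glue

/-- valuations in two structures agreeing on the formulas over the variables in `Z` can be glued -/
theorem amalg {S : Set Nat.Primes} {G1 G2 : Gr} (h1 : Good S G1) (h2 : Good S G2)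
    (v1 : ℕ → Car G1) (v2 : ℕ → Car G2) (Z : Set ℕ)
    (hZ : ∀ a : Fm, a.vars ⊆ Z → (a.eval v1 = 1 ↔ a.eval v2 = 1)) :
    ∃ (D : Gr) (_ : Good S D) (m1 : Emb G1 D) (m2 : Emb G2 D),
      ∀ n ∈ Z, m1.car (v1 n) = m2.car (v2 n) := by
  have hle : ∀ a b : Fm, a.vars ⊆ Z → b.vars ⊆ Z →
      (a.eval v1 ≤ b.eval v1 ↔ a.eval v2 ≤ b.eval v2) := by
    intro a b ha hb
    rw [← eval_imp_one, ← eval_imp_one]
    exact hZ _ (Set.union_subset ha hb)
  have heq : ∀ a b : Fm, a.vars ⊆ Z → b.vars ⊆ Z →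
      (a.eval v1 = b.eval v1 ↔ a.eval v2 = b.eval v2) := by
    intro a b ha hb
    rw [le_antisymm_iff, le_antisymm_iff, hle a b ha hb, hle b a hb ha]
  have hkd : ∀ a : Fm, a.vars ⊆ Z → (a.eval v1).kd = (a.eval v2).kd := by
    intro a ha
    have k1 : (a.eval v1 = Car.one ↔ a.eval v2 = Car.one) :=
      heq a .e ha (Set.empty_subset _)
    have k2 : (a.eval v1 = Car.zero ↔ a.eval v2 = Car.zero) :=
      heq a .f ha (Set.empty_subset _)
    have k3 : (Car.mul (a.eval v1) (a.eval v1) = Car.zero ↔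
        Car.mul (a.eval v2) (a.eval v2) = Car.zero) :=
      heq (.mul a a) .f (Set.union_subset ha ha) (Set.empty_subset _)
    have k4 : (Car.res (Car.res (a.eval v1) Car.zero) Car.zero = a.eval v1 ↔
        Car.res (Car.res (a.eval v2) Car.zero) Car.zero = a.eval v2) :=
      heq a.neg.neg a (by rw [Fm.vars_neg, Fm.vars_neg]; exact ha) ha
    rw [Car.kd_spec, Car.kd_spec, k1, k2, k3, k4]
  -- the gluing relations
  let g : Glue G1 G2 :=
    { RV := fun v w => ∃ a : Fm, a.vars ⊆ Z ∧ a.eval v1 = .hi (some v) ∧ a.eval v2 = .hi (some w)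
      RY := fun c d => ∃ a : Fm, a.vars ⊆ Z ∧ a.eval v1 = .lo (some c) ∧ a.eval v2 = .lo (some d)
      hV := by
        constructor
        · rintro v w w' ⟨a, ha, ha1, ha2⟩ ⟨b, hb, hb1, hb2⟩
          have := (heq a b ha hb).mp (ha1.trans hb1.symm)
          rw [ha2, hb2] at this
          simpa using this
        · rintro v v' w ⟨a, ha, ha1, ha2⟩ ⟨b, hb, hb1, hb2⟩
          have := (heq a b ha hb).mpr (ha2.trans hb2.symm)
          rw [ha1, hb1] at this
          simpa using this
      hY := by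
        constructor
        · rintro v w w' ⟨a, ha, ha1, ha2⟩ ⟨b, hb, hb1, hb2⟩
          have := (heq a b ha hb).mp (ha1.trans hb1.symm)
          rw [ha2, hb2] at this
          simpa using this
        · rintro v v' w ⟨a, ha, ha1, ha2⟩ ⟨b, hb, hb1, hb2⟩
          have := (heq a b ha hb).mpr (ha2.trans hb2.symm)
          rw [ha1, hb1] at this
          simpa using this
      c2 := by
        rintro v w v' w' c ⟨a, ha, ha1, ha2⟩ ⟨b, hb, hb1, hb2⟩ hF
        have hab : (Fm.mul a b).vars ⊆ Z := Set.union_subset ha hb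
        have e1 : (Fm.mul a b).eval v1 = .lo (some c) := by
          show a.eval v1 * b.eval v1 = _
          rw [ha1, hb1, Car.mul_def, Car.mul_hi_hi, Car.prod_some hF]
        have e2 : (Fm.mul a b).eval v2 = .lo (Car.prod (some w) (some w')) := by
          show a.eval v2 * b.eval v2 = _
          rw [ha2, hb2, Car.mul_def, Car.mul_hi_hi]
        have hk := hkd _ hab
        rw [e1, e2] at hk
        obtain ⟨d, hd⟩ := Car.of_kd_y hk
        simp only [Car.lo.injEq] at hd
        rw [hd] at e2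
        obtain ⟨x, y, f1, f2, hF2⟩ := Car.prod_eq_some.mp hd
        simp only [Option.some.injEq] at f1 f2
        subst f1 f2
        exact ⟨d, ⟨_, hab, e1, e2⟩, hF2⟩
      c2' := by
        rintro v w v' w' c ⟨a, ha, ha1, ha2⟩ ⟨b, hb, hb1, hb2⟩ hF
        have hab : (Fm.mul a b).vars ⊆ Z := Set.union_subset ha hb
        have e1 : (Fm.mul a b).eval v2 = .lo (some c) := by
          show a.eval v2 * b.eval v2 = _
          rw [ha2, hb2, Car.mul_def, Car.mul_hi_hi, Car.prod_some hF]
        have e2 : (Fm.mul a b).eval v1 = .lo (Car.prod (some v) (some v')) := by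
          show a.eval v1 * b.eval v1 = _
          rw [ha1, hb1, Car.mul_def, Car.mul_hi_hi]
        have hk := hkd _ hab
        rw [e1, e2] at hk
        obtain ⟨d, hd⟩ := Car.of_kd_y hk.symm
        simp only [Car.lo.injEq] at hd
        rw [hd] at e2
        obtain ⟨x, y, f1, f2, hF2⟩ := Car.prod_eq_some.mp hd
        simp only [Option.some.injEq] at f1 f2
        subst f1 f2
        exact ⟨d, ⟨_, hab, e2, e1⟩, hF2⟩
      c3 := by
        rintro v w c d v' ⟨a, ha, ha1, ha2⟩ ⟨b, hb, hb1, hb2⟩ hF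
        have hab : (Fm.imp a b).vars ⊆ Z := Set.union_subset ha hb
        have e1 : (Fm.imp a b).eval v1 = .hi (some v') := by
          show FLewAlgebra.res (a.eval v1) (b.eval v1) = _
          rw [ha1, hb1, Car.res_def, Car.res_hi_lo, Car.dv_pos hF]
        have hk := hkd _ hab
        rw [e1] at hk
        obtain ⟨w', hw'⟩ := Car.of_kd_x hk
        refine ⟨w', ⟨_, hab, e1, hw'⟩, ?_⟩
        have e3 : (Fm.mul a (.imp a b)).eval v1 = b.eval v1 := by
          show a.eval v1 * (Fm.imp a b).eval v1 = _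
          rw [e1, ha1, hb1, Car.mul_def, Car.mul_hi_hi, Car.prod_some hF]
        have e4 := (heq (.mul a (.imp a b)) b (Set.union_subset ha hab) hb).mp e3
        have e5 : (Fm.mul a (.imp a b)).eval v2 = .lo (Car.prod (some w) (some w')) := by
          show a.eval v2 * (Fm.imp a b).eval v2 = _
          rw [ha2, hw', Car.mul_def, Car.mul_hi_hi]
        rw [e5, hb2] at e4
        simp only [Car.lo.injEq] at e4
        obtain ⟨x, y, f1, f2, hF2⟩ := Car.prod_eq_some.mp e4
        simp only [Option.some.injEq] at f1 f2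
        subst f1 f2
        exact hF2
      c3' := by
        rintro v w c d w' ⟨a, ha, ha1, ha2⟩ ⟨b, hb, hb1, hb2⟩ hF
        have hab : (Fm.imp a b).vars ⊆ Z := Set.union_subset ha hb
        have e1 : (Fm.imp a b).eval v2 = .hi (some w') := by
          show FLewAlgebra.res (a.eval v2) (b.eval v2) = _
          rw [ha2, hb2, Car.res_def, Car.res_hi_lo, Car.dv_pos hF]
        have hk := hkd _ hab
        rw [e1] at hk
        obtain ⟨v', hv'⟩ := Car.of_kd_x hk.symm
        refine ⟨v', ⟨_, hab, hv', e1⟩, ?_⟩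
        have e3 : (Fm.mul a (.imp a b)).eval v2 = b.eval v2 := by
          show a.eval v2 * (Fm.imp a b).eval v2 = _
          rw [e1, ha2, hb2, Car.mul_def, Car.mul_hi_hi, Car.prod_some hF]
        have e4 := (heq (.mul a (.imp a b)) b (Set.union_subset ha hab) hb).mpr e3
        have e5 : (Fm.mul a (.imp a b)).eval v1 = .lo (Car.prod (some v) (some v')) := by
          show a.eval v1 * (Fm.imp a b).eval v1 = _
          rw [ha1, hv', Car.mul_def, Car.mul_hi_hi]
        rw [e5, hb1] at e4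
        simp only [Car.lo.injEq] at e4
        obtain ⟨x, y, f1, f2, hF2⟩ := Car.prod_eq_some.mp e4
        simp only [Option.some.injEq] at f1 f2
        subst f1 f2
        exact hF2 }
  refine ⟨g.D, g.good h1 h2, g.e1, g.e2, ?_⟩
  intro n hn
  have hv : (Fm.var n).vars ⊆ Z := by simpa [Fm.vars] using hn
  have hk := hkd _ hv
  have d1 : (Fm.var n).eval v1 = v1 n := rfl
  have d2 : (Fm.var n).eval v2 = v2 n := rfl
  rw [d1, d2] at hk
  rcases x1 : v1 n with _ | (_ | v) | (_ | c) | _
  · rw [x1] at hk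
    rw [Cs.eq_car (c := .one) hk.symm]; rfl
  · rw [x1] at hk
    rw [Cs.eq_car (c := .top) hk.symm]; rfl
  · rw [x1] at hk
    obtain ⟨w, hw⟩ := Car.of_kd_x hk
    rw [hw]
    show Car.hi (G := g.D) (some (g.hV.inl v)) = Car.hi (G := g.D) (some (g.hV.inr w))
    exact congrArg (fun z => Car.hi (G := g.D) (some z))
      ((PB.inl_inr g.hV).mpr ⟨.var n, hv, x1, hw⟩)
  · rw [x1] at hk
    rw [Cs.eq_car (c := .mid) hk.symm]; rfl
  · rw [x1] at hk
    obtain ⟨d, hd⟩ := Car.of_kd_y hk
    rw [hd]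
    show Car.lo (G := g.D) (some (g.hY.inl c)) = Car.lo (G := g.D) (some (g.hY.inr d))
    exact congrArg (fun z => Car.lo (G := g.D) (some z))
      ((PB.inl_inr g.hY).mpr ⟨.var n, hv, x1, hd⟩)
  · rw [x1] at hk
    rw [Cs.eq_car (c := .zero) hk.symm]; rfl

end Pool.Agent.Helper79.Dip
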