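import Mathlib

set_option autoImplicit false

namespace Pool.Agent.Helper79.Dip

/-- Formulas in the language of FL_ew over the variables `0, 1, 2, ...`:
meet, join, fusion, implication and the two constants `e` and `f`. -/
inductive Fm : Type
  | var : ℕ → Fm
  | inf : Fm → Fm → Fm
  | sup : Fm → Fm → Fm
  | mul : Fm → Fm → Fm
  | imp : Fm → Fm → Fm
  | e : Fm
  | f : Fm

namespace Fm

/-- The set of variables occurring in a formula. -/
def vars : Fm → Set ℕ
  | var n => {n}
  | inf a b => vars a ∪ vars b
  | sup a b => vars a ∪ vars b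
  | mul a b => vars a ∪ vars b
  | imp a b => vars a ∪ vars b
  | e => ∅
  | f => ∅

/-- Simultaneous substitution of formulas for variables. -/
def subst (s : ℕ → Fm) : Fm → Fm
  | var n => s n
  | inf a b => inf (subst s a) (subst s b)
  | sup a b => sup (subst s a) (subst s b)
  | mul a b => mul (subst s a) (subst s b)
  | imp a b => imp (subst s a) (subst s b)
  | e => e
  | f => f

end Fm

/-- FL_ew-algebras: commutative residuated lattices whose monoid unit is the top element,
with a constant `zero` naming the bottom element. -/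
class FLewAlgebra (A : Type) extends Lattice A, CommMonoid A where
  /-- the residual -/
  res : A → A → A
  /-- the bottom element -/
  zero : A
  le_one : ∀ a : A, a ≤ 1
  zero_le : ∀ a : A, zero ≤ a
  residuation : ∀ a b c : A, a * b ≤ c ↔ b ≤ res a c

/-- The value of a formula under a valuation of the variables. -/
def Fm.eval {A : Type} [FLewAlgebra A] (v : ℕ → A) : Fm → A
  | .var n => v n
  | .inf a b => a.eval v ⊓ b.eval v
  | .sup a b => a.eval v ⊔ b.eval v
  | .mul a b => a.eval v * b.eval v
  | .imp a b => FLewAlgebra.res (a.eval v) (b.eval v)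
  | .e => 1
  | .f => FLewAlgebra.zero

/-- The consequence relation of FL_ew: every valuation in every FL_ew-algebra that sends all
premises to the unit sends the conclusion to the unit. -/
def FLew (G : Set Fm) (p : Fm) : Prop :=
  ∀ (A : Type) [FLewAlgebra A] (v : ℕ → A), (∀ g ∈ G, g.eval v = 1) → p.eval v = 1

/-- `L` is an axiomatic extension of FL_ew: it is obtained by adding a set of axioms closed under
substitution, with no new rules. -/
def IsAxiomaticExtension (L : Set Fm → Fm → Prop) : Prop :=
  ∃ Ax : Set Fm, (∀ a ∈ Ax, ∀ s : ℕ → Fm, a.subst s ∈ Ax) ∧ ∀ G p, L G p ↔ FLew (G ∪ Ax) p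

/-- The deductive interpolation property. -/
def DIP (L : Set Fm → Fm → Prop) : Prop :=
  ∀ (G : Set Fm) (p : Fm), L G p →
    ∃ I : Set Fm, (∀ q ∈ I, q.vars ⊆ (⋃ g ∈ G, g.vars) ∩ p.vars) ∧ (∀ q ∈ I, L G q) ∧ L I p

end Pool.Agent.Helper79.Dip
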