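import Pool.Agent.Helper79.DipAmalg

set_option autoImplicit false

namespace Pool.Agent.Helper79.Dip

deriving instance Encodable for Fm

lemma LS_axExt (S : Set Nat.Primes) : IsAxiomaticExtension (LS S) :=
  ⟨AxS S, AxS_subst S, fun _ _ => Iff.rfl⟩

lemma e_mem {S : Set Nat.Primes} {T : Set Fm} (h : IsTh S T) : Fm.e ∈ T :=
  h.ax (fun _ _ _ => rfl)

theorem LS_dip (S : Set Nat.Primes) : DIP (LS S) := by
  intro Γ p hΓ
  set Z : Set ℕ := (⋃ g ∈ Γ, g.vars) ∩ p.vars with hZ
  refine ⟨{q | q.vars ⊆ Z ∧ LS S Γ q}, fun q hq => hq.1, fun q hq => hq.2, ?_⟩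
  by_contra hcon
  unfold LS FLew at hcon
  push Not at hcon
  obtain ⟨A, inst, v, hv, hpv⟩ := hcon
  have hT0 : IsTh S {a | a.eval v = 1} := isTh_of_model fun a ha => hv a (Or.inr ha)
  obtain ⟨TB, hTB, hsub, hpTB⟩ := exists_prime hT0 (p := p) hpv
  have hI : ∀ q : Fm, q.vars ⊆ Z → LS S Γ q → q ∈ TB := fun q h1 h2 =>
    hsub (hv q (Or.inl ⟨h1, h2⟩))
  -- the theory for the other side
  have hT' : IsTh S {b | ∃ t ∈ TB, t.vars ⊆ Z ∧ LS S Γ (.imp t.del b)} := by
    constructor
    · intro a ha
      refine ⟨.e, e_mem hTB.toIsTh, Set.empty_subset _, ?_⟩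
      intro A _ v hv
      rw [eval_imp_one, hv a (Or.inr ha)]
      exact FLewAlgebra.le_one _
    · rintro b c ⟨t1, ht1, hz1, h1⟩ ⟨t2, ht2, hz2, h2⟩
      refine ⟨.inf t1 t2, hTB.toIsTh.inf ht1 ht2, Set.union_subset hz1 hz2, ?_⟩
      have hX : Fm.imp (.imp t1.del b) (.imp (.imp t2.del (.imp b c)) (.imp (Fm.inf t1 t2).del c))
          ∈ AxS S := by
        apply mem_AxS_imp
        intro G v _
        by_cases ht : (Fm.inf t1 t2).eval v = 1
        · obtain ⟨e1, e2⟩ := eval_inf_one.mp ht
          have d := eval_del_one ht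
          have d1 := eval_del_one e1
          have d2 := eval_del_one e2
          show FLewAlgebra.res (t1.del.eval v) (b.eval v) ≤ FLewAlgebra.res
            (FLewAlgebra.res (t2.del.eval v) (FLewAlgebra.res (b.eval v) (c.eval v)))
            (FLewAlgebra.res ((Fm.inf t1 t2).del.eval v) (c.eval v))
          rw [d, d1, d2, one_res, one_res, one_res, ← FLewAlgebra.residuation, mul_comm,
            FLewAlgebra.residuation]
        · have d := eval_del_zero ht
          have e1 : (Fm.imp (Fm.inf t1 t2).del c).eval v = 1 := by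
            rw [eval_imp_one, d]; exact FLewAlgebra.zero_le _
          have e2 : (Fm.imp (.imp t2.del (.imp b c)) (.imp (Fm.inf t1 t2).del c)).eval v = 1 := by
            rw [eval_imp_one, e1]; exact FLewAlgebra.le_one _
          rw [e2]; exact FLewAlgebra.le_one _
      intro A _ v hv
      exact eq_one_of_imp (h2 A v hv) (eq_one_of_imp (h1 A v hv) (hv _ (Or.inr hX)))
  have hf : Fm.f ∉ {b | ∃ t ∈ TB, t.vars ⊆ Z ∧ LS S Γ (.imp t.del b)} := by
    rintro ⟨t, ht, hz, h⟩
    have : t.del.neg ∈ TB := by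
      apply hI _ _ h
      show (Fm.neg t.del).vars ⊆ Z
      rw [Fm.vars_neg, Fm.vars_del]; exact hz
    exact hTB.not_both ht this
  obtain ⟨TC, hTC, hsubC, -⟩ := exists_prime hT' hf
  have hΓC : ∀ g ∈ Γ, g ∈ TC := by
    intro g hg
    apply hsubC
    refine ⟨.e, e_mem hTB.toIsTh, Set.empty_subset _, ?_⟩
    intro A _ v hv
    rw [eval_imp_one, hv g (Or.inl hg)]
    exact FLewAlgebra.le_one _
  have hBC : ∀ a : Fm, a.vars ⊆ Z → a ∈ TB → a ∈ TC := by
    intro a ha haB
    apply hsubC
    refine ⟨a, haB, ha, ?_⟩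
    intro A _ v hv
    rw [eval_imp_one]
    exact mul_le_left' _ _
  have hiff : ∀ a : Fm, a.vars ⊆ Z → (a ∈ TC ↔ a ∈ TB) := by
    intro a ha
    constructor
    · intro haC
      by_contra haB
      have h1 := (hTB.dich a).resolve_left haB
      have h2 := hBC _ (by rw [Fm.vars_neg, Fm.vars_del]; exact ha) h1
      exact hTC.not_both haC h2
    · exact hBC a ha
  obtain ⟨G1, v1, hG1, hv1, -, -⟩ := Prime.rep hTC
  obtain ⟨G2, v2, hG2, hv2, -, -⟩ := Prime.rep hTB
  obtain ⟨D, hD, m1, m2, hm⟩ := amalg hG1 hG2 v1 v2 Z (fun a ha => by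
    rw [hv1, hv2]; exact hiff a ha)
  classical
  set u : ℕ → Car D := fun n => if n ∈ (⋃ g ∈ Γ, g.vars) then m1.car (v1 n) else m2.car (v2 n)
    with hu
  have hgu : ∀ g ∈ Γ, g.eval u = 1 := by
    intro g hg
    have e1 : g.eval u = g.eval (fun n => m1.car (v1 n)) := by
      apply eval_congr
      intro n hn
      simp only [hu]
      rw [if_pos]
      exact Set.mem_biUnion hg hn
    rw [e1, m1.eval_map, (hv1 g).mpr (hΓC g hg)]
    rfl
  have hpu : p.eval u = 1 := by
    apply hΓ
    rintro a (ha | ha)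
    · exact hgu a ha
    · exact ha D hD u
  have e2 : p.eval u = p.eval (fun n => m2.car (v2 n)) := by
    apply eval_congr
    intro n hn
    simp only [hu]
    split_ifs with hn'
    · exact hm n ⟨hn', hn⟩
    · rfl
  rw [e2, m2.eval_map] at hpu
  have e3 : m2.car (p.eval v2) = m2.car 1 := hpu
  exact hpTB ((hv2 p).mp (m2.car_inj e3))

/-- the structure of addition modulo p -/
def GP (p : ℕ) : Gr where
  V := ZMod p
  Y := ZMod p
  F i j k := i + j = k
  symm := by rintro v w c rfl; exact add_comm _ _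
  func := by rintro v w c d rfl rfl; rfl
  inj := by
    rintro v w w' c rfl h
    exact (add_left_cancel h).symm

lemma GP_has {p q : ℕ} (hp : p.Prime) (hq : q.Prime) (h : (GP p).Has q) : q = p := by
  obtain ⟨(i : ZMod q → ZMod p), (k : ZMod q → ZMod p), hi, hk, hF⟩ := h
  have hF' : ∀ x y : ZMod q, i x + i y = k (x + y) := hF
  have key : ∀ n : ℕ, i (n : ZMod q) = i 0 + n * (i 1 - i 0) := by
    intro n
    induction n with
    | zero =>
      have : ((0 : ℕ) : ZMod q) = 0 := Nat.cast_zero
      rw [this]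
      simp
    | succ n ih =>
      have h1 := hF' ((n + 1 : ℕ) : ZMod q) 0
      have h2 := hF' (n : ZMod q) 1
      have e : ((n + 1 : ℕ) : ZMod q) + 0 = (n : ZMod q) + 1 := by push_cast; ring
      rw [e] at h1
      have h3 := h1.trans h2.symm
      rw [ih] at h3
      push_cast at h3 ⊢
      linear_combination h3
  have hq0 := key q
  have e0 : ((q : ℕ) : ZMod q) = 0 := ZMod.natCast_self q
  rw [e0] at hq0
  have h4 : (q : ZMod p) * (i 1 - i 0) = 0 := by
    linear_combination -hq0
  have : Fact p.Prime := ⟨hp⟩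
  rcases mul_eq_zero.mp h4 with h5 | h5
  · rw [ZMod.natCast_eq_zero_iff] at h5
    exact ((Nat.prime_dvd_prime_iff_eq hp hq).mp h5).symm
  · exfalso
    have h6 : i 1 = i 0 := sub_eq_zero.mp h5
    have h7 := hi h6
    have : Fact q.Prime := ⟨hq⟩
    exact one_ne_zero h7

lemma LS_inj_aux {S S' : Set Nat.Primes} (h : LS S = LS S') {p : Nat.Primes} (hp : p ∈ S) :
    p ∈ S' := by
  by_contra hp'
  have hgood : Good S' (GP p.1) := by
    intro q hq hHas
    have := GP_has p.2 q.2 hHas
    have hqp : q = p := Subtype.ext this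
    rw [hqp] at hq
    exact hp' hq
  have : NeZero p.1 := ⟨p.2.ne_zero⟩
  set v : ℕ → Car (GP p.1) := fun n => Car.hi (some (n : ZMod p.1)) with hv
  have hTh : IsTh S {a | a.eval v = 1} := by
    apply isTh_of_model
    intro a ha
    have h1 : LS S ∅ a := fun A _ w hw => hw a (Or.inr ha)
    rw [h] at h1
    apply h1
    rintro b (hb | hb)
    · exact absurd hb (Set.notMem_empty _)
    · exact hb _ hgood v
  have hP : Prime S {a | a.eval v = 1} := by
    refine ⟨hTh, ?_, ?_⟩
    · intro a
      by_cases ha : a.eval v = 1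
      · exact Or.inl ha
      · exact Or.inr (eval_neg_del.mpr ha)
    · intro hf
      have : (Car.zero : Car (GP p.1)) = 1 := hf
      exact one_ne_zero' this.symm
  have hE : ∀ a b : Fm, Eqv {a | a.eval v = 1} a b ↔ a.eval v = b.eval v := by
    intro a b
    show (Fm.imp a b).eval v = 1 ∧ (Fm.imp b a).eval v = 1 ↔ _
    rw [eval_imp_one, eval_imp_one]
    exact ⟨fun e => le_antisymm e.1 e.2, fun e => ⟨e.le, e.ge⟩⟩
  have hK : ∀ a : Fm, kdT {a | a.eval v = 1} a = (a.eval v).kd := by
    intro a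
    unfold kdT
    rw [hE, hE, hE, hE, Car.kd_spec]
    rfl
  have ev1 : ∀ i : ZMod p.1, (Fm.var i.val).eval v = Car.hi (some i) := by
    intro i
    show v i.val = _
    simp only [hv]
    rw [ZMod.natCast_zmod_val]
  have ev2 : ∀ i j : ZMod p.1, (Fm.mul (Fm.var i.val) (Fm.var j.val)).eval v
      = Car.lo (some (i + j)) := by
    intro i j
    show (Fm.var i.val).eval v * (Fm.var j.val).eval v = _
    rw [ev1, ev1, Car.mul_def, Car.mul_hi_hi]
    congr 1
    exact Car.prod_some rfl
  refine no_pattern hP hp (fun i => .var i.val) ?_ ?_ ?_ ?_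
  · intro i
    rw [hK, ev1]; rfl
  · intro i j
    rw [hK, ev2]; rfl
  · intro i j hij
    rw [hE, ev1, ev1] at hij
    exact Option.some.inj (Car.hi.inj hij)
  · intro i j k l
    rw [hE, ev2, ev2]
    constructor
    · intro hij
      exact Option.some.inj (Car.lo.inj hij)
    · intro hij
      rw [hij]

theorem LS_injective : Function.Injective LS := by
  intro S S' h
  ext p
  exact ⟨fun hp => LS_inj_aux h hp, fun hp => LS_inj_aux h.symm hp⟩

lemma axExt_eq {L : Set Fm → Fm → Prop} (h : IsAxiomaticExtension L) (G : Set Fm) (p : Fm) :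
    L G p ↔ FLew (G ∪ {a | L ∅ a}) p := by
  obtain ⟨Ax, -, hL⟩ := h
  rw [hL]
  constructor
  · intro h A _ v hv
    apply h
    rintro g (hg | hg)
    · exact hv g (Or.inl hg)
    · apply hv g
      right
      show L ∅ g
      rw [hL]
      intro A _ w hw
      exact hw g (Or.inr hg)
  · intro h A _ v hv
    apply h
    rintro g (hg | hg)
    · exact hv g (Or.inl hg)
    · have hg : L ∅ g := hg
      rw [hL] at hg
      apply hg
      rintro a (ha | ha)
      · exact absurd ha (Set.notMem_empty _)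
      · exact hv a (Or.inr ha)

theorem main : Cardinal.mk {L : Set Fm → Fm → Prop // IsAxiomaticExtension L ∧ DIP L}
    = Cardinal.continuum := by
  apply le_antisymm
  · have hinj : Function.Injective
        (fun L : {L : Set Fm → Fm → Prop // IsAxiomaticExtension L ∧ DIP L} =>
          ({a | L.1 ∅ a} : Set Fm)) := by
      intro L L' hLL
      apply Subtype.ext
      funext G p
      apply propext
      have hLL : ({a | L.1 ∅ a} : Set Fm) = {a | L'.1 ∅ a} := hLL
      rw [axExt_eq L.2.1, axExt_eq L'.2.1, hLL]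
    have h1 := Cardinal.mk_le_of_injective hinj
    refine h1.trans ?_
    rw [Cardinal.mk_set]
    calc (2 : Cardinal) ^ Cardinal.mk Fm ≤ 2 ^ Cardinal.aleph0 :=
          Cardinal.power_le_power_left two_ne_zero (Cardinal.mk_le_aleph0)
      _ = Cardinal.continuum := Cardinal.two_power_aleph0
  · have hinj : Function.Injective
        (fun S : Set Nat.Primes =>
          (⟨LS S, LS_axExt S, LS_dip S⟩ :
            {L : Set Fm → Fm → Prop // IsAxiomaticExtension L ∧ DIP L})) := by
      intro S S' h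
      exact LS_injective (congrArg Subtype.val h)
    have h1 := Cardinal.mk_le_of_injective hinj
    refine le_trans ?_ h1
    rw [Cardinal.mk_set, Cardinal.mk_eq_aleph0, Cardinal.two_power_aleph0]

end Pool.Agent.Helper79.Dip
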