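import Pool.Agent.Helper79.DipTheory

set_option autoImplicit false

namespace Pool.Agent.Helper79.Dip

inductive Kd : Type
  | one | top | x | mid | y | zero

def Car.kd {G : Gr} : Car G → Kd
  | .one => .one
  | .hi none => .top
  | .hi (some _) => .x
  | .lo none => .mid
  | .lo (some _) => .y
  | .zero => .zero

open Classical in
noncomputable def kdT (T : Set Fm) (a : Fm) : Kd :=
  if Eqv T a .e then .one
  else if Eqv T a .f then .zero
  else if Eqv T (.mul a a) .f then (if Eqv T a.neg.neg a then .mid else .y)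
  else (if Eqv T a.neg.neg a then .top else .x)

open Classical in
lemma Car.kd_spec {G : Gr} (x : Car G) :
    x.kd = if x = Car.one then Kd.one else if x = Car.zero then Kd.zero
      else if Car.mul x x = Car.zero then
        (if Car.res (Car.res x Car.zero) Car.zero = x then Kd.mid else Kd.y)
      else (if Car.res (Car.res x Car.zero) Car.zero = x then Kd.top else Kd.x) := by
  rcases x with _ | (_ | v) | (_ | c) | _ <;> simp [Car.kd]

section rep

variable {S : Set Nat.Primes} {T : Set Fm} (h : Prime S T)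
include h

lemma Prime.approxK (l : List Fm) :
    ∃ (G : Gr) (_ : Good S G) (v : ℕ → Car G),
      (∀ a ∈ l, ∀ b ∈ l, (a.eval v = b.eval v ↔ Eqv T a b)) ∧
      (∀ a ∈ l, kdT T a = (a.eval v).kd) := by
  obtain ⟨G, hG, v, hv⟩ := h.approxEq (l ++ [Fm.e, Fm.f] ++ l.map (fun a => Fm.mul a a) ++
    l.map (fun a => a.neg.neg))
  refine ⟨G, hG, v, ?_, ?_⟩
  · intro a ha b hb
    exact hv a (by simp [ha]) b (by simp [hb])
  · intro a ha
    have m0 : a ∈ (l ++ [Fm.e, Fm.f] ++ l.map (fun a => Fm.mul a a) ++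
      l.map (fun a => a.neg.neg)) := by simp [ha]
    have m1 : Fm.e ∈ (l ++ [Fm.e, Fm.f] ++ l.map (fun a => Fm.mul a a) ++
      l.map (fun a => a.neg.neg)) := by simp
    have m2 : Fm.f ∈ (l ++ [Fm.e, Fm.f] ++ l.map (fun a => Fm.mul a a) ++
      l.map (fun a => a.neg.neg)) := by simp
    have m3 : Fm.mul a a ∈ (l ++ [Fm.e, Fm.f] ++ l.map (fun a => Fm.mul a a) ++
      l.map (fun a => a.neg.neg)) := by
      simp only [List.mem_append, List.mem_map]
      exact Or.inl (Or.inr ⟨a, ha, rfl⟩)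
    have m4 : a.neg.neg ∈ (l ++ [Fm.e, Fm.f] ++ l.map (fun a => Fm.mul a a) ++
      l.map (fun a => a.neg.neg)) := by
      simp only [List.mem_append, List.mem_map]
      exact Or.inr ⟨a, ha, rfl⟩
    unfold kdT
    rw [Car.kd_spec, ← hv _ m0 _ m1, ← hv _ m0 _ m2, ← hv _ m3 _ m2, ← hv _ m4 _ m0]
    rfl

lemma Prime.eqv_refl (a : Fm) : Eqv T a a := by
  obtain ⟨G, hG, v, hv, -⟩ := h.approxK [a]
  exact (hv a (by simp) a (by simp)).mp rfl

omit h in
lemma eqv_symm {a b : Fm} (hab : Eqv T a b) : Eqv T b a := ⟨hab.2, hab.1⟩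

lemma Prime.eqv_trans {a b c : Fm} (hab : Eqv T a b) (hbc : Eqv T b c) : Eqv T a c := by
  obtain ⟨G, hG, v, hv, -⟩ := h.approxK [a, b, c]
  rw [← hv a (by simp) b (by simp)] at hab
  rw [← hv b (by simp) c (by simp)] at hbc
  rw [← hv a (by simp) c (by simp)]
  exact hab.trans hbc

lemma Prime.eqv_mul {a a' b b' : Fm} (ha : Eqv T a a') (hb : Eqv T b b') :
    Eqv T (.mul a b) (.mul a' b') := by
  obtain ⟨G, hG, v, hv, -⟩ := h.approxK [a, a', b, b', .mul a b, .mul a' b']
  rw [← hv a (by simp) a' (by simp)] at ha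
  rw [← hv b (by simp) b' (by simp)] at hb
  rw [← hv _ (by simp) _ (by simp)]
  simp only [Fm.eval, ha, hb]

lemma Prime.kd_congr {a b : Fm} (hab : Eqv T a b) : kdT T a = kdT T b := by
  obtain ⟨G, hG, v, hv, hk⟩ := h.approxK [a, b]
  rw [← hv a (by simp) b (by simp)] at hab
  rw [hk a (by simp), hk b (by simp), hab]

/-- the setoid of equivalence modulo T -/
def stdT : Setoid Fm :=
  ⟨Eqv T, ⟨h.eqv_refl, fun hab => eqv_symm hab, fun hab hbc => h.eqv_trans hab hbc⟩⟩

lemma mk_eq {a b : Fm} : (Quotient.mk (stdT h) a = Quotient.mk (stdT h) b) ↔ Eqv T a b :=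
  Quotient.eq

omit h in
lemma Car.of_kd_x {G : Gr} {e : Car G} (he : Kd.x = e.kd) : ∃ v, e = Car.hi (some v) := by
  rcases e with _ | (_ | v) | (_ | c) | _ <;> simp_all [Car.kd]

omit h in
lemma Car.of_kd_y {G : Gr} {e : Car G} (he : Kd.y = e.kd) : ∃ c, e = Car.lo (some c) := by
  rcases e with _ | (_ | v) | (_ | c) | _ <;> simp_all [Car.kd]

/-- the structure of a prime theory -/
noncomputable def GT : Gr where
  V := {q : Quotient (stdT h) // ∃ a, Quotient.mk (stdT h) a = q ∧ kdT T a = .x}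
  Y := {q : Quotient (stdT h) // ∃ a, Quotient.mk (stdT h) a = q ∧ kdT T a = .y}
  F q r s := ∃ a b, Quotient.mk (stdT h) a = q.1 ∧ Quotient.mk (stdT h) b = r.1 ∧
    Quotient.mk (stdT h) (.mul a b) = s.1
  symm := by
    rintro q r s ⟨a, b, ha, hb, hab⟩
    refine ⟨b, a, hb, ha, ?_⟩
    rw [← hab, mk_eq]
    obtain ⟨G, hG, v, hv, -⟩ := h.approxK [.mul b a, .mul a b]
    rw [← hv _ (by simp) _ (by simp)]
    simp only [Fm.eval, mul_comm]
  func := by
    rintro q r s t ⟨a, b, ha, hb, hab⟩ ⟨a', b', ha', hb', hab'⟩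
    apply Subtype.ext
    rw [← hab, ← hab', mk_eq]
    apply h.eqv_mul
    · rw [← mk_eq h, ha, ha']
    · rw [← mk_eq h, hb, hb']
  inj := by
    rintro ⟨q, a0, hq, ka⟩ ⟨r, b0, hr, kb⟩ ⟨r', b1, hr', kb'⟩ ⟨s, c0, hs, kc⟩
      ⟨a, b, ha, hb, hab⟩ ⟨a', b', ha', hb', hab'⟩
    simp only at ha hb hab ha' hb' hab'
    subst hq hr hr' hs
    rw [mk_eq] at ha hb hab ha' hb' hab'
    apply Subtype.ext
    show Quotient.mk _ _ = Quotient.mk _ _
    rw [mk_eq]
    obtain ⟨G, hG, v, hv, hk⟩ := h.approxK [a0, b0, b1, c0, a, b, a', b', .mul a b, .mul a' b']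
    rw [← hv _ (by simp) _ (by simp)] at ha hb hab ha' hb' hab' ⊢
    rw [hk a0 (by simp)] at ka
    rw [hk b0 (by simp)] at kb
    rw [hk b1 (by simp)] at kb'
    rw [hk c0 (by simp)] at kc
    obtain ⟨va, hva⟩ := Car.of_kd_x ka.symm
    obtain ⟨vb, hvb⟩ := Car.of_kd_x kb.symm
    obtain ⟨vb', hvb'⟩ := Car.of_kd_x kb'.symm
    obtain ⟨vc, hvc⟩ := Car.of_kd_y kc.symm
    have e1 : (Fm.mul a b).eval v = a.eval v * b.eval v := rfl
    have e2 : (Fm.mul a' b').eval v = a'.eval v * b'.eval v := rfl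
    rw [e1, ha, hb, hva, hvb, hvc, Car.mul_def, Car.mul_hi_hi] at hab
    rw [e2, ha', hb', hva, hvb', hvc, Car.mul_def, Car.mul_hi_hi] at hab'
    simp only [Car.lo.injEq] at hab hab'
    obtain ⟨x1, x2, y1, y2, hF⟩ := Car.prod_eq_some.mp hab
    obtain ⟨x1', x2', y1', y2', hF'⟩ := Car.prod_eq_some.mp hab'
    simp only [Option.some.injEq] at y1 y2 y1' y2'
    subst y1 y2 y1' y2'
    rw [hvb, hvb', G.inj hF hF']

/-- the canonical map -/
noncomputable def hT (a : Fm) : Car (GT h) :=
  match hk : kdT T a with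
  | .one => .one
  | .top => .hi none
  | .x => .hi (some ⟨Quotient.mk (stdT h) a, a, rfl, hk⟩)
  | .mid => .lo none
  | .y => .lo (some ⟨Quotient.mk (stdT h) a, a, rfl, hk⟩)
  | .zero => .zero

lemma hT_one {a : Fm} (hk : kdT T a = .one) : hT h a = .one := by
  unfold hT; split <;> rename_i heq <;>
    first | rfl | (rw [hk] at heq; exact absurd heq (by simp))
lemma hT_top {a : Fm} (hk : kdT T a = .top) : hT h a = .hi none := by
  unfold hT; split <;> rename_i heq <;>
    first | rfl | (rw [hk] at heq; exact absurd heq (by simp))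
lemma hT_x {a : Fm} (hk : kdT T a = .x) :
    hT h a = .hi (some ⟨Quotient.mk (stdT h) a, a, rfl, hk⟩) := by
  unfold hT; split <;> rename_i heq <;>
    first | rfl | (rw [hk] at heq; exact absurd heq (by simp))
lemma hT_mid {a : Fm} (hk : kdT T a = .mid) : hT h a = .lo none := by
  unfold hT; split <;> rename_i heq <;>
    first | rfl | (rw [hk] at heq; exact absurd heq (by simp))
lemma hT_y {a : Fm} (hk : kdT T a = .y) :
    hT h a = .lo (some ⟨Quotient.mk (stdT h) a, a, rfl, hk⟩) := by
  unfold hT; split <;> rename_i heq <;>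
    first | rfl | (rw [hk] at heq; exact absurd heq (by simp))
lemma hT_zero {a : Fm} (hk : kdT T a = .zero) : hT h a = .zero := by
  unfold hT; split <;> rename_i heq <;>
    first | rfl | (rw [hk] at heq; exact absurd heq (by simp))

lemma hT_kd (a : Fm) : (hT h a).kd = kdT T a := by
  rcases hk : kdT T a
  · rw [hT_one h hk]; rfl
  · rw [hT_top h hk]; rfl
  · rw [hT_x h hk]; rfl
  · rw [hT_mid h hk]; rfl
  · rw [hT_y h hk]; rfl
  · rw [hT_zero h hk]; rfl

/-- constants -/
inductive Cs : Type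
  | one | top | mid | zero

omit h in
lemma dummy_true : True := trivial

end rep

def Cs.kd : Cs → Kd
  | .one => .one
  | .top => .top
  | .mid => .mid
  | .zero => .zero

def Cs.car {G : Gr} : Cs → Car G
  | .one => .one
  | .top => .hi none
  | .mid => .lo none
  | .zero => .zero

lemma Cs.kd_car {G : Gr} (c : Cs) : (c.car : Car G).kd = c.kd := by cases c <;> rfl

lemma Cs.eq_car {G : Gr} {c : Cs} {e : Car G} (h : e.kd = c.kd) : e = c.car := by
  cases c <;> rcases e with _ | (_ | v) | (_ | c) | _ <;> simp_all [Car.kd, Cs.kd, Cs.car]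

section rep2

variable {S : Set Nat.Primes} {T : Set Fm} (h : Prime S T)
include h

lemma hT_eq_iff (a b : Fm) : hT h a = hT h b ↔ Eqv T a b := by
  constructor
  · intro hab
    have hk : kdT T a = kdT T b := by rw [← hT_kd h, ← hT_kd h, hab]
    obtain ⟨G, hG, v, hv, hk'⟩ := h.approxK [a, b]
    have ha := hk' a (by simp)
    have hb := hk' b (by simp)
    rcases hka : kdT T a
    · rw [← hv _ (by simp) _ (by simp)]
      rw [hka] at hk ha; rw [← hk] at hb
      rw [Cs.eq_car (c := .one) ha.symm, Cs.eq_car (c := .one) hb.symm]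
    · rw [← hv _ (by simp) _ (by simp)]
      rw [hka] at hk ha; rw [← hk] at hb
      rw [Cs.eq_car (c := .top) ha.symm, Cs.eq_car (c := .top) hb.symm]
    · rw [hka] at hk
      rw [hT_x h hka, hT_x h hk.symm] at hab
      exact (mk_eq h).mp (congrArg Subtype.val (Option.some.inj (Car.hi.inj hab)))
    · rw [← hv _ (by simp) _ (by simp)]
      rw [hka] at hk ha; rw [← hk] at hb
      rw [Cs.eq_car (c := .mid) ha.symm, Cs.eq_car (c := .mid) hb.symm]
    · rw [hka] at hk
      rw [hT_y h hka, hT_y h hk.symm] at hab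
      exact (mk_eq h).mp (congrArg Subtype.val (Option.some.inj (Car.lo.inj hab)))
    · rw [← hv _ (by simp) _ (by simp)]
      rw [hka] at hk ha; rw [← hk] at hb
      rw [Cs.eq_car (c := .zero) ha.symm, Cs.eq_car (c := .zero) hb.symm]
  · intro hab
    have hk := h.kd_congr hab
    have hq : Quotient.mk (stdT h) a = Quotient.mk (stdT h) b := (mk_eq h).mpr hab
    rcases hka : kdT T a
    · rw [hka] at hk; rw [hT_one h hka, hT_one h hk.symm]
    · rw [hka] at hk; rw [hT_top h hka, hT_top h hk.symm]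
    · rw [hka] at hk; rw [hT_x h hka, hT_x h hk.symm]
      simp only [hq]
    · rw [hka] at hk; rw [hT_mid h hka, hT_mid h hk.symm]
    · rw [hka] at hk; rw [hT_y h hka, hT_y h hk.symm]
      simp only [hq]
    · rw [hka] at hk; rw [hT_zero h hka, hT_zero h hk.symm]

/-- outcome of a binary operation -/
inductive Out : Type
  | fst | snd | c (k : Cs) | sp

omit h in
lemma dummy_true2 : True := trivial

end rep2

def Out.app {G : Gr} (o : Out) (x y : Car G) : Car G :=
  match o with
  | .fst => x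
  | .snd => y
  | .c k => k.car
  | .sp => .zero

lemma hom_gen {S : Set Nat.Primes} {T : Set Fm} (h : Prime S T) {o : Fm → Fm → Fm}
    {oc : ∀ {G : Gr}, Car G → Car G → Car G} {out : Kd → Kd → Prop → Out}
    (heval : ∀ (G : Gr) (v : ℕ → Car G) a b, (o a b).eval v = oc (a.eval v) (b.eval v))
    (hout : ∀ (G : Gr) (x y : Car G), out x.kd y.kd (x = y) ≠ .sp →
      oc x y = (out x.kd y.kd (x = y)).app x y)
    (a b : Fm) (hne : out (kdT T a) (kdT T b) (Eqv T a b) ≠ .sp) :
    hT h (o a b) = oc (hT h a) (hT h b) := by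
  obtain ⟨G, hG, v, hv, hk⟩ := h.approxK [a, b, o a b]
  have ka := hk a (by simp)
  have kb := hk b (by simp)
  have kc := hk (o a b) (by simp)
  have eab : (a.eval v = b.eval v) = Eqv T a b := propext (hv a (by simp) b (by simp))
  have eab' : (hT h a = hT h b) = Eqv T a b := propext (hT_eq_iff h a b)
  have r1 := hout G (a.eval v) (b.eval v) (by rw [← ka, ← kb, eab]; exact hne)
  have r2 := hout (GT h) (hT h a) (hT h b) (by rw [hT_kd, hT_kd, eab']; exact hne)
  rw [← heval, ← ka, ← kb, eab] at r1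
  rw [hT_kd, hT_kd, eab'] at r2
  rw [r2]
  rcases ho : out (kdT T a) (kdT T b) (Eqv T a b) with _ | _ | k | _
  · rw [ho] at r1
    show hT h (o a b) = hT h a
    rw [hT_eq_iff, ← hv _ (by simp) _ (by simp)]
    exact r1
  · rw [ho] at r1
    show hT h (o a b) = hT h b
    rw [hT_eq_iff, ← hv _ (by simp) _ (by simp)]
    exact r1
  · rw [ho] at r1
    show hT h (o a b) = k.car
    apply Cs.eq_car
    rw [hT_kd, kc, r1]
    exact Cs.kd_car k
  · exact absurd ho hne

open Classical in
noncomputable def supOut (a b : Kd) (e : Prop) : Out :=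
  match a, b with
  | .one, _ => .c .one
  | _, .one => .c .one
  | .zero, _ => .snd
  | _, .zero => .fst
  | .top, _ => .c .top
  | _, .top => .c .top
  | .x, .x => if e then .fst else .c .top
  | .x, _ => .fst
  | _, .x => .snd
  | .mid, _ => .c .mid
  | _, .mid => .c .mid
  | .y, .y => if e then .fst else .c .mid

open Classical in
noncomputable def infOut (a b : Kd) (e : Prop) : Out :=
  match a, b with
  | .one, _ => .snd
  | _, .one => .fst
  | .zero, _ => .c .zero
  | _, .zero => .c .zero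
  | .top, _ => .snd
  | _, .top => .fst
  | .x, .x => if e then .fst else .c .mid
  | .x, _ => .snd
  | _, .x => .fst
  | .mid, _ => .snd
  | _, .mid => .fst
  | .y, .y => if e then .fst else .c .zero

def mulOut (a b : Kd) (_ : Prop) : Out :=
  match a, b with
  | .one, _ => .snd
  | _, .one => .fst
  | .x, .x => .sp
  | .top, .top => .c .mid
  | .top, .x => .c .mid
  | .x, .top => .c .mid
  | _, _ => .c .zero

open Classical in
noncomputable def resOut (a b : Kd) (e : Prop) : Out :=
  match a, b with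
  | .zero, _ => .c .one
  | _, .one => .c .one
  | .one, _ => .snd
  | .mid, .top => .c .one
  | .mid, .x => .c .one
  | .y, .top => .c .one
  | .y, .x => .c .one
  | .top, .top => .c .one
  | .top, .x => .c .top
  | .x, .top => .c .one
  | .x, .x => if e then .c .one else .c .top
  | .mid, .mid => .c .one
  | .y, .mid => .c .one
  | .mid, .y => .c .top
  | .y, .y => if e then .c .one else .c .top
  | .top, .mid => .c .top
  | .x, .mid => .c .top
  | .top, .y => .c .mid
  | .x, .y => .sp
  | .top, .zero => .c .mid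
  | .x, .zero => .c .mid
  | .mid, .zero => .c .top
  | .y, .zero => .c .top

lemma sup_out (G : Gr) (x y : Car G) (_ : supOut x.kd y.kd (x = y) ≠ .sp) :
    Car.sup x y = (supOut x.kd y.kd (x = y)).app x y := by
  rcases x with _ | (_ | v) | (_ | c) | _ <;> rcases y with _ | (_ | w) | (_ | d) | _ <;>
    simp [Car.kd, supOut, Out.app, Cs.car] <;> split_ifs <;> simp_all

lemma inf_out (G : Gr) (x y : Car G) (_ : infOut x.kd y.kd (x = y) ≠ .sp) :
    Car.inf x y = (infOut x.kd y.kd (x = y)).app x y := by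
  rcases x with _ | (_ | v) | (_ | c) | _ <;> rcases y with _ | (_ | w) | (_ | d) | _ <;>
    simp [Car.kd, infOut, Out.app, Cs.car] <;> split_ifs <;> simp_all

lemma mul_out (G : Gr) (x y : Car G) (hne : mulOut x.kd y.kd (x = y) ≠ .sp) :
    Car.mul x y = (mulOut x.kd y.kd (x = y)).app x y := by
  rcases x with _ | (_ | v) | (_ | c) | _ <;> rcases y with _ | (_ | w) | (_ | d) | _ <;>
    simp_all [Car.kd, mulOut, Out.app, Cs.car, Car.prod_none_left, Car.prod_none_right]

lemma res_out (G : Gr) (x y : Car G) (hne : resOut x.kd y.kd (x = y) ≠ .sp) :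
    Car.res x y = (resOut x.kd y.kd (x = y)).app x y := by
  rcases x with _ | (_ | v) | (_ | c) | _ <;> rcases y with _ | (_ | w) | (_ | d) | _ <;>
    simp_all [Car.kd, resOut, Out.app, Cs.car, Car.dv_none] <;>
    first
    | (rw [Car.dv_neg]; intro w; simp [Car.prod_none_left])
    | (split_ifs <;> simp_all)

end Pool.Agent.Helper79.Dip
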