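import Pool.Agent.Helper79.DipRep

set_option autoImplicit false

namespace Pool.Agent.Helper79.Dip

section rep

variable {S : Set Nat.Primes} {T : Set Fm} (h : Prime S T)
include h

omit h in
lemma mulOut_sp {a b : Kd} {e : Prop} (hs : mulOut a b e = .sp) : a = .x ∧ b = .x := by
  cases a <;> cases b <;> simp_all [mulOut]

omit h in
lemma resOut_sp {a b : Kd} {e : Prop} (hs : resOut a b e = .sp) : a = .x ∧ b = .y := by
  cases a <;> cases b <;> simp_all [resOut] <;> split_ifs at hs

/-- membership in the relation of the canonical structure -/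
lemma GT_F_iff {a b c : Fm} (ha : kdT T a = .x) (hb : kdT T b = .x) (hc : kdT T c = .y) :
    (GT h).F ⟨Quotient.mk (stdT h) a, a, rfl, ha⟩ ⟨Quotient.mk (stdT h) b, b, rfl, hb⟩
      ⟨Quotient.mk (stdT h) c, c, rfl, hc⟩ ↔ Eqv T (.mul a b) c := by
  constructor
  · rintro ⟨a', b', e1, e2, e3⟩
    simp only at e1 e2 e3
    rw [mk_eq] at e1 e2 e3
    exact h.eqv_trans (h.eqv_mul (eqv_symm e1) (eqv_symm e2)) e3
  · intro he
    exact ⟨a, b, rfl, rfl, (mk_eq h).mpr he⟩

lemma hT_mul (a b : Fm) : hT h (.mul a b) = Car.mul (hT h a) (hT h b) := by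
  by_cases hne : mulOut (kdT T a) (kdT T b) (Eqv T a b) = .sp
  · obtain ⟨ka, kb⟩ := mulOut_sp hne
    obtain ⟨G, hG, v, hv, hk⟩ := h.approxK [a, b, .mul a b]
    have ka' := hk a (by simp)
    have kb' := hk b (by simp)
    have kc' := hk (.mul a b) (by simp)
    rw [ka] at ka'
    rw [kb] at kb'
    obtain ⟨va, hva⟩ := Car.of_kd_x ka'
    obtain ⟨vb, hvb⟩ := Car.of_kd_x kb'
    have e1 : (Fm.mul a b).eval v = Car.lo (Car.prod (some va) (some vb)) := by
      show a.eval v * b.eval v = _
      rw [hva, hvb, Car.mul_def, Car.mul_hi_hi]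
    rw [hT_x h ka, hT_x h kb, Car.mul_hi_hi]
    rw [e1] at kc'
    rcases hp : Car.prod (some va) (some vb) with _ | c
    · rw [hp] at kc'
      rw [hT_mid h kc']
      congr 1
      symm
      rw [Option.eq_none_iff_forall_not_mem]
      intro s hs
      obtain ⟨x1, x2, y1, y2, hF⟩ := Car.prod_eq_some.mp hs
      have y1 := Option.some.inj y1
      have y2 := Option.some.inj y2
      subst y1 y2
      obtain ⟨a', b', f1, f2, f3⟩ := hF
      obtain ⟨q, c0, hc0, kc0⟩ := s
      simp only at f1 f2 f3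
      subst hc0
      rw [mk_eq] at f1 f2 f3
      have := h.eqv_trans (h.eqv_mul (eqv_symm f1) (eqv_symm f2)) f3
      have := h.kd_congr this
      rw [kc', kc0] at this
      simp [Car.kd] at this
    · rw [hp] at kc'
      have kc : kdT T (.mul a b) = .y := kc'
      rw [hT_y h kc]
      congr 1
      symm
      apply Car.prod_some
      exact (GT_F_iff h ka kb kc).mpr (h.eqv_refl _)
  · exact hom_gen h (o := Fm.mul) (oc := Car.mul) (out := mulOut) (fun G v a b => rfl) mul_out a b
      hne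

lemma hT_imp (a b : Fm) : hT h (.imp a b) = Car.res (hT h a) (hT h b) := by
  by_cases hne : resOut (kdT T a) (kdT T b) (Eqv T a b) = .sp
  · obtain ⟨ka, kb⟩ := resOut_sp hne
    obtain ⟨G, hG, v, hv, hk⟩ := h.approxK [a, b, .imp a b, .mul a (.imp a b)]
    have ka' := hk a (by simp)
    have kb' := hk b (by simp)
    have kc' := hk (.imp a b) (by simp)
    rw [ka] at ka'
    rw [kb] at kb'
    obtain ⟨va, hva⟩ := Car.of_kd_x ka'
    obtain ⟨c, hvb⟩ := Car.of_kd_y kb'
    have e1 : (Fm.imp a b).eval v = Car.dv (some va) (some c) := by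
      show FLewAlgebra.res (a.eval v) (b.eval v) = _
      rw [hva, hvb, Car.res_def, Car.res_hi_lo]
    rw [hT_x h ka, hT_y h kb, Car.res_hi_lo]
    by_cases hw : ∃ w, G.F va w c
    · obtain ⟨w, hw⟩ := hw
      rw [Car.dv_pos hw] at e1
      rw [e1] at kc'
      have kc : kdT T (.imp a b) = .x := kc'
      rw [hT_x h kc]
      symm
      apply Car.dv_pos
      rw [GT_F_iff h ka kc kb, ← hv _ (by simp) _ (by simp)]
      show a.eval v * (Fm.imp a b).eval v = _
      rw [e1, hva, hvb, Car.mul_def, Car.mul_hi_hi, Car.prod_some hw]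
    · push Not at hw
      rw [Car.dv_neg] at e1
      · rw [e1] at kc'
        rw [hT_mid h kc']
        symm
        apply Car.dv_neg
        intro w hw'
        obtain ⟨x1, x2, y1, y2, hF⟩ := Car.prod_eq_some.mp hw'
        have y1 := Option.some.inj y1
        have y2 := Option.some.inj y2
        subst y1 y2
        obtain ⟨q, b0, hb0, kb0⟩ := w
        subst hb0
        rw [GT_F_iff h ka kb0 kb] at hF
        obtain ⟨G', hG', v', hv', hk'⟩ := h.approxK [a, b, b0, .mul a b0, .imp a b]
        rw [← hv' _ (by simp) _ (by simp)] at hF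
        have la := hk' a (by simp)
        have lb := hk' b (by simp)
        have lb0 := hk' b0 (by simp)
        have lc := hk' (.imp a b) (by simp)
        rw [ka] at la
        rw [kb] at lb
        rw [kb0] at lb0
        obtain ⟨va', hva'⟩ := Car.of_kd_x la
        obtain ⟨c', hvb'⟩ := Car.of_kd_y lb
        obtain ⟨w', hw'⟩ := Car.of_kd_x lb0
        have e2 : (Fm.mul a b0).eval v' = Car.lo (Car.prod (some va') (some w')) := by
          show a.eval v' * b0.eval v' = _
          rw [hva', hw', Car.mul_def, Car.mul_hi_hi]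
        rw [e2, hvb'] at hF
        simp only [Car.lo.injEq] at hF
        obtain ⟨z1, z2, t1, t2, hF'⟩ := Car.prod_eq_some.mp hF
        simp only [Option.some.injEq] at t1 t2
        subst t1 t2
        have e3 : (Fm.imp a b).eval v' = Car.hi (some w') := by
          show FLewAlgebra.res (a.eval v') (b.eval v') = _
          rw [hva', hvb', Car.res_def, Car.res_hi_lo, Car.dv_pos hF']
        rw [e3, kc'] at lc
        simp [Car.kd] at lc
      · intro w hw'
        obtain ⟨z1, z2, t1, t2, hF'⟩ := Car.prod_eq_some.mp hw'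
        simp only [Option.some.injEq] at t1 t2
        subst t1 t2
        exact hw w hF'
  · exact hom_gen h (o := Fm.imp) (oc := Car.res) (out := resOut) (fun G v a b => rfl) res_out a b
      hne

lemma hT_sup (a b : Fm) : hT h (.sup a b) = Car.sup (hT h a) (hT h b) := by
  refine hom_gen h (o := Fm.sup) (oc := Car.sup) (out := supOut) (fun G v a b => rfl) sup_out a b ?_
  cases kdT T a <;> cases kdT T b <;> simp [supOut] <;> split_ifs <;> simp

lemma hT_inf (a b : Fm) : hT h (.inf a b) = Car.inf (hT h a) (hT h b) := by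
  refine hom_gen h (o := Fm.inf) (oc := Car.inf) (out := infOut) (fun G v a b => rfl) inf_out a b ?_
  cases kdT T a <;> cases kdT T b <;> simp [infOut] <;> split_ifs <;> simp

lemma hT_e : hT h .e = Car.one := by
  apply hT_one
  obtain ⟨G, hG, v, hv, hk⟩ := h.approxK [.e]
  rw [hk .e (by simp)]
  rfl

lemma hT_f : hT h .f = Car.zero := by
  apply hT_zero
  obtain ⟨G, hG, v, hv, hk⟩ := h.approxK [.f]
  rw [hk .f (by simp)]
  rfl

lemma hT_eval (a : Fm) : a.eval (fun n => hT h (.var n)) = hT h a := by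
  induction a with
  | var n => rfl
  | inf a b iha ihb =>
    rw [hT_inf, ← iha, ← ihb]; rfl
  | sup a b iha ihb =>
    rw [hT_sup, ← iha, ← ihb]; rfl
  | mul a b iha ihb =>
    rw [hT_mul, ← iha, ← ihb]; rfl
  | imp a b iha ihb =>
    rw [hT_imp, ← iha, ← ihb]; rfl
  | e => rw [hT_e]; rfl
  | f => rw [hT_f]; rfl

lemma hT_one_iff (a : Fm) : hT h a = 1 ↔ a ∈ T := by
  have h1 : (1 : Car (GT h)) = hT h .e := (hT_e h).symm
  rw [h1, hT_eq_iff]
  constructor
  · intro he
    refine h.mp ?_ he.2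
    exact h.ax (fun G _ v => rfl)
  · intro ha
    refine ⟨h.toIsTh.weak (h.ax (fun G _ v => rfl)), h.toIsTh.weak ha⟩

/-- a prime theory cannot contain the pattern of a forbidden prime -/
lemma no_pattern {p : Nat.Primes} (hp : p ∈ S) (a : ZMod p.1 → Fm)
    (h1 : ∀ i, kdT T (a i) = .x) (h2 : ∀ i j, kdT T (.mul (a i) (a j)) = .y)
    (h3 : ∀ i j, Eqv T (a i) (a j) → i = j)
    (h4 : ∀ i j k l, Eqv T (.mul (a i) (a j)) (.mul (a k) (a l)) ↔ i + j = k + l) : False := by
  have : NeZero p.1 := ⟨p.2.ne_zero⟩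
  obtain ⟨G, hG, v, hv, hk⟩ := h.approxK
    ((Finset.univ.toList.map a) ++
      (Finset.univ.toList.map (fun ij : ZMod p.1 × ZMod p.1 => Fm.mul (a ij.1) (a ij.2))))
  have m1 : ∀ i, a i ∈ ((Finset.univ.toList.map a) ++
      (Finset.univ.toList.map (fun ij : ZMod p.1 × ZMod p.1 => Fm.mul (a ij.1) (a ij.2)))) := by
    intro i
    simp only [List.mem_append, List.mem_map, Finset.mem_toList, Finset.mem_univ, true_and]
    exact Or.inl ⟨i, rfl⟩
  have m2 : ∀ i j, Fm.mul (a i) (a j) ∈ ((Finset.univ.toList.map a) ++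
      (Finset.univ.toList.map (fun ij : ZMod p.1 × ZMod p.1 => Fm.mul (a ij.1) (a ij.2)))) := by
    intro i j
    simp only [List.mem_append, List.mem_map, Finset.mem_toList, Finset.mem_univ, true_and]
    exact Or.inr ⟨(i, j), rfl⟩
  have k1 : ∀ i, ∃ w, (a i).eval v = Car.hi (some w) := by
    intro i
    apply Car.of_kd_x
    rw [← hk _ (m1 i), h1]
  have k2 : ∀ i, ∃ c, (Fm.mul (a 0) (a i)).eval v = Car.lo (some c) := by
    intro i
    apply Car.of_kd_y
    rw [← hk _ (m2 0 i), h2]
  choose w hw using k1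
  choose c hc using k2
  apply hG p hp
  refine ⟨w, c, ?_, ?_, ?_⟩
  · intro i j hij
    apply h3
    rw [← hv _ (m1 i) _ (m1 j), hw, hw, hij]
  · intro i j hij
    have : Eqv T (Fm.mul (a 0) (a i)) (Fm.mul (a 0) (a j)) := by
      rw [← hv _ (m2 0 i) _ (m2 0 j), hc, hc, hij]
    rw [h4] at this
    simpa using this
  · intro i j
    have : Eqv T (Fm.mul (a i) (a j)) (Fm.mul (a 0) (a (i + j))) := by
      rw [h4]; simp
    rw [← hv _ (m2 i j) _ (m2 0 (i + j)), hc] at this
    have e : (Fm.mul (a i) (a j)).eval v = Car.lo (Car.prod (some (w i)) (some (w j))) := by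
      show (a i).eval v * (a j).eval v = _
      rw [hw, hw, Car.mul_def, Car.mul_hi_hi]
    rw [e] at this
    simp only [Car.lo.injEq] at this
    obtain ⟨z1, z2, t1, t2, hF'⟩ := Car.prod_eq_some.mp this
    simp only [Option.some.injEq] at t1 t2
    rw [t1, t2]
    exact hF'

lemma GT_good : Good S (GT h) := by
  rintro p hp ⟨i, k, hi, hk, hF⟩
  choose a ha using fun x => (i x).2
  choose c hc using fun x => (k x).2
  have hE : ∀ x y, Eqv T (.mul (a x) (a y)) (c (x + y)) := by
    intro x y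
    obtain ⟨a', b', f1, f2, f3⟩ := hF x y
    rw [← (ha x).1, mk_eq] at f1
    rw [← (ha y).1, mk_eq] at f2
    rw [← (hc (x + y)).1, mk_eq] at f3
    exact h.eqv_trans (h.eqv_mul (eqv_symm f1) (eqv_symm f2)) f3
  refine no_pattern h hp a (fun x => (ha x).2) ?_ ?_ ?_
  · intro x y
    rw [h.kd_congr (hE x y)]
    exact (hc _).2
  · intro x y hxy
    apply hi
    apply Subtype.ext
    rw [← (ha x).1, ← (ha y).1]
    exact (mk_eq h).mpr hxy
  · intro x y z t
    constructor
    · intro he
      apply hk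
      apply Subtype.ext
      rw [← (hc (x + y)).1, ← (hc (z + t)).1, mk_eq]
      exact h.eqv_trans (eqv_symm (hE x y)) (h.eqv_trans he (hE z t))
    · intro he
      have h1 := hE x y
      have h2 := hE z t
      rw [he] at h1
      exact h.eqv_trans h1 (eqv_symm h2)

/-- representation of prime theories -/
theorem Prime.rep : ∃ (G : Gr) (v : ℕ → Car G), Good S G ∧ (∀ a, a.eval v = 1 ↔ a ∈ T) ∧
    (∀ w, ∃ a : Fm, a.eval v = Car.hi (some w)) ∧ (∀ c, ∃ a : Fm, a.eval v = Car.lo (some c)) := by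
  refine ⟨GT h, fun n => hT h (.var n), GT_good h, ?_, ?_, ?_⟩
  · intro a
    rw [hT_eval, hT_one_iff]
  · rintro ⟨q, a, hq, ha⟩
    refine ⟨a, ?_⟩
    rw [hT_eval, hT_x h ha]
    subst hq
    rfl
  · rintro ⟨q, a, hq, ha⟩
    refine ⟨a, ?_⟩
    rw [hT_eval, hT_y h ha]
    subst hq
    rfl

end rep

end Pool.Agent.Helper79.Dip
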