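import Pool.Agent.Helper79.DipAlg

set_option autoImplicit false

namespace Pool.Agent.Helper79.Dip

section general
variable {A : Type} [FLewAlgebra A]

lemma res_eq_one {a b : A} : FLewAlgebra.res a b = 1 ↔ a ≤ b := by
  constructor
  · intro h
    have : (1 : A) ≤ FLewAlgebra.res a b := h.ge
    rw [← FLewAlgebra.residuation, mul_one] at this
    exact this
  · intro h
    apply le_antisymm (FLewAlgebra.le_one _)
    rw [← FLewAlgebra.residuation, mul_one]
    exact h

lemma eval_imp_one {v : ℕ → A} {a b : Fm} :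
    (Fm.imp a b).eval v = 1 ↔ a.eval v ≤ b.eval v := res_eq_one

lemma one_res {a : A} : FLewAlgebra.res 1 a = a := by
  apply le_antisymm
  · have h : (1 : A) * FLewAlgebra.res 1 a ≤ a := by rw [FLewAlgebra.residuation]
    rwa [one_mul] at h
  · rw [← FLewAlgebra.residuation, one_mul]

lemma eq_one_of_imp {v : ℕ → A} {a b : Fm} (h1 : a.eval v = 1) (h2 : (Fm.imp a b).eval v = 1) :
    b.eval v = 1 := by
  rw [eval_imp_one, h1] at h2
  exact le_antisymm (FLewAlgebra.le_one _) h2

lemma eval_inf_one {v : ℕ → A} {a b : Fm} :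
    (Fm.inf a b).eval v = 1 ↔ a.eval v = 1 ∧ b.eval v = 1 := by
  show a.eval v ⊓ b.eval v = 1 ↔ _
  constructor
  · intro h
    exact ⟨le_antisymm (FLewAlgebra.le_one _) (h ▸ inf_le_left),
      le_antisymm (FLewAlgebra.le_one _) (h ▸ inf_le_right)⟩
  · rintro ⟨h1, h2⟩
    rw [h1, h2, inf_idem]

end general

lemma eval_subst {A : Type} [FLewAlgebra A] (v : ℕ → A) (s : ℕ → Fm) (a : Fm) :
    (a.subst s).eval v = a.eval (fun n => (s n).eval v) := by
  induction a with
  | var n => rfl
  | inf a b iha ihb => simp only [Fm.subst, Fm.eval, iha, ihb]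
  | sup a b iha ihb => simp only [Fm.subst, Fm.eval, iha, ihb]
  | mul a b iha ihb => simp only [Fm.subst, Fm.eval, iha, ihb]
  | imp a b iha ihb => simp only [Fm.subst, Fm.eval, iha, ihb]
  | e => rfl
  | f => rfl

lemma eval_congr {A : Type} [FLewAlgebra A] {v w : ℕ → A} (a : Fm)
    (h : ∀ n ∈ a.vars, v n = w n) : a.eval v = a.eval w := by
  induction a with
  | var n => exact h n rfl
  | inf a b iha ihb =>
    simp only [Fm.eval, iha (fun n hn => h n (Or.inl hn)), ihb (fun n hn => h n (Or.inr hn))]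
  | sup a b iha ihb =>
    simp only [Fm.eval, iha (fun n hn => h n (Or.inl hn)), ihb (fun n hn => h n (Or.inr hn))]
  | mul a b iha ihb =>
    simp only [Fm.eval, iha (fun n hn => h n (Or.inl hn)), ihb (fun n hn => h n (Or.inr hn))]
  | imp a b iha ihb =>
    simp only [Fm.eval, iha (fun n hn => h n (Or.inl hn)), ihb (fun n hn => h n (Or.inr hn))]
  | e => rfl
  | f => rfl

/-- the pattern of the prime p -/
def Gr.Has (G : Gr) (p : ℕ) : Prop :=
  ∃ (i : ZMod p → G.V) (k : ZMod p → G.Y), Function.Injective i ∧ Function.Injective k ∧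
    ∀ x y, G.F (i x) (i y) (k (x + y))

def Good (S : Set Nat.Primes) (G : Gr) : Prop := ∀ p ∈ S, ¬ G.Has p

def AxS (S : Set Nat.Primes) : Set Fm :=
  {a | ∀ G : Gr, Good S G → ∀ v : ℕ → Car G, a.eval v = 1}

def LS (S : Set Nat.Primes) (Γ : Set Fm) (p : Fm) : Prop := FLew (Γ ∪ AxS S) p

lemma AxS_subst (S : Set Nat.Primes) : ∀ a ∈ AxS S, ∀ s : ℕ → Fm, a.subst s ∈ AxS S := by
  intro a ha s G hG v
  rw [eval_subst]
  exact ha G hG _

namespace Fm
def neg (a : Fm) : Fm := imp a f
def del (a : Fm) : Fm := mul a (mul a a)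
lemma vars_neg (a : Fm) : (neg a).vars = a.vars := by simp [neg, vars]
lemma vars_del (a : Fm) : (del a).vars = a.vars := by simp [del, vars]
end Fm

section car
variable {G : Gr} {v : ℕ → Car G}

lemma eval_del_one {a : Fm} (h : a.eval v = 1) : a.del.eval v = 1 := by
  simp only [Fm.del, Fm.eval, h, mul_one]

lemma eval_del_zero {a : Fm} (h : a.eval v ≠ 1) : a.del.eval v = Car.zero := by
  simp only [Fm.del, Fm.eval]
  rcases hx : a.eval v with _ | p | p | _
  · exact absurd hx h
  · simp only [Car.mul_def, Car.mul_hi_hi, Car.mul_hi_lo]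
  · simp only [Car.mul_def, Car.mul_lo_lo, Car.mul_lo_zero]
  · simp only [Car.mul_def, Car.mul_zero_zero]

lemma eval_neg_one {a : Fm} : a.neg.eval v = 1 ↔ a.eval v = Car.zero := by
  unfold Fm.neg
  rw [eval_imp_one]
  show a.eval v ≤ FLewAlgebra.zero ↔ _
  constructor
  · intro h; exact le_antisymm h (FLewAlgebra.zero_le _)
  · intro h; rw [h]; exact le_refl _

lemma eval_neg_of_one {a : Fm} (h : a.eval v = 1) : a.neg.eval v = Car.zero := by
  simp only [Fm.neg, Fm.eval, h, one_res]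
  rfl

lemma one_ne_zero' : (1 : Car G) ≠ Car.zero := by
  intro h; exact absurd h (by rw [Car.one_def]; simp)

lemma eval_neg_del {a : Fm} : a.del.neg.eval v = 1 ↔ a.eval v ≠ 1 := by
  rw [eval_neg_one]
  constructor
  · intro h h'
    rw [eval_del_one h'] at h
    exact one_ne_zero' h
  · exact eval_del_zero

end car

/-- two-valued formulas -/
def TwoVal (t : Fm) : Prop := ∀ (G : Gr) (v : ℕ → Car G), t.eval v = 1 ∨ t.eval v = Car.zero

lemma twoVal_del (a : Fm) : TwoVal a.del := by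
  intro G v
  by_cases h : a.eval v = 1
  · exact Or.inl (eval_del_one h)
  · exact Or.inr (eval_del_zero h)

lemma twoVal_neg {t : Fm} (h : TwoVal t) : TwoVal t.neg := by
  intro G v
  rcases h G v with h | h
  · exact Or.inr (eval_neg_of_one h)
  · exact Or.inl (eval_neg_one.mpr h)

structure IsTh (S : Set Nat.Primes) (T : Set Fm) : Prop where
  ax : AxS S ⊆ T
  mp : ∀ {a b : Fm}, a ∈ T → Fm.imp a b ∈ T → b ∈ T

lemma mem_AxS_imp {S : Set Nat.Primes} {a b : Fm}
    (h : ∀ (G : Gr) (v : ℕ → Car G), Good S G → a.eval v ≤ b.eval v) : Fm.imp a b ∈ AxS S := by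
  intro G hG v
  rw [eval_imp_one]
  exact h G v hG

lemma mul_le_left' {A : Type} [FLewAlgebra A] (a b : A) : a * b ≤ a := by
  rw [FLewAlgebra.residuation, res_eq_one.mpr (le_refl a)]
  exact FLewAlgebra.le_one _

lemma mul_le_right' {A : Type} [FLewAlgebra A] (a b : A) : a * b ≤ b := by
  rw [mul_comm]; exact mul_le_left' b a

lemma IsTh.inf {S : Set Nat.Primes} {T : Set Fm} (h : IsTh S T) {a b : Fm} (ha : a ∈ T)
    (hb : b ∈ T) : Fm.inf a b ∈ T := by
  have h1 : Fm.imp a (Fm.imp b (Fm.inf a b)) ∈ AxS S := by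
    apply mem_AxS_imp
    intro G v _
    show a.eval v ≤ FLewAlgebra.res (b.eval v) (a.eval v ⊓ b.eval v)
    rw [← FLewAlgebra.residuation]
    exact le_inf (mul_le_right' _ _) (mul_le_left' _ _)
  exact h.mp hb (h.mp ha (h.ax h1))

lemma IsTh.mul {S : Set Nat.Primes} {T : Set Fm} (h : IsTh S T) {a b : Fm} (ha : a ∈ T)
    (hb : b ∈ T) : Fm.mul a b ∈ T := by
  have h1 : Fm.imp a (Fm.imp b (Fm.mul a b)) ∈ AxS S := by
    apply mem_AxS_imp
    intro G v _
    show a.eval v ≤ FLewAlgebra.res (b.eval v) (a.eval v * b.eval v)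
    rw [← FLewAlgebra.residuation, mul_comm]
  exact h.mp hb (h.mp ha (h.ax h1))

lemma IsTh.del {S : Set Nat.Primes} {T : Set Fm} (h : IsTh S T) {a : Fm} (ha : a ∈ T) :
    a.del ∈ T := h.mul ha (h.mul ha ha)

lemma IsTh.weak {S : Set Nat.Primes} {T : Set Fm} (h : IsTh S T) {a b : Fm} (ha : a ∈ T) :
    Fm.imp b a ∈ T := by
  have h1 : Fm.imp a (Fm.imp b a) ∈ AxS S := by
    apply mem_AxS_imp
    intro G v _
    show a.eval v ≤ FLewAlgebra.res (b.eval v) (a.eval v)
    rw [← FLewAlgebra.residuation]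
    exact mul_le_right' _ _
  exact h.mp ha (h.ax h1)

lemma IsTh.ext {S : Set Nat.Primes} {T : Set Fm} (h : IsTh S T) {t : Fm} (ht : TwoVal t) :
    IsTh S {b | Fm.imp t b ∈ T} := by
  constructor
  · intro a ha
    exact h.weak (h.ax ha)
  · intro a b ha hab
    have h1 : Fm.imp (Fm.imp t a) (Fm.imp (Fm.imp t (Fm.imp a b)) (Fm.imp t b)) ∈ AxS S := by
      apply mem_AxS_imp
      intro G v _
      rcases ht G v with h1 | h1
      · simp only [Fm.eval, h1, one_res]
        rw [← FLewAlgebra.residuation, mul_comm, FLewAlgebra.residuation]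
      · have e1 : (Fm.imp t b).eval v = 1 := by
          rw [eval_imp_one, h1]; exact FLewAlgebra.zero_le _
        have e2 : (Fm.imp (Fm.imp t (Fm.imp a b)) (Fm.imp t b)).eval v = 1 := by
          rw [eval_imp_one, e1]; exact FLewAlgebra.le_one _
        rw [e2]; exact FLewAlgebra.le_one _
    exact h.mp hab (h.mp ha (h.ax h1))

structure Prime (S : Set Nat.Primes) (T : Set Fm) : Prop extends IsTh S T where
  dich : ∀ a : Fm, a ∈ T ∨ a.del.neg ∈ T
  cons : Fm.f ∉ T

lemma Prime.not_both {S : Set Nat.Primes} {T : Set Fm} (h : Prime S T) {a : Fm} (h1 : a ∈ T)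
    (h2 : a.del.neg ∈ T) : False := h.cons (h.mp (h.toIsTh.del h1) h2)

lemma exists_prime {S : Set Nat.Primes} {T0 : Set Fm} (h0 : IsTh S T0) {p : Fm} (hp : p ∉ T0) :
    ∃ T, Prime S T ∧ T0 ⊆ T ∧ p ∉ T := by
  obtain ⟨T, hT0, hmax⟩ := zorn_subset_nonempty {T : Set Fm | IsTh S T ∧ p ∉ T} (by
    intro c hc hchain hne
    refine ⟨⋃₀ c, ⟨⟨?_, ?_⟩, ?_⟩, ?_⟩
    · obtain ⟨T, hT⟩ := hne
      exact (hc hT).1.ax.trans (Set.subset_sUnion_of_mem hT)
    · rintro a b ⟨T1, hT1, ha⟩ ⟨T2, hT2, hab⟩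
      rcases hchain.total hT1 hT2 with h | h
      · exact ⟨T2, hT2, (hc hT2).1.mp (h ha) hab⟩
      · exact ⟨T1, hT1, (hc hT1).1.mp ha (h hab)⟩
    · rintro ⟨T, hT, hpT⟩
      exact (hc hT).2 hpT
    · intro T hT
      exact Set.subset_sUnion_of_mem hT) T0 ⟨h0, hp⟩
  have hTh : IsTh S T := hmax.prop.1
  have hpT : p ∉ T := hmax.prop.2
  have key : ∀ t : Fm, TwoVal t → t ∈ {b | Fm.imp t b ∈ T} := by
    intro t _
    apply hTh.ax
    exact mem_AxS_imp fun G v _ => le_refl _
  have key2 : ∀ t : Fm, TwoVal t → t ∉ T → Fm.imp t p ∈ T := by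
    intro t ht htT
    by_contra hc
    have hle : T ⊆ {b | Fm.imp t b ∈ T} := fun b hb => hTh.weak hb
    have := hmax.le_of_ge (y := {b | Fm.imp t b ∈ T}) ⟨hTh.ext ht, hc⟩ hle
    exact htT (this (key t ht))
  refine ⟨T, ⟨hTh, ?_, ?_⟩, hT0, hpT⟩
  · intro a
    by_contra hc
    push Not at hc
    obtain ⟨h1, h2⟩ := hc
    have h3 : a.del ∉ T := by
      intro h
      apply h1
      refine hTh.mp h (hTh.ax ?_)
      exact mem_AxS_imp fun G v _ => mul_le_left' _ _
    have h4 := key2 _ (twoVal_del a) h3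
    have h5 := key2 _ (twoVal_neg (twoVal_del a)) h2
    have h6 : Fm.imp (Fm.imp a.del p) (Fm.imp (Fm.imp a.del.neg p) p) ∈ AxS S := by
      apply mem_AxS_imp
      intro G v _
      rcases twoVal_del a G v with h | h
      · have e1 : (Fm.imp a.del p).eval v = p.eval v := by
          simp only [Fm.eval, h, one_res]
        rw [e1]
        show p.eval v ≤ FLewAlgebra.res _ _
        rw [← FLewAlgebra.residuation]
        exact mul_le_right' _ _
      · have e0 : a.del.neg.eval v = 1 := eval_neg_one.mpr h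
        have e1 : (Fm.imp a.del.neg p).eval v = p.eval v := by
          simp only [Fm.eval, e0, one_res]
        have e2 : (Fm.imp (Fm.imp a.del.neg p) p).eval v = 1 := by
          rw [eval_imp_one, e1]
        rw [e2]; exact FLewAlgebra.le_one _
    exact hpT (hTh.mp h5 (hTh.mp h4 (hTh.ax h6)))
  · intro hf
    apply hpT
    refine hTh.mp hf (hTh.ax ?_)
    exact mem_AxS_imp fun G v _ => FLewAlgebra.zero_le _

/-- the set of formulas true under a valuation into a model of the axioms is a theory -/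
lemma isTh_of_model {S : Set Nat.Primes} {A : Type} [FLewAlgebra A] {v : ℕ → A}
    (h : ∀ a ∈ AxS S, a.eval v = 1) : IsTh S {a | a.eval v = 1} :=
  ⟨h, fun ha hab => eq_one_of_imp ha hab⟩

/-- finite approximation -/
lemma Prime.approx {S : Set Nat.Primes} {T : Set Fm} (h : Prime S T) (l : List Fm) :
    ∃ (G : Gr) (_ : Good S G) (v : ℕ → Car G), ∀ a ∈ l, (a.eval v = 1 ↔ a ∈ T) := by
  classical
  by_contra hcon
  push Not at hcon
  set g : Fm → Fm := fun a => if a ∈ T then a else a.del.neg with hg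
  set al : Fm := (l.map g).foldr Fm.inf Fm.e with hal
  have h1 : al ∈ T := by
    rw [hal]
    clear hcon hal al
    induction l with
    | nil => exact h.ax (fun G _ v => rfl)
    | cons a l ih =>
      simp only [List.map_cons, List.foldr_cons]
      refine h.toIsTh.inf ?_ ih
      simp only [hg]
      split_ifs with ha
      · exact ha
      · exact (h.dich a).resolve_left ha
  have h2 : ∀ (G : Gr) (v : ℕ → Car G), al.eval v = 1 → ∀ a ∈ l, (g a).eval v = 1 := by
    intro G v
    rw [hal]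
    clear hcon hal al h1
    induction l with
    | nil => simp
    | cons a l ih =>
      simp only [List.map_cons, List.foldr_cons]
      rw [eval_inf_one]
      rintro ⟨e1, e2⟩ b hb
      rcases List.mem_cons.mp hb with rfl | hb
      · exact e1
      · exact ih e2 b hb
  have h3 : al.del.neg ∈ AxS S := by
    intro G hG v
    rw [eval_neg_del]
    intro he
    obtain ⟨a, ha, hne⟩ := hcon G hG v
    have := h2 G v he a ha
    simp only [hg] at this
    rcases hne with ⟨e1, e2⟩ | ⟨e1, e2⟩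
    · rw [if_neg e2, eval_neg_del] at this
      exact this e1
    · rw [if_pos e2] at this
      exact e1 this
  exact h.not_both h1 (h.ax h3)

/-- equivalence of formulas modulo a theory -/
def Eqv (T : Set Fm) (a b : Fm) : Prop := Fm.imp a b ∈ T ∧ Fm.imp b a ∈ T

lemma Prime.approxEq {S : Set Nat.Primes} {T : Set Fm} (h : Prime S T) (l : List Fm) :
    ∃ (G : Gr) (_ : Good S G) (v : ℕ → Car G), ∀ a ∈ l, ∀ b ∈ l, (a.eval v = b.eval v ↔ Eqv T a b) := by
  obtain ⟨G, hG, v, hv⟩ := h.approx (l.flatMap fun a => l.map fun b => Fm.imp a b)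
  refine ⟨G, hG, v, ?_⟩
  intro a ha b hb
  have m1 : Fm.imp a b ∈ (l.flatMap fun a => l.map fun b => Fm.imp a b) := by
    rw [List.mem_flatMap]
    exact ⟨a, ha, List.mem_map_of_mem hb⟩
  have m2 : Fm.imp b a ∈ (l.flatMap fun a => l.map fun b => Fm.imp a b) := by
    rw [List.mem_flatMap]
    exact ⟨b, hb, List.mem_map_of_mem ha⟩
  unfold Eqv
  rw [← hv _ m1, ← hv _ m2, eval_imp_one, eval_imp_one]
  exact ⟨fun e => ⟨e.le, e.ge⟩, fun e => le_antisymm e.1 e.2⟩

end Pool.Agent.Helper79.Dip
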