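import Pool.Agent.Helper79.MinkModel

set_option autoImplicit false

namespace Pool.Agent.Helper79.Mink

inductive Fml : Type
  | atom : ℕ → Fml
  | neg : Fml → Fml
  | conj : Fml → Fml → Fml
  | fut : Fml → Fml
  | past : Fml → Fml

def ev {W : Type} (R : W → W → Prop) (v : ℕ → Set W) : Fml → Set W
  | .atom k => v k
  | .neg a => (ev R v a)ᶜ
  | .conj a b => ev R v a ∩ ev R v b
  | .fut a => {x | ∃ y ∈ ev R v a, R x y}
  | .past a => {x | ∃ y ∈ ev R v a, R y x}

namespace Fml

def imp (a b : Fml) : Fml := neg (conj a (neg b))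
def disj (a b : Fml) : Fml := neg (conj (neg a) (neg b))
def top : Fml := neg (conj (atom 0) (neg (atom 0)))
def dia (b : Bool) (a : Fml) : Fml := if b then fut a else past a
def box (b : Bool) (a : Fml) : Fml := neg (dia b (neg a))
def allI (f : Fin 4 → Fml) : Fml := conj (conj (f 0) (f 1)) (conj (f 2) (f 3))
def anyI (f : Fin 4 → Fml) : Fml := disj (disj (f 0) (f 1)) (disj (f 2) (f 3))
def all (a : Fml) : Fml := neg (fut (past (neg a)))
def ex (a : Fml) : Fml := fut (past a)

end Fml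

section sem
variable {W : Type} (R : W → W → Prop) (v : ℕ → Set W)

/-- direction of the relation -/
def Rb (b : Bool) (x y : W) : Prop := if b then R x y else R y x

@[simp] lemma mem_atom (k : ℕ) (x : W) : x ∈ ev R v (.atom k) ↔ x ∈ v k := Iff.rfl

@[simp] lemma mem_neg (a : Fml) (x : W) : x ∈ ev R v a.neg ↔ x ∉ ev R v a := Iff.rfl

@[simp] lemma mem_conj (a b : Fml) (x : W) :
    x ∈ ev R v (a.conj b) ↔ x ∈ ev R v a ∧ x ∈ ev R v b := Iff.rfl

lemma mem_fut (a : Fml) (x : W) : x ∈ ev R v a.fut ↔ ∃ y ∈ ev R v a, R x y := Iff.rfl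

lemma mem_past (a : Fml) (x : W) : x ∈ ev R v a.past ↔ ∃ y ∈ ev R v a, R y x := Iff.rfl

@[simp] lemma mem_imp (a b : Fml) (x : W) :
    x ∈ ev R v (a.imp b) ↔ (x ∈ ev R v a → x ∈ ev R v b) := by
  simp [Fml.imp]

@[simp] lemma mem_disj (a b : Fml) (x : W) :
    x ∈ ev R v (a.disj b) ↔ (x ∈ ev R v a ∨ x ∈ ev R v b) := by
  simp only [Fml.disj, mem_neg, mem_conj]; tauto

@[simp] lemma mem_top (x : W) : x ∈ ev R v Fml.top := by
  simp [Fml.top]

@[simp] lemma mem_dia (b : Bool) (a : Fml) (x : W) :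
    x ∈ ev R v (Fml.dia b a) ↔ ∃ y ∈ ev R v a, Rb R b x y := by
  cases b <;> simp [Fml.dia, Rb, mem_fut, mem_past]

@[simp] lemma mem_box (b : Bool) (a : Fml) (x : W) :
    x ∈ ev R v (Fml.box b a) ↔ ∀ y, Rb R b x y → y ∈ ev R v a := by
  simp only [Fml.box, mem_neg, mem_dia]
  push Not
  constructor
  · intro h y hy
    by_contra hc
    exact h y hc hy
  · intro h y hy hR
    exact hy (h y hR)

@[simp] lemma mem_allI (f : Fin 4 → Fml) (x : W) :
    x ∈ ev R v (Fml.allI f) ↔ ∀ i, x ∈ ev R v (f i) := by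
  simp only [Fml.allI, mem_conj]
  constructor
  · rintro ⟨⟨h0, h1⟩, h2, h3⟩ i
    fin_cases i <;> assumption
  · intro h
    exact ⟨⟨h 0, h 1⟩, h 2, h 3⟩

@[simp] lemma mem_anyI (f : Fin 4 → Fml) (x : W) :
    x ∈ ev R v (Fml.anyI f) ↔ ∃ i, x ∈ ev R v (f i) := by
  simp only [Fml.anyI, mem_disj]
  constructor
  · rintro ((h | h) | (h | h))
    exacts [⟨_, h⟩, ⟨_, h⟩, ⟨_, h⟩, ⟨_, h⟩]
  · rintro ⟨i, h⟩
    fin_cases i
    · exact Or.inl (Or.inl h)
    · exact Or.inl (Or.inr h)
    · exact Or.inr (Or.inl h)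
    · exact Or.inr (Or.inr h)

lemma mem_ite (p : Prop) [Decidable p] (a : Fml) (x : W) :
    x ∈ ev R v (if p then Fml.top else a) ↔ (¬ p → x ∈ ev R v a) := by
  by_cases hp : p
  · simp [hp]
  · simp [hp]

end sem

open Fml in
/-- local formula for one half -/
def half (b : Bool) (n d : Fml) (c : Fin 4 → Fml) : Fml :=
  conj (imp n (neg (dia b n))) <|
  conj (allI fun i => if i = 3 then top else imp n (dia b (c i))) <|
  conj (allI fun i => allI fun j => if i = j then top else imp (c i) (neg (dia b (c j)))) <|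
  conj (allI fun i => allI fun j => if i = j then top else imp (c i) (neg (c j))) <|
  conj (allI fun i => imp d (neg (dia b (c i)))) <|
  conj (imp n (box b (disj d (anyI c)))) <|
  conj (allI fun i => imp (c i) (dia (!b) n)) <|
  conj (imp d (dia (!b) d)) <|
  conj (imp d (dia (!b) (c 0))) <|
  conj (imp d (dia (!b) (c 1))) <|
  (allI fun i => if i = 3 then top else imp (c i) (dia b (c i)))

lemma half_iff {W : Type} (R : W → W → Prop) (v : ℕ → Set W) (b : Bool) (n d : Fml)
    (c : Fin 4 → Fml) :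
    (∀ x, x ∈ ev R v (half b n d c)) ↔
      Cond (Rb R b) (ev R v n) (fun i => ev R v (c i)) (ev R v d) := by
  have hflip : ∀ x y : W, Rb R (!b) x y ↔ Rb R b y x := by
    intro x y; cases b <;> simp [Rb]
  simp only [half, mem_conj, mem_allI, mem_ite, mem_imp, mem_neg, mem_dia, mem_box, mem_disj,
    mem_anyI, hflip]
  constructor
  · intro h
    constructor
    · intro x hx y hy hxy
      exact (h x).1 hx ⟨y, hy, hxy⟩
    · intro x hx i hi
      exact (h x).2.1 i hi hx
    · intro i j hij x hx y hy hxy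
      exact (h x).2.2.1 i j hij hx ⟨y, hy, hxy⟩
    · intro i j hij x hx
      exact (h x).2.2.2.1 i j hij hx
    · intro i x hx y hy hxy
      exact (h x).2.2.2.2.1 i hx ⟨y, hy, hxy⟩
    · intro x hx y hxy
      exact (h x).2.2.2.2.2.1 hx y hxy
    · intro i y hy
      exact (h y).2.2.2.2.2.2.1 i hy
    · intro y hy
      exact (h y).2.2.2.2.2.2.2.1 hy
    · intro y hy
      exact (h y).2.2.2.2.2.2.2.2.1 hy
    · intro y hy
      exact (h y).2.2.2.2.2.2.2.2.2.1 hy
    · intro i hi y hy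
      exact (h y).2.2.2.2.2.2.2.2.2.2 i hi hy
  · intro h x
    refine ⟨?_, ?_, ?_, ?_, ?_, ?_, ?_, ?_, ?_, ?_, ?_⟩
    · rintro hx ⟨y, hy, hxy⟩
      exact h.anti x hx y hy hxy
    · intro i hi hx
      exact h.hasC x hx i hi
    · rintro i j hij hx ⟨y, hy, hxy⟩
      exact h.sep i j hij x hx y hy hxy
    · intro i j hij hx
      exact h.disj i j hij x hx
    · rintro i hx ⟨y, hy, hxy⟩
      exact h.sepD i x hx y hy hxy
    · intro hx y hxy
      exact h.cover x hx y hxy
    · intro i hx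
      exact h.above i x hx
    · intro hx
      exact h.dd x hx
    · intro hx
      exact h.d0 x hx
    · intro hx
      exact h.d1 x hx
    · intro i hi hx
      exact h.cont i hi x hx

open Fml in
/-- local linking formula -/
def lnk (n : Fml) (c c' w : Fin 4 → Fml) : Fml :=
  conj (allI fun i => if i = 3 then top else imp (c' i) (box true (w i)))
    (allI fun i => if i = 3 then top else
      imp (c i) (box false (imp (w i) (disj n (disj (c i) (c' i))))))

lemma lnk_iff {W : Type} (R : W → W → Prop) (v : ℕ → Set W) (n : Fml)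
    (c c' w : Fin 4 → Fml) :
    (∀ x, x ∈ ev R v (lnk n c c' w)) ↔
      Link R (ev R v n) (fun i => ev R v (c i)) (fun i => ev R v (c' i)) (fun i => ev R v (w i)) := by
  simp only [lnk, mem_conj, mem_allI, mem_ite, mem_imp, mem_box, mem_disj]
  constructor
  · intro h
    constructor
    · intro i hi x hx y hxy
      exact (h x).1 i hi hx y hxy
    · intro i hi y hy x hxy hV
      exact (h y).2 i hi hy x hxy hV
  · intro h x
    constructor
    · intro i hi hx y hxy
      exact h.w1 i hi x hx y hxy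
    · intro i hi hx y hxy hV
      exact h.w2 i hi x hx y hxy hV

/-- the atoms -/
def an : Fml := .atom 0
def ac (i : Fin 4) : Fml := .atom (1 + i.val)
def ad : Fml := .atom 5
def ac' (i : Fin 4) : Fml := .atom (6 + i.val)
def ad' : Fml := .atom 10
def aw (i : Fin 4) : Fml := .atom (11 + i.val)
def ar : Fml := .atom 15

open Fml in
/-- the distinguishing formula -/
def phi : Fml :=
  conj (all (conj (half true an ad ac) (conj (half false an ad' ac') (lnk an ac ac' aw))))
    (conj (ex (conj an ar)) (ex (conj an (neg ar))))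

lemma mem_all {W : Type} (R : W → W → Prop) (hd : ∀ x y : W, ∃ z, R x z ∧ R y z)
    (v : ℕ → Set W) (a : Fml) (x : W) : x ∈ ev R v (Fml.all a) ↔ ∀ y, y ∈ ev R v a := by
  simp only [Fml.all, mem_neg, mem_fut, mem_past]
  push Not
  constructor
  · intro h y
    by_contra hy
    obtain ⟨z, hxz, hyz⟩ := hd x y
    exact h z ⟨y, hy, hyz⟩ hxz
  · rintro h z ⟨y, hy, -⟩ -
    exact hy (h y)

lemma mem_ex {W : Type} (R : W → W → Prop) (hd : ∀ x y : W, ∃ z, R x z ∧ R y z)
    (v : ℕ → Set W) (a : Fml) (x : W) : x ∈ ev R v (Fml.ex a) ↔ ∃ y, y ∈ ev R v a := by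
  simp only [Fml.ex, mem_fut, mem_past]
  constructor
  · rintro ⟨z, ⟨y, hy, -⟩, -⟩
    exact ⟨y, hy⟩
  · rintro ⟨y, hy⟩
    obtain ⟨z, hxz, hyz⟩ := hd x y
    exact ⟨z, ⟨y, hy, hyz⟩, hxz⟩

lemma phi_iff {W : Type} (R : W → W → Prop) (hd : ∀ x y : W, ∃ z, R x z ∧ R y z)
    (v : ℕ → Set W) (x : W) : x ∈ ev R v phi ↔
      (Cond R (v 0) (fun i => v (1 + i.val)) (v 5) ∧
       Cond (fun x y => R y x) (v 0) (fun i => v (6 + i.val)) (v 10) ∧
       Link R (v 0) (fun i => v (1 + i.val)) (fun i => v (6 + i.val)) (fun i => v (11 + i.val))) ∧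
      (∃ y, y ∈ v 0 ∧ y ∈ v 15) ∧ (∃ y, y ∈ v 0 ∧ y ∉ v 15) := by
  unfold phi
  rw [mem_conj, mem_all R hd, mem_conj, mem_ex R hd, mem_ex R hd]
  have h1 : (∀ y, y ∈ ev R v (Fml.conj (half true an ad ac)
      (Fml.conj (half false an ad' ac') (lnk an ac ac' aw)))) ↔
      (∀ y, y ∈ ev R v (half true an ad ac)) ∧ (∀ y, y ∈ ev R v (half false an ad' ac')) ∧
      (∀ y, y ∈ ev R v (lnk an ac ac' aw)) := by
    simp only [mem_conj]
    exact ⟨fun h => ⟨fun y => (h y).1, fun y => (h y).2.1, fun y => (h y).2.2⟩,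
      fun h y => ⟨h.1 y, h.2.1 y, h.2.2 y⟩⟩
  rw [h1, half_iff, half_iff, lnk_iff]
  have e1 : Rb R true = R := by funext x y; simp [Rb]
  have e2 : Rb R false = fun x y => R y x := by funext x y; simp [Rb]
  rw [e1, e2]
  rfl

end Pool.Agent.Helper79.Mink
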