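import Mathlib

set_option autoImplicit false

namespace Pool.Agent.Helper79.Mink

/-- Lorentz bilinear form on 2+1 coordinates. -/
def B (u v : Fin 3 → ℝ) : ℝ := u 0 * v 0 - u 1 * v 1 - u 2 * v 2

/-- future causal vector -/
def Cau (u : Fin 3 → ℝ) : Prop := 0 < u 0 ∧ 0 ≤ B u u

/-- future timelike vector -/
def Tim (u : Fin 3 → ℝ) : Prop := 0 < u 0 ∧ 0 < B u u

lemma Tim.cau {u : Fin 3 → ℝ} (h : Tim u) : Cau u := ⟨h.1, h.2.le⟩

lemma B_nonneg {u v : Fin 3 → ℝ} (hu : Cau u) (hv : Cau v) : 0 ≤ B u v := by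
  obtain ⟨hu0, hu1⟩ := hu
  obtain ⟨hv0, hv1⟩ := hv
  unfold B at *
  have h1 : (u 1 * v 1 + u 2 * v 2) ^ 2 ≤ (u 0 * v 0) ^ 2 := by
    have h2 : (u 1 * v 1 + u 2 * v 2) ^ 2 ≤ (u 1 ^ 2 + u 2 ^ 2) * (v 1 ^ 2 + v 2 ^ 2) := by
      nlinarith [sq_nonneg (u 1 * v 2 - u 2 * v 1)]
    have h3 : u 1 ^ 2 + u 2 ^ 2 ≤ u 0 ^ 2 := by nlinarith
    have h4 : v 1 ^ 2 + v 2 ^ 2 ≤ v 0 ^ 2 := by nlinarith
    have h5 : (u 1 ^ 2 + u 2 ^ 2) * (v 1 ^ 2 + v 2 ^ 2) ≤ u 0 ^ 2 * v 0 ^ 2 := by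
      apply mul_le_mul h3 h4 (by positivity) (by positivity)
    calc _ ≤ _ := h2
      _ ≤ _ := h5
      _ = _ := by ring
  have h6 := abs_le_of_sq_le_sq' h1 (by positivity)
  linarith [h6.2]

lemma B_add_self (u v : Fin 3 → ℝ) : B (u + v) (u + v) = B u u + B v v + 2 * B u v := by
  simp only [B, Pi.add_apply]; ring

lemma B_comm (u v : Fin 3 → ℝ) : B u v = B v u := by
  simp only [B]; ring

lemma B_smul_left (c : ℝ) (u v : Fin 3 → ℝ) : B (c • u) v = c * B u v := by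
  simp only [B, Pi.smul_apply, smul_eq_mul]; ring

lemma B_smul_right (c : ℝ) (u v : Fin 3 → ℝ) : B u (c • v) = c * B u v := by
  simp only [B, Pi.smul_apply, smul_eq_mul]; ring

lemma B_add_left (u v w : Fin 3 → ℝ) : B (u + v) w = B u w + B v w := by
  simp only [B, Pi.add_apply]; ring

lemma B_add_right (u v w : Fin 3 → ℝ) : B w (u + v) = B w u + B w v := by
  simp only [B, Pi.add_apply]; ring

lemma B_neg_left (u w : Fin 3 → ℝ) : B (-u) w = - B u w := by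
  simp only [B, Pi.neg_apply]; ring

lemma Cau.add {u v : Fin 3 → ℝ} (hu : Cau u) (hv : Cau v) : Cau (u + v) := by
  refine ⟨by simpa using add_pos hu.1 hv.1, ?_⟩
  rw [B_add_self]
  linarith [hu.2, hv.2, B_nonneg hu hv]

lemma Tim.add {u v : Fin 3 → ℝ} (hu : Tim u) (hv : Cau v) : Tim (u + v) := by
  refine ⟨by simpa using add_pos hu.1 hv.1, ?_⟩
  rw [B_add_self]
  linarith [hu.2, hv.2, B_nonneg hu.cau hv]

lemma Cau.add_tim {u v : Fin 3 → ℝ} (hu : Cau u) (hv : Tim v) : Tim (u + v) := by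
  rw [add_comm]; exact hv.add hu

lemma Cau.smul {u : Fin 3 → ℝ} (hu : Cau u) {c : ℝ} (hc : 0 < c) : Cau (c • u) := by
  refine ⟨by simpa using mul_pos hc hu.1, ?_⟩
  rw [B_smul_left, B_smul_right]
  have := hu.2
  positivity

lemma Tim.smul {u : Fin 3 → ℝ} (hu : Tim u) {c : ℝ} (hc : 0 < c) : Tim (c • u) := by
  refine ⟨by simpa using mul_pos hc hu.1, ?_⟩
  rw [B_smul_left, B_smul_right]
  have := hu.2
  positivity

/-- two causal vectors with zero product are parallel -/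
lemma parallel_of_B_zero {u v : Fin 3 → ℝ} (hu : Cau u) (_hv : Cau v) (huu : B u u = 0)
    (hvv : B v v = 0) (h : B u v = 0) : v = (v 0 / u 0) • u := by
  have hu0 := hu.1
  unfold B at *
  have key : (v 0 * u 1 - u 0 * v 1) ^ 2 + (v 0 * u 2 - u 0 * v 2) ^ 2 = 0 := by
    have e1 : u 1 ^ 2 + u 2 ^ 2 = u 0 ^ 2 := by nlinarith
    have e2 : v 1 ^ 2 + v 2 ^ 2 = v 0 ^ 2 := by nlinarith
    have e3 : u 1 * v 1 + u 2 * v 2 = u 0 * v 0 := by linarith
    have : (v 0 * u 1 - u 0 * v 1) ^ 2 + (v 0 * u 2 - u 0 * v 2) ^ 2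
        = v 0 ^ 2 * (u 1 ^ 2 + u 2 ^ 2) + u 0 ^ 2 * (v 1 ^ 2 + v 2 ^ 2)
          - 2 * u 0 * v 0 * (u 1 * v 1 + u 2 * v 2) := by ring
    rw [this, e1, e2, e3]; ring
  have k1 : v 0 * u 1 - u 0 * v 1 = 0 := by nlinarith [sq_nonneg (v 0 * u 1 - u 0 * v 1), sq_nonneg (v 0 * u 2 - u 0 * v 2)]
  have k2 : v 0 * u 2 - u 0 * v 2 = 0 := by nlinarith [sq_nonneg (v 0 * u 1 - u 0 * v 1), sq_nonneg (v 0 * u 2 - u 0 * v 2)]
  funext i
  fin_cases i
  · simp; field_simp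
  · simp; field_simp; linarith
  · simp; field_simp; linarith

/-- if a sum of two causal vectors is not timelike, they are null and parallel -/
lemma parallel_of_not_tim {u v : Fin 3 → ℝ} (hu : Cau u) (hv : Cau v) (h : ¬ Tim (u + v)) :
    B u u = 0 ∧ B v v = 0 ∧ B u v = 0 ∧ v = (v 0 / u 0) • u := by
  have h1 : B (u + v) (u + v) ≤ 0 := by
    by_contra hc
    exact h ⟨(hu.add hv).1, not_le.mp hc⟩
  rw [B_add_self] at h1
  have := B_nonneg hu hv
  have a1 := hu.2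
  have a2 := hv.2
  have e1 : B u u = 0 := by linarith
  have e2 : B v v = 0 := by linarith
  have e3 : B u v = 0 := by linarith
  exact ⟨e1, e2, e3, parallel_of_B_zero hu hv e1 e2 e3⟩

/-- the future light cone is open -/
lemma tim_eventually (u w : Fin 3 → ℝ) (h : Tim u) : ∀ᶠ s in nhds (0 : ℝ), Tim (u + s • w) := by
  have c0 : Continuous fun s : ℝ => (u + s • w) 0 := by
    simp only [Pi.add_apply, Pi.smul_apply, smul_eq_mul]; fun_prop
  have c1 : Continuous fun s : ℝ => B (u + s • w) (u + s • w) := by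
    simp only [B, Pi.add_apply, Pi.smul_apply, smul_eq_mul]; fun_prop
  have h0 : ∀ᶠ s in nhds (0 : ℝ), 0 < (u + s • w) 0 := by
    have := c0.continuousAt (x := (0:ℝ))
    exact this.eventually_const_lt (by simpa using h.1)
  have h1 : ∀ᶠ s in nhds (0 : ℝ), 0 < B (u + s • w) (u + s • w) := by
    have := c1.continuousAt (x := (0:ℝ))
    exact this.eventually_const_lt (by simpa using h.2)
  filter_upwards [h0, h1] with s a b
  exact ⟨a, b⟩

lemma exists_small {P : ℝ → Prop} (h : ∀ᶠ s in nhds (0 : ℝ), P s) (c : ℝ) (hc : 0 < c) :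
    ∃ s, 0 < s ∧ s < c ∧ P s := by
  have h2 : ∀ᶠ s in nhdsWithin (0:ℝ) (Set.Ioi 0), P s := h.filter_mono nhdsWithin_le_nhds
  have h3 : ∀ᶠ s in nhdsWithin (0:ℝ) (Set.Ioi 0), s ∈ Set.Ioo (0:ℝ) c := Ioo_mem_nhdsGT hc
  obtain ⟨s, hs, hs'⟩ := (h2.and h3).exists
  exact ⟨s, hs'.1, hs'.2, hs⟩

/-- three pairwise non parallel null vectors: only the zero vector is orthogonal to all -/
lemma eq_zero_of_three {c : Fin 3 → ℝ} (e : Fin 3 → (Fin 3 → ℝ)) (he : ∀ i, Cau (e i))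
    (hn : ∀ i, B (e i) (e i) = 0) (hp : ∀ i j, i ≠ j → B (e i) (e j) ≠ 0)
    (hc : ∀ i, B c (e i) = 0) : c = 0 := by
  -- normalise
  set f : Fin 3 → (Fin 3 → ℝ) := fun i => (1 / (e i 0)) • e i with hf
  have f0 : ∀ i, f i 0 = 1 := by
    intro i; simp only [hf, Pi.smul_apply, smul_eq_mul]; have := (he i).1; field_simp
  have fn : ∀ i, B (f i) (f i) = 0 := by
    intro i; simp only [hf]; rw [B_smul_left, B_smul_right, hn]; ring
  have fc : ∀ i, B c (f i) = 0 := by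
    intro i; simp only [hf]; rw [B_smul_right, hc]; ring
  have fp : ∀ i j, i ≠ j → B (f i) (f j) ≠ 0 := by
    intro i j hij; simp only [hf]; rw [B_smul_left, B_smul_right]
    have h1 := (he i).1
    have h2 := (he j).1
    have h3 := hp i j hij
    positivity
  have n1 : ∀ i, f i 1 ^ 2 + f i 2 ^ 2 = 1 := by
    intro i
    have h := fn i
    simp only [B, f0 i] at h
    linarith
  have n2 : ∀ i, c 1 * f i 1 + c 2 * f i 2 = c 0 := by
    intro i
    have h := fc i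
    simp only [B, f0 i] at h
    linarith
  have n3 : ∀ i j, i ≠ j → f i 1 * f j 1 + f i 2 * f j 2 ≠ 1 := by
    intro i j hij h
    apply fp i j hij
    simp only [B, f0 i, f0 j]
    linarith
  -- t i = - c2 p + c1 q
  set t : Fin 3 → ℝ := fun i => c 1 * f i 2 - c 2 * f i 1 with ht
  have tsq : ∀ i, t i ^ 2 = (c 1 ^ 2 + c 2 ^ 2) - c 0 ^ 2 := by
    intro i
    have h1 := n1 i
    have h2 := n2 i
    have : t i ^ 2 = (c 1 ^ 2 + c 2 ^ 2) * (f i 1 ^ 2 + f i 2 ^ 2) - (c 1 * f i 1 + c 2 * f i 2) ^ 2 := by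
      simp only [ht]; ring
    rw [this, h1, h2]; ring
  -- if t i = t j and (c1,c2) ≠ 0 then f i = f j
  have same : ∀ i j, i ≠ j → c 1 ^ 2 + c 2 ^ 2 ≠ 0 → t i ≠ t j := by
    intro i j hij hne htt
    apply n3 i j hij
    -- (c1^2+c2^2) * (f i . f j) = (c.f i)(c.f j) + t i * t j
    have h1 : (c 1 ^ 2 + c 2 ^ 2) * (f i 1 * f j 1 + f i 2 * f j 2)
        = (c 1 * f i 1 + c 2 * f i 2) * (c 1 * f j 1 + c 2 * f j 2) + t i * t j := by
      simp only [ht]; ring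
    rw [n2 i, n2 j, ← htt] at h1
    have h2 := tsq i
    have h3 : (c 1 ^ 2 + c 2 ^ 2) * (f i 1 * f j 1 + f i 2 * f j 2) = (c 1 ^ 2 + c 2 ^ 2) * 1 := by
      nlinarith
    exact mul_left_cancel₀ hne h3
  have hz : c 1 ^ 2 + c 2 ^ 2 = 0 := by
    by_contra hne
    have a01 := same 0 1 (by decide) hne
    have a02 := same 0 2 (by decide) hne
    have a12 := same 1 2 (by decide) hne
    have s01 : t 0 ^ 2 = t 1 ^ 2 := by rw [tsq, tsq]
    have s02 : t 0 ^ 2 = t 2 ^ 2 := by rw [tsq, tsq]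
    have b01 : t 0 = - t 1 := by
      rcases sq_eq_sq_iff_eq_or_eq_neg.mp s01 with h | h
      · exact absurd h a01
      · exact h
    have b02 : t 0 = - t 2 := by
      rcases sq_eq_sq_iff_eq_or_eq_neg.mp s02 with h | h
      · exact absurd h a02
      · exact h
    apply a12
    linarith
  have c1 : c 1 = 0 := by nlinarith [sq_nonneg (c 1), sq_nonneg (c 2)]
  have c2 : c 2 = 0 := by nlinarith [sq_nonneg (c 1), sq_nonneg (c 2)]
  have c0 : c 0 = 0 := by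
    have := n2 0
    rw [c1, c2] at this
    linarith
  funext i
  fin_cases i <;> simp [c0, c1, c2]

end Pool.Agent.Helper79.Mink
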