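import Pool.Agent.Helper79.MinkRay

set_option autoImplicit false

namespace Pool.Agent.Helper79.Mink

/-- shadow of a 4-vector -/
def sh (x : Fin 4 → ℝ) : Fin 3 → ℝ := ![x 0, x 1, x 2]

/-- causal relation in 3+1 dimensions -/
def R4 (x y : Fin 4 → ℝ) : Prop :=
  x 0 < y 0 ∧ (y 1 - x 1) ^ 2 + (y 2 - x 2) ^ 2 + (y 3 - x 3) ^ 2 ≤ (y 0 - x 0) ^ 2

open Classical in
/-- colour of a direction -/
noncomputable def col (p q : ℝ) : Fin 4 := if p = 1 then 0 else if p = -1 then 1 else if q = 1 then 2 else 3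

def mN : Set (Fin 4 → ℝ) := {x | x 0 = 0 ∧ x 1 = 0 ∧ x 2 = 0}

noncomputable def mC (i : Fin 4) : Set (Fin 4 → ℝ) :=
  {x | 0 < x 0 ∧ x 1 ^ 2 + x 2 ^ 2 = x 0 ^ 2 ∧ col (x 1 / x 0) (x 2 / x 0) = i}

def mD : Set (Fin 4 → ℝ) := {x | 0 < x 0 ∧ x 1 ^ 2 + x 2 ^ 2 < x 0 ^ 2}

lemma R4_shadow {x y : Fin 4 → ℝ} (h : R4 x y) : R3 (sh x) (sh y) := by
  obtain ⟨h0, h1⟩ := h
  unfold R3 Cau B sh
  simp
  refine ⟨h0, ?_⟩
  nlinarith [sq_nonneg (y 3 - x 3)]

lemma same_col {x y : Fin 4 → ℝ} (hxy : R4 x y) (hx0 : 0 < x 0) (hx : x 1 ^ 2 + x 2 ^ 2 = x 0 ^ 2)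
    (hy : y 1 ^ 2 + y 2 ^ 2 = y 0 ^ 2) : y 1 / y 0 = x 1 / x 0 ∧ y 2 / y 0 = x 2 / x 0 := by
  have hy0 : 0 < y 0 := lt_trans hx0 hxy.1
  have h1 := hxy.2
  have h2 : x 0 * y 0 ≤ x 1 * y 1 + x 2 * y 2 := by nlinarith [sq_nonneg (y 3 - x 3)]
  have cx : Cau (sh x) := by
    unfold Cau B sh; simp; exact ⟨hx0, by nlinarith⟩
  have cy : Cau (sh y) := by
    unfold Cau B sh; simp; exact ⟨hy0, by nlinarith⟩
  have hB := B_nonneg cx cy
  have hB0 : B (sh x) (sh y) = 0 := by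
    have : B (sh x) (sh y) = x 0 * y 0 - x 1 * y 1 - x 2 * y 2 := by simp [B, sh]
    rw [this] at hB ⊢
    linarith
  have hxx : B (sh x) (sh x) = 0 := by simp [B, sh]; nlinarith
  have hyy : B (sh y) (sh y) = 0 := by simp [B, sh]; nlinarith
  have hp := parallel_of_B_zero cx cy hxx hyy hB0
  have e1 : y 1 = (y 0 / x 0) * x 1 := by
    have := congrFun hp 1; simpa [sh] using this
  have e2 : y 2 = (y 0 / x 0) * x 2 := by
    have := congrFun hp 2; simpa [sh] using this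
  constructor
  · rw [div_eq_div_iff hy0.ne' hx0.ne', e1]; field_simp
  · rw [div_eq_div_iff hy0.ne' hx0.ne', e2]; field_simp

lemma mC_dir {i : Fin 4} {x : Fin 4 → ℝ} (hx : x ∈ mC i) (p q : ℝ) (hp : x 1 = p * x 0)
    (hq : x 2 = q * x 0) : col p q = i := by
  obtain ⟨h0, h1, h2⟩ := hx
  rw [hp, hq] at h2
  rwa [mul_div_assoc, div_self h0.ne', mul_one, mul_div_assoc, div_self h0.ne', mul_one] at h2

lemma col0 {p q : ℝ} (h : col p q = 0) : p = 1 := by
  unfold col at h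
  split_ifs at h with h1 h2 h3
  · exact h1
  · exact absurd h (by decide)
  · exact absurd h (by decide)
  · exact absurd h (by decide)

lemma col1 {p q : ℝ} (h : col p q = 1) : p = -1 := by
  unfold col at h
  split_ifs at h with h1 h2 h3
  · exact absurd h (by decide)
  · exact h2
  · exact absurd h (by decide)
  · exact absurd h (by decide)

lemma col2 {p q : ℝ} (h : col p q = 2) : q = 1 := by
  unfold col at h
  split_ifs at h with h1 h2 h3
  · exact absurd h (by decide)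
  · exact absurd h (by decide)
  · exact h3
  · exact absurd h (by decide)

lemma mem_mC0 {x : Fin 4 → ℝ} : x ∈ mC 0 ↔ 0 < x 0 ∧ x 1 = x 0 ∧ x 2 = 0 := by
  constructor
  · rintro ⟨h0, h1, h2⟩
    have := col0 h2
    rw [div_eq_one_iff_eq h0.ne'] at this
    refine ⟨h0, this, ?_⟩
    rw [this] at h1
    have : x 2 ^ 2 = 0 := by linarith
    exact pow_eq_zero_iff (two_ne_zero) |>.mp this
  · rintro ⟨h0, h1, h2⟩
    refine ⟨h0, by rw [h1, h2]; ring, ?_⟩
    unfold col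
    rw [h1, div_self h0.ne']; simp

lemma mem_mC1 {x : Fin 4 → ℝ} : x ∈ mC 1 ↔ 0 < x 0 ∧ x 1 = - x 0 ∧ x 2 = 0 := by
  constructor
  · rintro ⟨h0, h1, h2⟩
    have := col1 h2
    rw [div_eq_iff h0.ne'] at this
    have h3 : x 1 = - x 0 := by linarith
    refine ⟨h0, h3, ?_⟩
    rw [h3] at h1
    have : x 2 ^ 2 = 0 := by linarith
    exact pow_eq_zero_iff (two_ne_zero) |>.mp this
  · rintro ⟨h0, h1, h2⟩
    refine ⟨h0, by rw [h1, h2]; ring, ?_⟩
    unfold col
    rw [h1, neg_div, div_self h0.ne']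
    norm_num

lemma mem_mC2 {x : Fin 4 → ℝ} : x ∈ mC 2 ↔ 0 < x 0 ∧ x 1 = 0 ∧ x 2 = x 0 := by
  constructor
  · rintro ⟨h0, h1, h2⟩
    have := col2 h2
    rw [div_eq_one_iff_eq h0.ne'] at this
    refine ⟨h0, ?_, this⟩
    rw [this] at h1
    have : x 1 ^ 2 = 0 := by linarith
    exact pow_eq_zero_iff (two_ne_zero) |>.mp this
  · rintro ⟨h0, h1, h2⟩
    refine ⟨h0, by rw [h1, h2]; ring, ?_⟩
    unfold col
    rw [h1, h2, div_self h0.ne']
    norm_num

/-- the future half of the model satisfies the conditions -/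
theorem cond4 : Cond R4 mN mC mD := by
  constructor
  · intro x hx y hy hxy
    have := hxy.1
    rw [hx.1, hy.1] at this
    exact lt_irrefl _ this
  · intro x hx i hi
    obtain ⟨x0, x1, x2⟩ := hx
    fin_cases i
    · refine ⟨![1, 1, 0, x 3], ?_, ?_⟩
      · show _ ∈ mC 0
        rw [mem_mC0]; simp
      · unfold R4; simp [x0, x1, x2]
    · refine ⟨![1, -1, 0, x 3], ?_, ?_⟩
      · show _ ∈ mC 1
        rw [mem_mC1]; simp
      · unfold R4; simp [x0, x1, x2]
    · refine ⟨![1, 0, 1, x 3], ?_, ?_⟩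
      · show _ ∈ mC 2
        rw [mem_mC2]; simp
      · unfold R4; simp [x0, x1, x2]
    · exact absurd rfl hi
  · intro i j hij x hx y hy hxy
    obtain ⟨a1, a2, a3⟩ := hx
    obtain ⟨b1, b2, b3⟩ := hy
    obtain ⟨e1, e2⟩ := same_col hxy a1 a2 b2
    rw [e1, e2] at b3
    exact hij (a3.symm.trans b3)
  · intro i j hij x hx hx'
    exact hij (hx.2.2.symm.trans hx'.2.2)
  · intro i x hx y hy hxy
    have hT : Tim (sh x) := by
      unfold Tim B sh; simp; exact ⟨hx.1, by nlinarith [hx.2]⟩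
    have hR := R4_shadow hxy
    have := Tim.add hT hR
    have e : sh x + (sh y - sh x) = sh y := by abel
    rw [e] at this
    have h2 := this.2
    have : B (sh y) (sh y) = y 0 * y 0 - y 1 * y 1 - y 2 * y 2 := by simp [B, sh]
    rw [this] at h2
    nlinarith [hy.2.1]
  · intro x hx y hxy
    obtain ⟨x0, x1, x2⟩ := hx
    obtain ⟨h0, h1⟩ := hxy
    rw [x0] at h0
    rw [x0, x1, x2] at h1
    rcases lt_or_ge (y 1 ^ 2 + y 2 ^ 2) (y 0 ^ 2) with hlt | hge
    · exact Or.inl ⟨h0, hlt⟩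
    · refine Or.inr ⟨_, h0, ?_, rfl⟩
      nlinarith [sq_nonneg (y 3 - x 3)]
  · intro i y hy
    refine ⟨![0, 0, 0, y 3], ?_, ?_⟩
    · simp [mN]
    · unfold R4; simp
      exact ⟨hy.1, hy.2.1.le⟩
  · intro y hy
    refine ⟨![y 0 / 2, y 1 / 2, y 2 / 2, y 3], ?_, ?_⟩
    · have := hy.1
      have := hy.2
      simp [mD]
      constructor
      · linarith
      · nlinarith
    · have := hy.1
      have := hy.2
      unfold R4; simp
      constructor
      · linarith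
      · nlinarith
  · intro y hy
    obtain ⟨h0, h1⟩ := hy
    have hlt : y 1 < y 0 := by nlinarith [sq_nonneg (y 2)]
    have hlt' : - y 0 < y 1 := by nlinarith [sq_nonneg (y 2)]
    have hd : 0 < 2 * (y 0 - y 1) := by linarith
    set s : ℝ := (y 0 ^ 2 - y 1 ^ 2 - y 2 ^ 2) / (2 * (y 0 - y 1)) with hs
    have hs0 : 0 < s := by apply div_pos; · linarith
                           · exact hd
    have hsm : s * (2 * (y 0 - y 1)) = y 0 ^ 2 - y 1 ^ 2 - y 2 ^ 2 := by
      rw [hs]; exact div_mul_cancel₀ _ hd.ne'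
    have hs1 : s < y 0 := by
      rw [hs, div_lt_iff₀ hd]; nlinarith [sq_nonneg (y 2)]
    refine ⟨![s, s, 0, y 3], ?_, ?_⟩
    · rw [mem_mC0]; simp [hs0]
    · unfold R4; simp
      exact ⟨hs1, by nlinarith⟩
  · intro y hy
    obtain ⟨h0, h1⟩ := hy
    have hlt : y 1 < y 0 := by nlinarith [sq_nonneg (y 2)]
    have hlt' : - y 0 < y 1 := by nlinarith [sq_nonneg (y 2)]
    have hd : 0 < 2 * (y 0 + y 1) := by linarith
    set s : ℝ := (y 0 ^ 2 - y 1 ^ 2 - y 2 ^ 2) / (2 * (y 0 + y 1)) with hs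
    have hs0 : 0 < s := by apply div_pos; · linarith
                           · exact hd
    have hsm : s * (2 * (y 0 + y 1)) = y 0 ^ 2 - y 1 ^ 2 - y 2 ^ 2 := by
      rw [hs]; exact div_mul_cancel₀ _ hd.ne'
    have hs1 : s < y 0 := by
      rw [hs, div_lt_iff₀ hd]; nlinarith [sq_nonneg (y 2)]
    refine ⟨![s, -s, 0, y 3], ?_, ?_⟩
    · rw [mem_mC1]; simp [hs0]
    · unfold R4; simp
      exact ⟨hs1, by nlinarith⟩
  · intro i hi y hy
    obtain ⟨h0, h1, h2⟩ := hy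
    refine ⟨![2 * y 0, 2 * y 1, 2 * y 2, y 3], ?_, ?_⟩
    · refine ⟨by simpa using h0, ?_, ?_⟩
      · simp; nlinarith
      · rw [← h2]
        simp only [Matrix.cons_val_zero, Matrix.cons_val_one, Matrix.cons_val]
        congr 1
        · field_simp
        · field_simp
    · unfold R4; simp
      refine ⟨by linarith, by nlinarith⟩

lemma cond4' : Cond (fun x y => R4 y x) {x | -x ∈ mN} (fun i => {x | -x ∈ mC i}) {x | -x ∈ mD} := by
  have hR : ∀ x y : Fin 4 → ℝ, R4 x y ↔ R4 (-y) (-x) := by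
    intro x y
    unfold R4
    simp only [Pi.neg_apply]
    constructor
    · rintro ⟨a, b⟩; exact ⟨by linarith, by nlinarith⟩
    · rintro ⟨a, b⟩; exact ⟨by linarith, by nlinarith⟩
  have h := cond4
  constructor
  · intro x hx y hy hxy
    exact h.anti _ hx _ hy ((hR y x).mp hxy)
  · intro x hx i hi
    obtain ⟨y, hy, hxy⟩ := h.hasC _ hx i hi
    refine ⟨-y, by simpa using hy, ?_⟩
    rw [hR]; simpa using hxy
  · intro i j hij x hx y hy hxy
    exact h.sep i j hij _ hx _ hy ((hR y x).mp hxy)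
  · intro i j hij x hx hx'
    exact h.disj i j hij _ hx hx'
  · intro i x hx y hy hxy
    exact h.sepD i _ hx _ hy ((hR y x).mp hxy)
  · intro x hx y hxy
    rcases h.cover _ hx (-y) ((hR y x).mp hxy) with h1 | ⟨i, h1⟩
    · exact Or.inl h1
    · exact Or.inr ⟨i, h1⟩
  · intro i y hy
    obtain ⟨x, hx, hxy⟩ := h.above i _ hy
    refine ⟨-x, by simpa using hx, ?_⟩
    rw [hR]; simpa using hxy
  · intro y hy
    obtain ⟨x, hx, hxy⟩ := h.dd _ hy
    refine ⟨-x, by simpa using hx, ?_⟩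
    rw [hR]; simpa using hxy
  · intro y hy
    obtain ⟨x, hx, hxy⟩ := h.d0 _ hy
    refine ⟨-x, by simpa using hx, ?_⟩
    rw [hR]; simpa using hxy
  · intro y hy
    obtain ⟨x, hx, hxy⟩ := h.d1 _ hy
    refine ⟨-x, by simpa using hx, ?_⟩
    rw [hR]; simpa using hxy
  · intro i hi y hy
    obtain ⟨x, hx, hxy⟩ := h.cont i hi _ hy
    refine ⟨-x, by simpa using hx, ?_⟩
    rw [hR]; simpa using hxy

/-- the half spaces -/
def mV (i : Fin 4) : Set (Fin 4 → ℝ) :=
  match i with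
  | 0 => {x | x 1 ≤ x 0}
  | 1 => {x | - x 1 ≤ x 0}
  | 2 => {x | x 2 ≤ x 0}
  | 3 => Set.univ

lemma link4 : Link R4 mN mC (fun i => {x | -x ∈ mC i}) mV := by
  constructor
  · intro i hi x hx y hxy
    obtain ⟨h0, h1⟩ := hxy
    fin_cases i
    · have hx : -x ∈ mC 0 := hx
      rw [mem_mC0] at hx
      simp only [Pi.neg_apply] at hx
      obtain ⟨a, b, c⟩ := hx
      show y 1 ≤ y 0
      have : y 1 - x 1 ≤ y 0 - x 0 := by
        refine (abs_le_of_sq_le_sq' ?_ (by linarith)).2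
        nlinarith [sq_nonneg (y 2 - x 2), sq_nonneg (y 3 - x 3)]
      linarith
    · have hx : -x ∈ mC 1 := hx
      rw [mem_mC1] at hx
      simp only [Pi.neg_apply] at hx
      obtain ⟨a, b, c⟩ := hx
      show - y 1 ≤ y 0
      have : - (y 1 - x 1) ≤ y 0 - x 0 := by
        refine (abs_le_of_sq_le_sq' ?_ (by linarith)).2
        nlinarith [sq_nonneg (y 2 - x 2), sq_nonneg (y 3 - x 3)]
      linarith
    · have hx : -x ∈ mC 2 := hx
      rw [mem_mC2] at hx
      simp only [Pi.neg_apply] at hx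
      obtain ⟨a, b, c⟩ := hx
      show y 2 ≤ y 0
      have : y 2 - x 2 ≤ y 0 - x 0 := by
        refine (abs_le_of_sq_le_sq' ?_ (by linarith)).2
        nlinarith [sq_nonneg (y 1 - x 1), sq_nonneg (y 3 - x 3)]
      linarith
    · exact absurd rfl hi
  · intro i hi y hy x hxy hV
    obtain ⟨h0, h1⟩ := hxy
    fin_cases i
    · have hy : y ∈ mC 0 := hy
      have hV : x 1 ≤ x 0 := hV
      rw [mem_mC0] at hy
      obtain ⟨a, b, c⟩ := hy
      show x ∈ mN ∨ x ∈ mC 0 ∨ -x ∈ mC 0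
      rw [mem_mC0, mem_mC0]
      simp only [Pi.neg_apply, mN, Set.mem_ofPred_eq]
      have e1 : (y 0 - x 0) ^ 2 ≤ (y 1 - x 1) ^ 2 := by
        apply pow_le_pow_left₀ (by linarith); linarith
      have e2 : (y 2 - x 2) ^ 2 = 0 := by nlinarith [sq_nonneg (y 2 - x 2), sq_nonneg (y 3 - x 3)]
      have e3 : y 2 - x 2 = 0 := pow_eq_zero_iff (two_ne_zero) |>.mp e2
      have e4 : (y 1 - x 1) ^ 2 = (y 0 - x 0) ^ 2 := by
        nlinarith [sq_nonneg (y 2 - x 2), sq_nonneg (y 3 - x 3)]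
      have e5 : y 1 - x 1 = y 0 - x 0 := by
        rcases sq_eq_sq_iff_eq_or_eq_neg.mp e4 with h | h
        · exact h
        · exfalso; linarith
      have e6 : x 1 = x 0 := by linarith
      have e7 : x 2 = 0 := by linarith
      rcases lt_trichotomy (x 0) 0 with hlt | heq | hgt
      · right; right; exact ⟨by linarith, by linarith, by linarith⟩
      · left; exact ⟨heq, by linarith, e7⟩
      · right; left; exact ⟨hgt, e6, e7⟩
    · have hy : y ∈ mC 1 := hy
      have hV : - x 1 ≤ x 0 := hV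
      rw [mem_mC1] at hy
      obtain ⟨a, b, c⟩ := hy
      show x ∈ mN ∨ x ∈ mC 1 ∨ -x ∈ mC 1
      rw [mem_mC1, mem_mC1]
      simp only [Pi.neg_apply, mN, Set.mem_ofPred_eq]
      have e1 : (y 0 - x 0) ^ 2 ≤ (x 1 - y 1) ^ 2 := by
        apply pow_le_pow_left₀ (by linarith); linarith
      have e2 : (y 2 - x 2) ^ 2 = 0 := by nlinarith [sq_nonneg (y 2 - x 2), sq_nonneg (y 3 - x 3)]
      have e3 : y 2 - x 2 = 0 := pow_eq_zero_iff (two_ne_zero) |>.mp e2
      have e4 : (x 1 - y 1) ^ 2 = (y 0 - x 0) ^ 2 := by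
        nlinarith [sq_nonneg (y 2 - x 2), sq_nonneg (y 3 - x 3)]
      have e5 : x 1 - y 1 = y 0 - x 0 := by
        rcases sq_eq_sq_iff_eq_or_eq_neg.mp e4 with h | h
        · exact h
        · exfalso; linarith
      have e6 : x 1 = - x 0 := by linarith
      have e7 : x 2 = 0 := by linarith
      rcases lt_trichotomy (x 0) 0 with hlt | heq | hgt
      · right; right; exact ⟨by linarith, by linarith, by linarith⟩
      · left; exact ⟨heq, by linarith, e7⟩
      · right; left; exact ⟨hgt, e6, e7⟩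
    · have hy : y ∈ mC 2 := hy
      have hV : x 2 ≤ x 0 := hV
      rw [mem_mC2] at hy
      obtain ⟨a, b, c⟩ := hy
      show x ∈ mN ∨ x ∈ mC 2 ∨ -x ∈ mC 2
      rw [mem_mC2, mem_mC2]
      simp only [Pi.neg_apply, mN, Set.mem_ofPred_eq]
      have e1 : (y 0 - x 0) ^ 2 ≤ (y 2 - x 2) ^ 2 := by
        apply pow_le_pow_left₀ (by linarith); linarith
      have e2 : (y 1 - x 1) ^ 2 = 0 := by nlinarith [sq_nonneg (y 1 - x 1), sq_nonneg (y 3 - x 3)]
      have e3 : y 1 - x 1 = 0 := pow_eq_zero_iff (two_ne_zero) |>.mp e2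
      have e4 : (y 2 - x 2) ^ 2 = (y 0 - x 0) ^ 2 := by
        nlinarith [sq_nonneg (y 1 - x 1), sq_nonneg (y 3 - x 3)]
      have e5 : y 2 - x 2 = y 0 - x 0 := by
        rcases sq_eq_sq_iff_eq_or_eq_neg.mp e4 with h | h
        · exact h
        · exfalso; linarith
      have e6 : x 2 = x 0 := by linarith
      have e7 : x 1 = 0 := by linarith
      rcases lt_trichotomy (x 0) 0 with hlt | heq | hgt
      · right; right; exact ⟨by linarith, by linarith, by linarith⟩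
      · left; exact ⟨heq, e7, by linarith⟩
      · right; left; exact ⟨hgt, e7, e6⟩
    · exact absurd rfl hi

end Pool.Agent.Helper79.Mink
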