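import Pool.Agent.Helper79.MinkGeom

set_option autoImplicit false

namespace Pool.Agent.Helper79.Mink

/-- conditions on a coloured family of points in a frame -/
structure Cond {W : Type} (R : W → W → Prop) (N : Set W) (C : Fin 4 → Set W) (D : Set W) : Prop where
  anti : ∀ x ∈ N, ∀ y ∈ N, ¬ R x y
  hasC : ∀ x ∈ N, ∀ i : Fin 4, i ≠ 3 → ∃ y ∈ C i, R x y
  sep : ∀ i j : Fin 4, i ≠ j → ∀ x ∈ C i, ∀ y ∈ C j, ¬ R x y
  disj : ∀ i j : Fin 4, i ≠ j → ∀ x ∈ C i, x ∉ C j
  sepD : ∀ i : Fin 4, ∀ x ∈ D, ∀ y ∈ C i, ¬ R x y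
  cover : ∀ x ∈ N, ∀ y, R x y → y ∈ D ∨ ∃ i, y ∈ C i
  above : ∀ i : Fin 4, ∀ y ∈ C i, ∃ x ∈ N, R x y
  dd : ∀ y ∈ D, ∃ z ∈ D, R z y
  d0 : ∀ y ∈ D, ∃ z ∈ C 0, R z y
  d1 : ∀ y ∈ D, ∃ z ∈ C 1, R z y
  cont : ∀ i : Fin 4, i ≠ 3 → ∀ y ∈ C i, ∃ z ∈ C i, R y z

/-- causal relation in 2+1 dimensions -/
def R3 (x y : Fin 3 → ℝ) : Prop := Cau (y - x)

/-- timelike relation -/
def T3 (x y : Fin 3 → ℝ) : Prop := Tim (y - x)

lemma R3.trans {x y z : Fin 3 → ℝ} (h : R3 x y) (h' : R3 y z) : R3 x z := by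
  have := Cau.add h h'
  have e : (y - x) + (z - y) = z - x := by abel
  rwa [e] at this

lemma T3.trans_R {x y z : Fin 3 → ℝ} (h : T3 x y) (h' : R3 y z) : T3 x z := by
  have := Tim.add h h'
  have e : (y - x) + (z - y) = z - x := by abel
  rwa [e] at this

lemma R3.trans_T {x y z : Fin 3 → ℝ} (h : R3 x y) (h' : T3 y z) : T3 x z := by
  have := Cau.add_tim h h'
  have e : (y - x) + (z - y) = z - x := by abel
  rwa [e] at this

variable {N : Set (Fin 3 → ℝ)} {C : Fin 4 → Set (Fin 3 → ℝ)} {D : Set (Fin 3 → ℝ)}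

/-- a point below a coloured point and above an N-point has the same colour -/
lemma Cond.down (h : Cond R3 N C D) {a x y : Fin 3 → ℝ} {i : Fin 4} (ha : a ∈ N) (hax : R3 a x)
    (hxy : R3 x y) (hy : y ∈ C i) : x ∈ C i := by
  rcases h.cover a ha x hax with hd | ⟨j, hj⟩
  · exact absurd hxy (h.sepD i x hd y hy)
  · by_cases hij : j = i
    · rwa [hij] at hj
    · exact absurd hxy (h.sep j i hij x hj y hy)

/-- coloured points are not timelike above N-points -/
lemma Cond.not_tim (h : Cond R3 N C D) {a u : Fin 3 → ℝ} {i : Fin 4} (ha : a ∈ N)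
    (hu : u ∈ C i) : ¬ T3 a u := by
  intro hT
  -- choose j ≠ i, j ≠ 3
  obtain ⟨j, hji, hj3⟩ : ∃ j : Fin 4, j ≠ i ∧ j ≠ 3 :=
    (by decide : ∀ i : Fin 4, ∃ j : Fin 4, j ≠ i ∧ j ≠ 3) i
  obtain ⟨v, hv, hav⟩ := h.hasC a ha j hj3
  have hev := tim_eventually (u - a) (-(v - a)) hT
  obtain ⟨s, hs0, hs1, hs⟩ := exists_small hev 1 one_pos
  have h1 : R3 a (a + s • (v - a)) := by
    unfold R3
    have e : a + s • (v - a) - a = s • (v - a) := by abel
    rw [e]; exact Cau.smul hav hs0
  have h2 : R3 (a + s • (v - a)) v := by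
    unfold R3
    have e : v - (a + s • (v - a)) = (1 - s) • (v - a) := by
      rw [sub_smul, one_smul]; abel
    rw [e]; exact Cau.smul hav (by linarith)
  have h3 := h.down ha h1 h2 hv
  have h4 : R3 (a + s • (v - a)) u := by
    unfold R3
    have e : u - (a + s • (v - a)) = u - a + s • -(v - a) := by
      rw [smul_neg]; abel
    rw [e]; exact hs.cau
  exact h.sep j i hji _ h3 _ hu h4

/-- the coloured rays are infinite -/
lemma Cond.ray (h : Cond R3 N C D) {a u : Fin 3 → ℝ} {i : Fin 4} (hi : i ≠ 3) (ha : a ∈ N)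
    (hu : u ∈ C i) (hau : R3 a u) : ∀ s : ℝ, 0 < s → a + s • (u - a) ∈ C i := by
  set e : Fin 3 → ℝ := u - a with he
  have hc : Cau e := hau
  have hnull : B e e = 0 := by
    have := h.not_tim ha hu
    by_contra hne
    apply this
    exact ⟨hc.1, lt_of_le_of_ne hc.2 (Ne.symm hne)⟩
  have hRa : ∀ s : ℝ, 0 < s → R3 a (a + s • e) := by
    intro s hs
    unfold R3
    have : a + s • e - a = s • e := by abel
    rw [this]; exact hc.smul hs
  have hRss : ∀ s t : ℝ, s < t → R3 (a + s • e) (a + t • e) := by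
    intro s t hst
    unfold R3
    have : a + t • e - (a + s • e) = (t - s) • e := by rw [sub_smul]; abel
    rw [this]; exact hc.smul (by linarith)
  set S : Set ℝ := {s | 0 < s ∧ a + s • e ∈ C i} with hS
  have h1S : (1 : ℝ) ∈ S := by
    refine ⟨one_pos, ?_⟩
    have : a + (1:ℝ) • e = u := by rw [one_smul, he]; abel
    rw [this]; exact hu
  have hdown : ∀ s ∈ S, ∀ t, 0 < t → t < s → t ∈ S := by
    intro s hs t ht hts
    exact ⟨ht, h.down ha (hRa t ht) (hRss t s hts) hs.2⟩
  by_contra hcon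
  push Not at hcon
  obtain ⟨s1, hs1, hs1'⟩ := hcon
  have hbdd : BddAbove S := by
    refine ⟨s1, ?_⟩
    intro s hs
    by_contra hlt
    push Not at hlt
    exact hs1' (hdown s hs s1 hs1 hlt).2
  set σ := sSup S with hσ
  have hσ1 : 1 ≤ σ := le_csSup hbdd h1S
  have hbelow : ∀ t, 0 < t → t < σ → a + t • e ∈ C i := by
    intro t ht htσ
    obtain ⟨s, hs, hts⟩ := exists_lt_of_lt_csSup ⟨1, h1S⟩ htσ
    exact (hdown s hs t ht hts).2
  have hσ0 : 0 < σ := by linarith
  set y : Fin 3 → ℝ := a + σ • e with hy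
  have hay : R3 a y := hRa σ hσ0
  by_cases hyC : y ∈ C i
  · obtain ⟨y', hy'C, hyy'⟩ := h.cont i hi y hyC
    have hnt := h.not_tim ha hy'C
    have e1 : y' - a = (y - a) + (y' - y) := by abel
    have hnt' : ¬ Tim ((y - a) + (y' - y)) := by
      rw [← e1]; exact hnt
    obtain ⟨-, -, -, hp⟩ := parallel_of_not_tim hay hyy' hnt'
    set lam := (y' - y) 0 / (y - a) 0 with hlam
    have hlam0 : 0 < lam := div_pos hyy'.1 hay.1
    have e2 : y' = a + (σ + lam * σ) • e := by
      have e3 : y - a = σ • e := by rw [hy]; abel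
      have e4 : y' = y + (y' - y) := by abel
      rw [e4, hp, e3, smul_smul, hy, add_smul]; abel
    have hin : σ + lam * σ ∈ S := by
      refine ⟨by positivity, ?_⟩
      rw [← e2]; exact hy'C
    have := le_csSup hbdd hin
    have hpos : 0 < lam * σ := by positivity
    linarith
  · rcases h.cover a ha y hay with hd | ⟨k, hk⟩
    · -- D case
      obtain ⟨z, hzD, hzy⟩ := h.dd y hd
      obtain ⟨w0, hw0, hw0z⟩ := h.d0 z hzD
      obtain ⟨w1, hw1, hw1z⟩ := h.d1 z hzD
      obtain ⟨b0, hb0, hb0w⟩ := h.above 0 w0 hw0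
      obtain ⟨b1, hb1, hb1w⟩ := h.above 1 w1 hw1
      have hnb : ∀ b ∈ N, ¬ T3 b y := by
        intro b hb hT
        have hev := tim_eventually (y - b) (-e) hT
        obtain ⟨s, hs0, hs1, hs⟩ := exists_small hev σ hσ0
        have hm := hbelow (σ - s) (by linarith) (by linarith)
        apply h.not_tim hb hm
        unfold T3
        have : a + (σ - s) • e - b = y - b + s • -e := by
          rw [hy, sub_smul, smul_neg]; abel
        rw [this]; exact hs
      have key : ∀ b ∈ N, ∀ w, R3 b w → R3 w z →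
          ∃ lam : ℝ, 0 < lam ∧ z - w = lam • (y - z) := by
        intro b hb w hbw hwz
        have hnt : ¬ T3 w y := fun hT => hnb b hb (hbw.trans_T hT)
        have e1 : y - w = (y - z) + (z - w) := by abel
        have hnt' : ¬ Tim ((y - z) + (z - w)) := by
          rw [← e1]; exact hnt
        obtain ⟨-, -, -, hp⟩ := parallel_of_not_tim hzy hwz hnt'
        exact ⟨_, div_pos hwz.1 hzy.1, hp⟩
      obtain ⟨l0, hl0, e0⟩ := key b0 hb0 w0 hb0w hw0z
      obtain ⟨l1, hl1, e1⟩ := key b1 hb1 w1 hb1w hw1z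
      have hyz : Cau (y - z) := hzy
      rcases lt_trichotomy l0 l1 with hlt | heq | hgt
      · -- w1 below w0
        apply h.sep 1 0 (by decide) w1 hw1 w0 hw0
        unfold R3
        have : w0 - w1 = (l1 - l0) • (y - z) := by
          rw [sub_smul, ← e0, ← e1]; abel
        rw [this]; exact hyz.smul (by linarith)
      · have : w0 = w1 := by
          have h2 : z - w0 = z - w1 := by rw [e0, e1, heq]
          exact sub_right_injective h2
        rw [this] at hw0
        exact h.disj 0 1 (by decide) w1 hw0 hw1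
      · apply h.sep 0 1 (by decide) w0 hw0 w1 hw1
        unfold R3
        have : w1 - w0 = (l0 - l1) • (y - z) := by
          rw [sub_smul, ← e0, ← e1]; abel
        rw [this]; exact hyz.smul (by linarith)
    · by_cases hki : k = i
      · rw [hki] at hk; exact hyC hk
      · have hm := hbelow (σ / 2) (by linarith) (by linarith)
        exact h.sep i k (Ne.symm hki) _ hm _ hk (hRss _ _ (by linarith))

/-- existence of null rays -/
lemma Cond.exists_ray (h : Cond R3 N C D) {a : Fin 3 → ℝ} {i : Fin 4} (hi : i ≠ 3) (ha : a ∈ N) :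
    ∃ e : Fin 3 → ℝ, Cau e ∧ B e e = 0 ∧ ∀ s : ℝ, 0 < s → a + s • e ∈ C i := by
  obtain ⟨u, hu, hau⟩ := h.hasC a ha i hi
  refine ⟨u - a, hau, ?_, h.ray hi ha hu hau⟩
  have := h.not_tim ha hu
  by_contra hne
  apply this
  exact ⟨hau.1, lt_of_le_of_ne hau.2 (Ne.symm hne)⟩

/-- reflected version -/
lemma Cond.neg {N' : Set (Fin 3 → ℝ)} {C' : Fin 4 → Set (Fin 3 → ℝ)} {D' : Set (Fin 3 → ℝ)}
    (h : Cond (fun x y => R3 y x) N' C' D') :
    Cond R3 {x | -x ∈ N'} (fun i => {x | -x ∈ C' i}) {x | -x ∈ D'} := by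
  have hR : ∀ x y : Fin 3 → ℝ, R3 x y ↔ R3 (-y) (-x) := by
    intro x y
    unfold R3
    have : -x - -y = y - x := by abel
    rw [this]
  constructor
  · intro x hx y hy hxy
    exact h.anti _ hx _ hy ((hR x y).mp hxy)
  · intro x hx i hi
    obtain ⟨y, hy, hxy⟩ := h.hasC _ hx i hi
    refine ⟨-y, by simpa using hy, ?_⟩
    rw [hR]; simpa using hxy
  · intro i j hij x hx y hy hxy
    exact h.sep i j hij _ hx _ hy ((hR x y).mp hxy)
  · intro i j hij x hx hx'
    exact h.disj i j hij _ hx hx'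
  · intro i x hx y hy hxy
    exact h.sepD i _ hx _ hy ((hR x y).mp hxy)
  · intro x hx y hxy
    rcases h.cover _ hx (-y) ((hR x y).mp hxy) with h1 | ⟨i, h1⟩
    · exact Or.inl h1
    · exact Or.inr ⟨i, h1⟩
  · intro i y hy
    obtain ⟨x, hx, hxy⟩ := h.above i _ hy
    refine ⟨-x, by simpa using hx, ?_⟩
    rw [hR]; simpa using hxy
  · intro y hy
    obtain ⟨x, hx, hxy⟩ := h.dd _ hy
    refine ⟨-x, by simpa using hx, ?_⟩
    rw [hR]; simpa using hxy
  · intro y hy
    obtain ⟨x, hx, hxy⟩ := h.d0 _ hy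
    refine ⟨-x, by simpa using hx, ?_⟩
    rw [hR]; simpa using hxy
  · intro y hy
    obtain ⟨x, hx, hxy⟩ := h.d1 _ hy
    refine ⟨-x, by simpa using hx, ?_⟩
    rw [hR]; simpa using hxy
  · intro i hi y hy
    obtain ⟨x, hx, hxy⟩ := h.cont i hi _ hy
    refine ⟨-x, by simpa using hx, ?_⟩
    rw [hR]; simpa using hxy

lemma Cond.not_tim' {N' : Set (Fin 3 → ℝ)} {C' : Fin 4 → Set (Fin 3 → ℝ)} {D' : Set (Fin 3 → ℝ)}
    (h : Cond (fun x y => R3 y x) N' C' D') {a u : Fin 3 → ℝ} {i : Fin 4} (ha : a ∈ N')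
    (hu : u ∈ C' i) : ¬ T3 u a := by
  intro hT
  have h' := h.neg
  have ha' : -a ∈ {x | -x ∈ N'} := by simpa using ha
  have hu' : -u ∈ (fun i => {x | -x ∈ C' i}) i := by simpa using hu
  apply h'.not_tim ha' hu'
  unfold T3
  have : -u - -a = a - u := by abel
  rw [this]; exact hT

lemma Cond.exists_ray' {N' : Set (Fin 3 → ℝ)} {C' : Fin 4 → Set (Fin 3 → ℝ)} {D' : Set (Fin 3 → ℝ)}
    (h : Cond (fun x y => R3 y x) N' C' D') {a : Fin 3 → ℝ} {i : Fin 4} (hi : i ≠ 3) (ha : a ∈ N') :
    ∃ e : Fin 3 → ℝ, Cau e ∧ B e e = 0 ∧ ∀ s : ℝ, 0 < s → a - s • e ∈ C' i := by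
  have h' := h.neg
  have ha' : -a ∈ {x | -x ∈ N'} := by simpa using ha
  obtain ⟨e, he, hn, hr⟩ := h'.exists_ray hi ha'
  refine ⟨e, he, hn, ?_⟩
  intro s hs
  have := hr s hs
  have h2 : -(-a + s • e) ∈ C' i := this
  have h3 : -(-a + s • e) = a - s • e := by abel
  rwa [h3] at h2

/-- linking conditions between future and past colours -/
structure Link {W : Type} (R : W → W → Prop) (N : Set W) (C C' : Fin 4 → Set W)
    (V : Fin 4 → Set W) : Prop where
  w1 : ∀ i : Fin 4, i ≠ 3 → ∀ x ∈ C' i, ∀ y, R x y → y ∈ V i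
  w2 : ∀ i : Fin 4, i ≠ 3 → ∀ y ∈ C i, ∀ x, R x y → x ∈ V i → x ∈ N ∨ x ∈ C i ∨ x ∈ C' i

variable {C' : Fin 4 → Set (Fin 3 → ℝ)} {D' : Set (Fin 3 → ℝ)} {V : Fin 4 → Set (Fin 3 → ℝ)}

lemma no_timelike (h : Cond R3 N C D) (h' : Cond (fun x y => R3 y x) N C' D')
    (l : Link R3 N C C' V) {i : Fin 4} (hi : i ≠ 3) {z' z : Fin 3 → ℝ} (hz' : z' ∈ C' i)
    (hz : z ∈ C i) : ¬ T3 z' z := by
  intro hT
  have seg : ∀ s : ℝ, 0 < s → s < 1 → z' + s • (z - z') ∈ N := by
    intro s hs0 hs1
    have t1 : T3 z' (z' + s • (z - z')) := by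
      unfold T3
      have : z' + s • (z - z') - z' = s • (z - z') := by abel
      rw [this]; exact Tim.smul hT hs0
    have t2 : T3 (z' + s • (z - z')) z := by
      unfold T3
      have : z - (z' + s • (z - z')) = (1 - s) • (z - z') := by
        rw [sub_smul, one_smul]; abel
      rw [this]; exact Tim.smul hT (by linarith)
    rcases l.w2 i hi z hz _ t2.cau (l.w1 i hi z' hz' _ t1.cau) with hN | hC | hC
    · exact hN
    · obtain ⟨b, hb, hbz⟩ := h.above i _ hC
      exact absurd (hbz.trans_T t2) (h.not_tim hb hz)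
    · obtain ⟨b, hb, hbz⟩ := h'.above i _ hC
      exact absurd (t1.trans_R hbz) (h'.not_tim' hb hz')
  have p1 := seg (1/3) (by norm_num) (by norm_num)
  have p2 := seg (2/3) (by norm_num) (by norm_num)
  apply h.anti _ p1 _ p2
  unfold R3
  have : z' + (2/3:ℝ) • (z - z') - (z' + (1/3:ℝ) • (z - z')) = (1/3:ℝ) • (z - z') := by
    have : (2/3:ℝ) • (z - z') = (1/3:ℝ) • (z - z') + (1/3:ℝ) • (z - z') := by
      rw [← add_smul]; norm_num
    rw [this]; abel
  rw [this]; exact (Tim.smul hT (by norm_num)).cau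

/-- quadratic growth: if a bilinear expression stays nonpositive for large s, t then its top
coefficient is nonpositive and, if that coefficient vanishes, the linear ones are nonpositive -/
lemma growth {q p r m c0 : ℝ} (h : ∀ s t : ℝ, c0 < s → c0 < t → q + s * p + t * r + s * t * m ≤ 0) :
    m ≤ 0 ∧ (m = 0 → r ≤ 0 ∧ p ≤ 0) := by
  constructor
  · by_contra hm
    push Not at hm
    set K := |q| + |p| + |r| + |c0| + 1 with hK
    have hK1 : 1 ≤ K := by
      have := abs_nonneg q; have := abs_nonneg p; have := abs_nonneg r; have := abs_nonneg c0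
      linarith
    set s := K * (1 + 3 / m) with hs
    have h3m : 0 < 3 / m := by positivity
    have hsK : K ≤ s := by rw [hs]; nlinarith
    have hc : c0 < s := by
      have := le_abs_self c0; have := abs_nonneg q; have := abs_nonneg p; have := abs_nonneg r
      linarith
    have h1 := h s s hc hc
    have hq : -K ≤ q := by
      have := neg_abs_le q; have := abs_nonneg c0; have := abs_nonneg p; have := abs_nonneg r
      linarith
    have hp : -K ≤ p := by
      have := neg_abs_le p; have := abs_nonneg c0; have := abs_nonneg q; have := abs_nonneg r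
      linarith
    have hr : -K ≤ r := by
      have := neg_abs_le r; have := abs_nonneg c0; have := abs_nonneg q; have := abs_nonneg p
      linarith
    have hs0 : 0 < s := by linarith
    have e1 : s * p ≥ - (s * K) := by nlinarith
    have e2 : s * r ≥ - (s * K) := by nlinarith
    have e3 : q ≥ - (s * K) := by nlinarith
    have e4 : s * s * m = s * (K * m + 3 * K) := by rw [hs]; field_simp
    have e5 : 0 < s * (K * m) := by positivity
    nlinarith
  · intro hm
    have aux : ∀ (q p r c0 : ℝ), (∀ s t : ℝ, c0 < s → c0 < t → q + s * p + t * r ≤ 0) → r ≤ 0 := by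
      intro q p r c0 h
      by_contra hr
      push Not at hr
      set s := |c0| + 1 with hs
      have hc : c0 < s := by have := le_abs_self c0; linarith
      set K := |q + s * p| with hK
      have hK0 : 0 ≤ K := abs_nonneg _
      have hq : -K ≤ q + s * p := neg_abs_le _
      have h1 := h s (s + (K + 1) / r) hc (by have : 0 < (K+1)/r := by positivity
                                              linarith)
      have e : (s + (K + 1) / r) * r = s * r + K + 1 := by field_simp; ring
      have : 0 < s * r := by have := abs_nonneg c0; positivity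
      nlinarith
    refine ⟨aux q p r c0 ?_, aux q r p c0 ?_⟩
    · intro s t hs ht
      have := h s t hs ht
      rw [hm] at this; linarith
    · intro s t hs ht
      have := h t s ht hs
      rw [hm] at this; linarith

lemma rays_rel (h : Cond R3 N C D) (h' : Cond (fun x y => R3 y x) N C' D')
    (l : Link R3 N C C' V) {i : Fin 4} (hi : i ≠ 3) {a b e e' : Fin 3 → ℝ}
    (he : Cau e) (he' : Cau e') (hn : B e e = 0) (hn' : B e' e' = 0)
    (hr : ∀ s : ℝ, 0 < s → b + s • e ∈ C i) (hr' : ∀ s : ℝ, 0 < s → a - s • e' ∈ C' i) :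
    B e' e = 0 ∧ B (b - a) e ≤ 0 ∧ B (b - a) e' ≤ 0 := by
  have key : ∀ s t : ℝ, 0 < s → 0 < t → 0 < (b - a) 0 + s * e' 0 + t * e 0 →
      B (b - a) (b - a) + s * (2 * B (b - a) e') + t * (2 * B (b - a) e)
        + s * t * (2 * B e' e) ≤ 0 := by
    intro s t hs ht hpos
    have hnt := no_timelike h h' l hi (hr' s hs) (hr t ht)
    have e1 : b + t • e - (a - s • e') = (b - a) + s • e' + t • e := by abel
    unfold T3 at hnt
    rw [e1] at hnt
    have hle : B ((b - a) + s • e' + t • e) ((b - a) + s • e' + t • e) ≤ 0 := by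
      by_contra hc
      apply hnt
      refine ⟨?_, not_le.mp hc⟩
      simpa using hpos
    have e2 : B ((b - a) + s • e' + t • e) ((b - a) + s • e' + t • e)
        = B (b - a) (b - a) + s * (2 * B (b - a) e') + t * (2 * B (b - a) e)
        + s * t * (2 * B e' e) := by
      rw [B_add_self, B_add_self, B_add_left]
      simp only [B_smul_left, B_smul_right, hn, hn']
      ring
    rw [e2] at hle
    exact hle
  set c0 : ℝ := |(b - a) 0| / e 0 with hc0
  have hc00 : 0 ≤ c0 := div_nonneg (abs_nonneg _) he.1.le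
  have hall : ∀ s t : ℝ, c0 < s → c0 < t →
      B (b - a) (b - a) + s * (2 * B (b - a) e') + t * (2 * B (b - a) e)
        + s * t * (2 * B e' e) ≤ 0 := by
    intro s t hs ht
    apply key s t (by linarith) (by linarith)
    have h1 : |(b - a) 0| < t * e 0 := by
      rw [hc0, div_lt_iff₀ he.1] at ht; exact ht
    have h2 : 0 < s * e' 0 := mul_pos (by linarith) he'.1
    have := neg_abs_le ((b - a) 0)
    linarith
  obtain ⟨g1, g2⟩ := growth hall
  have hB := B_nonneg he' he
  have hB0 : B e' e = 0 := by linarith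
  obtain ⟨g3, g4⟩ := g2 (by rw [hB0]; ring)
  exact ⟨hB0, by linarith, by linarith⟩

/-- In 2+1 dimensions there is at most one N-point -/
theorem unique3 (h : Cond R3 N C D) (h' : Cond (fun x y => R3 y x) N C' D')
    (l : Link R3 N C C' V) {a b : Fin 3 → ℝ} (ha : a ∈ N) (hb : b ∈ N) : a = b := by
  have hne : ∀ i : Fin 3, (Fin.castSucc i : Fin 4) ≠ 3 := by decide
  choose ea hea hna hra using fun i : Fin 3 => h.exists_ray (hne i) ha
  choose eb heb hnb hrb using fun i : Fin 3 => h.exists_ray (hne i) hb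
  choose fa hfa hnfa hrfa using fun i : Fin 3 => h'.exists_ray' (hne i) ha
  choose fb hfb hnfb hrfb using fun i : Fin 3 => h'.exists_ray' (hne i) hb
  have hz : b - a = 0 := by
    apply eq_zero_of_three eb heb hnb
    · intro i j hij hB
      have hp := parallel_of_B_zero (heb i) (heb j) (hnb i) (hnb j) hB
      have h1 := hrb i (1/2 * (eb j 0 / eb i 0)) (by have := (heb i).1; have := (heb j).1; positivity)
      have h2 := hrb j 1 one_pos
      have hc : (Fin.castSucc i : Fin 4) ≠ Fin.castSucc j := by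
        intro hc; exact hij (Fin.castSucc_injective _ hc)
      apply h.sep _ _ hc _ h1 _ h2
      unfold R3
      have e1 : (1:ℝ) • eb j = (eb j 0 / eb i 0) • eb i := by rw [one_smul]; exact hp
      rw [e1]
      have e2 : b + (eb j 0 / eb i 0) • eb i - (b + (1 / 2 * (eb j 0 / eb i 0)) • eb i)
          = (1 / 2 * (eb j 0 / eb i 0)) • eb i := by
        have : (eb j 0 / eb i 0) = 1 / 2 * (eb j 0 / eb i 0) + 1 / 2 * (eb j 0 / eb i 0) := by ring
        have e3 : (eb j 0 / eb i 0) • eb i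
            = (1 / 2 * (eb j 0 / eb i 0)) • eb i + (1 / 2 * (eb j 0 / eb i 0)) • eb i := by
          rw [← add_smul, ← this]
        rw [e3]; abel
      rw [e2]
      exact (heb i).smul (by have := (heb i).1; have := (heb j).1; positivity)
    · intro i
      -- B (b - a) (eb i) ≤ 0
      obtain ⟨-, r1, -⟩ := rays_rel h h' l (hne i) (heb i) (hfa i) (hnb i) (hnfa i) (hrb i) (hrfa i)
      -- swap
      obtain ⟨s0, s1, s2⟩ := rays_rel h h' l (hne i) (hea i) (hfb i) (hna i) (hnfb i) (hra i) (hrfb i)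
      -- eb i parallel to fb i
      obtain ⟨p0, -, -⟩ := rays_rel h h' l (hne i) (heb i) (hfb i) (hnb i) (hnfb i) (hrb i) (hrfb i)
      have hp := parallel_of_B_zero (hfb i) (heb i) (hnfb i) (hnb i) p0
      -- s2 : B (a - b) (fb i) ≤ 0
      have hpos : 0 < eb i 0 / fb i 0 := div_pos (heb i).1 (hfb i).1
      have e1 : B (b - a) (eb i) = (eb i 0 / fb i 0) * B (b - a) (fb i) := by
        conv_lhs => rw [hp]
        rw [B_smul_right]
      have e2 : B (a - b) (fb i) = - B (b - a) (fb i) := by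
        rw [← B_neg_left]; congr 1; abel
      rw [e2] at s2
      have : 0 ≤ B (b - a) (eb i) := by
        rw [e1]; apply mul_nonneg hpos.le; linarith
      linarith
  have := sub_eq_zero.mp hz
  exact this.symm

end Pool.Agent.Helper79.Mink
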